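import Pool.Agent.W171.LG.CoreR

/-! # Comparison of the counting functions with a common density, groups `W₀ ⬝ ⟨D n ^ r⟩` -/

set_option autoImplicit false

namespace Pool.Agent.W2helper67.FD

open NumberField Filter Topology Finset
open Pool.Agent.W401.Cheb
open Pool.Agent.W171.LG
open Pool.Agent.H386R2.Artin (PP)
open Pool.Agent.H771R4.SE (Dat cntE)
open Pool.Agent.H981R3.LN (ql)

/-- the counting function and the density of almost all the groups are those of one datum -/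
theorem core2 (F : IntermediateField ℚ QA) [NumberField F] [IsGalois ℚ F] (C : Set Gal(F/ℚ))
    (W0 : Subgroup ℚˣ) (k : ℕ) (D : ℚˣ) (hC : ∀ σ ∈ C, ∀ τ : Gal(F/ℚ), τ * σ * τ⁻¹ ∈ C) (hW0 : W0.FG) (hk : k ≠ 0)
    {r : ℕ} (hr : 0 < r) (hrk : ∀ l : ℕ, l.Prime → l ∣ r → ql k l ∣ r) :
    ∃ d : Dat, (∃ P1 : ℕ, ∀ n : ℕ, n ≠ 0 → ∀ x : ℕ,
      |(Sc F C (W0 ⊔ Subgroup.zpowers (DR D r n)) k x : ℝ) - cntE d n x| ≤ P1) ∧
      ∀ ε : ℝ, 0 < ε → ∃ P0 : ℕ, ∀ n : ℕ, n ≠ 0 → Gen P0 n →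
        |(∑' e : ℕ, tW F C (W0 ⊔ Subgroup.zpowers (DR D r n)) k e) - d.A| ≤ ε := by
  classical
  have hRp : ∀ l ∈ r.primeFactors, l.Prime := fun l hl => Nat.prime_of_mem_primeFactors hl
  have hW1 : (W0 ⊔ Subgroup.zpowers D).FG := hW0.sup ⟨{D}, by simp [Subgroup.zpowers_eq_closure]⟩
  obtain ⟨d, hdA, hdQ⟩ := dat_R F C W0 k D r hW0 hr hrk _
    (lim_lenR F C k r.primeFactors hC hW1 hW0 hRp)
  obtain ⟨P1, hP1⟩ := Sc_cntR F C W0 k D hW0 hk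
  refine ⟨d, ⟨P1, fun n hn x => hP1 r hr.ne' d hdQ n hn x⟩, fun ε hε => ?_⟩
  obtain ⟨P0, hP0⟩ := closeR F C k hW0 D hr hrk ε hε
  refine ⟨P0, fun n hn hG => ?_⟩
  rw [hdA]
  exact hP0 n hn hG

end Pool.Agent.W2helper67.FD
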