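import Pool.Agent.W2helper67.FD.Dec

set_option autoImplicit false

/-!
Examples of measures with polynomial decay of the characteristic function.
-/

namespace Pool.Agent.W2helper67.FD

open MeasureTheory

/-- the uniform distributions -/
lemma fdec_unif (u : ℝ) : FDec (volume.restrict (Set.Ico u (u + 1))) 1 2 := by
  intro ξ hξ
  have hξ0 : ξ ≠ 0 := by
    rintro rfl
    simp at hξ
    linarith
  rw [charFun_apply_real]
  have h1 : ∫ x in Set.Ico u (u + 1), Complex.exp (ξ * x * Complex.I) =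
      ∫ x in u..(u + 1), Complex.exp ((ξ * Complex.I) * x) := by
    rw [intervalIntegral.integral_of_le (by linarith), integral_Ico_eq_integral_Ioo, integral_Ioc_eq_integral_Ioo]
    refine integral_congr_ae (ae_of_all _ fun x => ?_)
    simp only
    congr 1
    ring
  have hc : (ξ * Complex.I : ℂ) ≠ 0 := mul_ne_zero (by exact_mod_cast hξ0) Complex.I_ne_zero
  rw [h1, integral_exp_mul_complex hc, norm_div, norm_mul, Complex.norm_I, mul_one, Complex.norm_real,
    Real.norm_eq_abs, Real.rpow_neg_one, ← div_eq_mul_inv]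
  have hn : ∀ y : ℝ, ‖Complex.exp ((ξ * Complex.I) * y)‖ = 1 := by
    intro y
    have : (ξ * Complex.I) * y = ((ξ * y : ℝ) : ℂ) * Complex.I := by push_cast; ring
    rw [this, Complex.norm_exp_ofReal_mul_I]
  apply div_le_div_of_nonneg_right _ (abs_nonneg ξ)
  refine (norm_sub_le _ _).trans ?_
  have h2 := hn (u + 1)
  have h3 := hn u
  rw [h2, h3]
  norm_num

lemma prob_unif (u : ℝ) : IsProbabilityMeasure (volume.restrict (Set.Ico u (u + 1))) := by
  refine ⟨?_⟩
  rw [Measure.restrict_apply_univ, Real.volume_Ico]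
  simp

/-- convolutions -/
lemma fdec_conv (μ ν : Measure ℝ) [IsProbabilityMeasure μ] [IsProbabilityMeasure ν] {τ C₀ : ℝ} (h : FDec μ τ C₀) :
    FDec (μ.conv ν) τ C₀ := by
  intro ξ hξ
  rw [charFun_conv, norm_mul]
  have h1 := h ξ hξ
  have h2 : ‖charFun ν ξ‖ ≤ 1 := norm_charFun_le_one _
  calc ‖charFun μ ξ‖ * ‖charFun ν ξ‖ ≤ ‖charFun μ ξ‖ * 1 := mul_le_mul_of_nonneg_left h2 (norm_nonneg _)
    _ ≤ _ := by rw [mul_one]; exact h1

end Pool.Agent.W2helper67.FD
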