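import Pool.Agent.W2helper67.FD.Dec

set_option autoImplicit false

/-!
Almost all the integers `c₀ + κ ⌊Z x⌋` are exactly divisible by a large prime.
-/

namespace Pool.Agent.W2helper67.FD

open Finset MeasureTheory Filter Topology
open Pool.Agent.H469R2.NK (e norm_e e_add conj_e e_zero)

lemma e_one_iff (x : ℝ) : e x = 1 ↔ ∃ z : ℤ, x = z := by
  unfold Pool.Agent.H469R2.NK.e
  rw [Complex.exp_eq_one_iff]
  constructor
  · rintro ⟨z, hz⟩
    refine ⟨z, ?_⟩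
    have h1 : ((2 * Real.pi * x : ℝ) : ℂ) = ((2 * Real.pi * z : ℝ) : ℂ) := by
      have h2 : ((2 * Real.pi * x : ℝ) : ℂ) * Complex.I = ((2 * Real.pi * z : ℝ) : ℂ) * Complex.I := by
        rw [hz]
        push_cast
        ring
      exact mul_right_cancel₀ Complex.I_ne_zero h2
    have h2 : 2 * Real.pi * x = 2 * Real.pi * z := by exact_mod_cast h1
    have h3 := Real.pi_pos
    exact mul_left_cancel₀ (by positivity : 2 * Real.pi ≠ 0) h2
  · rintro ⟨z, rfl⟩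
    exact ⟨z, by push_cast; ring⟩

lemma e_nat_mul (a : ℕ) (x : ℝ) : e (a * x) = e x ^ a := by
  unfold Pool.Agent.H469R2.NK.e
  rw [← Complex.exp_nat_mul]
  congr 1
  push_cast
  ring

/-- orthogonality -/
lemma geom_e (q : ℕ) (hq : 1 ≤ q) (n : ℤ) :
    ∑ a ∈ range q, e ((a : ℝ) * (n / q)) = if (q : ℤ) ∣ n then (q : ℂ) else 0 := by
  have hqR : (q : ℝ) ≠ 0 := by positivity
  simp only [e_nat_mul]
  split_ifs with h
  · obtain ⟨z, hz⟩ := h
    have h1 : e ((n : ℝ) / q) = 1 := by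
      rw [e_one_iff]
      refine ⟨z, ?_⟩
      rw [hz]
      push_cast
      field_simp
    simp [h1]
  · have h1 : e ((n : ℝ) / q) ≠ 1 := by
      rw [Ne, e_one_iff]
      rintro ⟨z, hz⟩
      apply h
      refine ⟨z, ?_⟩
      rw [div_eq_iff hqR] at hz
      have : (n : ℝ) = ((q * z : ℤ) : ℝ) := by
        rw [hz]
        push_cast
        ring
      exact_mod_cast this
    rw [geom_sum_eq h1]
    have h2 : e ((n : ℝ) / q) ^ q = 1 := by
      rw [← e_nat_mul, e_one_iff]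
      exact ⟨n, by field_simp⟩
    rw [h2, sub_self, zero_div]

/-- the indicator of the multiples of `q` -/
noncomputable def ind (q : ℕ) (n : ℤ) : ℝ := if (q : ℤ) ∣ n then 1 else 0

lemma ind_mul {q r : ℕ} (h : Nat.Coprime q r) (n : ℤ) : ind q n * ind r n = ind (q * r) n := by
  unfold ind
  have h1 : ((q * r : ℕ) : ℤ) ∣ n ↔ (q : ℤ) ∣ n ∧ (r : ℤ) ∣ n := by
    push_cast
    exact ⟨fun h2 => ⟨(dvd_mul_right _ _).trans h2, (dvd_mul_left _ _).trans h2⟩,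
      fun h2 => IsCoprime.mul_dvd (by exact_mod_cast Nat.isCoprime_iff_coprime.2 h) h2.1 h2.2⟩
  simp only [h1]
  by_cases h2 : (q : ℤ) ∣ n <;> by_cases h3 : (r : ℤ) ∣ n <;> simp [h2, h3]

/-- exact divisibility by a prime -/
noncomputable def ax (p : ℕ) (n : ℤ) : ℝ := ind p n - ind (p ^ 2) n

lemma ax_cases (p : ℕ) (n : ℤ) :
    (ax p n = 1 ∧ (p : ℤ) ∣ n ∧ ¬ (p : ℤ) ^ 2 ∣ n) ∨ ax p n = 0 := by
  unfold ax ind
  have h0 : ((p ^ 2 : ℕ) : ℤ) ∣ n ↔ (p : ℤ) ^ 2 ∣ n := by push_cast; rfl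
  simp only [h0]
  by_cases h1 : (p : ℤ) ∣ n
  · by_cases h2 : (p : ℤ) ^ 2 ∣ n
    · right
      simp [h1, h2]
    · left
      simp [h1, h2]
  · right
    have h2 : ¬ (p : ℤ) ^ 2 ∣ n := fun h3 => h1 ((dvd_pow_self _ (by norm_num)).trans h3)
    simp [h1, h2]

lemma ax_sq (p : ℕ) (n : ℤ) : ax p n * ax p n = ax p n := by
  rcases ax_cases p n with h | h
  · rw [h.1]; norm_num
  · rw [h]; norm_num

/-- the density -/
noncomputable def bx (p : ℕ) : ℝ := 1 / p - 1 / (p : ℝ) ^ 2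

lemma ax_mul {p r : ℕ} (hp : p.Prime) (hr : r.Prime) (h : p ≠ r) (n : ℤ) :
    ax p n * ax r n = ind (p * r) n - ind (p ^ 2 * r) n - ind (p * r ^ 2) n +
      ind (p ^ 2 * r ^ 2) n := by
  have hc : Nat.Coprime p r := (Nat.coprime_primes hp hr).2 h
  unfold ax
  rw [← ind_mul hc, ← ind_mul (Nat.Coprime.pow_left 2 hc), ← ind_mul (Nat.Coprime.pow_right 2 hc),
    ← ind_mul (Nat.Coprime.pow 2 2 hc)]
  ring

lemma bx_sum (P0 : ℕ) (K : ℝ) : ∃ T : Finset ℕ, (∀ p ∈ T, p.Prime ∧ P0 < p) ∧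
    K ≤ ∑ p ∈ T, bx p := by
  have h1 := Nat.Primes.not_summable_one_div
  have h2 : ¬ Summable (fun p : {p : ℕ // p.Prime ∧ P0 < p} => (1 : ℝ) / p) := by
    intro h3
    apply h1
    have h4 : Summable (Set.indicator {p : ℕ | p.Prime} (fun p : ℕ => (1 : ℝ) / p)) := by
      rw [← summable_nat_add_iff (P0 + 1)]
      have h5 : Summable (Set.indicator {p : ℕ | p.Prime ∧ P0 < p} (fun p : ℕ => (1 : ℝ) / p)) :=
        (summable_subtype_iff_indicator (f := fun p : ℕ => (1 : ℝ) / p)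
          (s := {p : ℕ | p.Prime ∧ P0 < p})).1 h3
      have h6 := (summable_nat_add_iff (P0 + 1)).2 h5
      refine h6.congr fun n => ?_
      unfold Set.indicator
      have h7 : P0 < n + (P0 + 1) := by omega
      simp [h7]
    exact (summable_subtype_iff_indicator (f := fun p : ℕ => (1 : ℝ) / p)
      (s := {p : ℕ | p.Prime})).2 h4
  by_contra hcon
  push Not at hcon
  apply h2
  refine summable_of_sum_le (c := 2 * K) (fun _ => by positivity) fun u => ?_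
  have h3 := hcon (u.map ⟨Subtype.val, Subtype.val_injective⟩) (by
    intro p hp
    rw [Finset.mem_map] at hp
    obtain ⟨z, _, rfl⟩ := hp
    exact z.2)
  rw [Finset.sum_map] at h3
  have h4 : ∑ x ∈ u, (1 : ℝ) / (x : ℕ) ≤ ∑ x ∈ u, 2 * bx x := by
    refine sum_le_sum fun x _ => ?_
    have h5 : (2 : ℝ) ≤ (x : ℕ) := by exact_mod_cast x.2.1.two_le
    unfold bx
    rw [mul_sub, le_sub_iff_add_le]
    have h6 : 2 * (1 / (((x : ℕ) : ℝ)) ^ 2) ≤ 1 / (x : ℕ) := by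
      rw [mul_one_div, div_le_div_iff₀ (by positivity) (by linarith)]
      nlinarith
    linarith
  rw [← Finset.mul_sum] at h4
  simp only [Function.Embedding.coeFn_mk] at h3
  linarith

lemma int_z (ν : Measure ℤ) [IsProbabilityMeasure ν] (g : ℤ → ℝ) (B : ℝ) (hB : ∀ n, |g n| ≤ B) : Integrable g ν :=
  (integrable_const B).mono' (measurable_of_countable g).aestronglyMeasurable (ae_of_all _ hB)

lemma ind_le (q : ℕ) (n : ℤ) : |ind q n| ≤ 1 := by
  unfold ind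
  split_ifs <;> simp

lemma ax_le (p : ℕ) (n : ℤ) : |ax p n| ≤ 1 := by
  rcases ax_cases p n with h | h
  · rw [h.1]; simp
  · rw [h]; simp

lemma int4 {ν : Measure ℤ} {A B C D : ℤ → ℝ} (hA : Integrable A ν) (hB : Integrable B ν) (hC : Integrable C ν)
    (hD : Integrable D ν) : ∫ m, (A m - B m - C m + D m) ∂ν =
      ∫ m, A m ∂ν - ∫ m, B m ∂ν - ∫ m, C m ∂ν + ∫ m, D m ∂ν := by
  have h1 : ∫ m, (A m - B m - C m + D m) ∂ν = ∫ m, (A m - B m - C m) ∂ν + ∫ m, D m ∂ν :=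
    integral_add ((hA.sub hB).sub hC) hD
  have h2 : ∫ m, (A m - B m - C m) ∂ν = ∫ m, (A m - B m) ∂ν - ∫ m, C m ∂ν := integral_sub (hA.sub hB) hC
  have h3 : ∫ m, (A m - B m) ∂ν = ∫ m, A m ∂ν - ∫ m, B m ∂ν := integral_sub hA hB
  rw [h1, h2, h3]

/-- from the equidistribution in residue classes to the exact divisibility by a large prime -/
theorem nongen_core (κ : ℤ) (hκ : κ ≠ 0) (P0 : ℕ) (η : ℝ) (hη : 0 < η) :
    ∃ (S : Finset ℕ) (η' : ℝ), 0 < η' ∧ (∀ q ∈ S, 1 ≤ q ∧ IsCoprime κ (q : ℤ)) ∧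
    ∀ (ν : Measure ℤ) [IsProbabilityMeasure ν], (∀ q ∈ S, |∫ n, ind q n ∂ν - 1 / q| ≤ η') →
      ν.real {n | ¬ ∃ p : ℕ, p.Prime ∧ P0 < p ∧ (p : ℤ) ∣ n ∧ ¬ (p : ℤ) ^ 2 ∣ n} ≤ η := by
  classical
  obtain ⟨K, hK⟩ : ∃ K : ℝ, K = max 1 (2 / η) := ⟨_, rfl⟩
  have hK1 : 1 ≤ K := by rw [hK]; exact le_max_left _ _
  have hKη : 2 ≤ η * K := by
    have : 2 / η ≤ K := by rw [hK]; exact le_max_right _ _
    rw [div_le_iff₀ hη] at this
    linarith
  obtain ⟨T, hT, hTK⟩ := bx_sum (max P0 κ.natAbs) K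
  obtain ⟨μ, hμ⟩ : ∃ μ : ℝ, μ = ∑ p ∈ T, bx p := ⟨_, rfl⟩
  rw [← hμ] at hTK
  have hμ1 : 1 ≤ μ := hK1.trans hTK
  -- the moduli
  have hpos : ∀ p ∈ T, 1 ≤ p := fun p hp => (hT p hp).1.one_lt.le
  have hcop : ∀ p ∈ T, ∀ i : ℕ, IsCoprime κ ((p ^ i : ℕ) : ℤ) := by
    intro p hp i
    obtain ⟨h1, h2⟩ := hT p hp
    have h3 : Nat.Coprime κ.natAbs p := by
      apply Nat.Coprime.symm
      rw [Nat.Prime.coprime_iff_not_dvd h1]
      exact Nat.not_dvd_of_pos_of_lt (Int.natAbs_pos.2 hκ) (lt_of_le_of_lt (le_max_right _ _) h2)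
    push_cast
    exact IsCoprime.pow_right (by
      rw [Int.isCoprime_iff_gcd_eq_one, Int.gcd, Int.natAbs_natCast]
      exact h3)
  obtain ⟨n, hn⟩ : ∃ n : ℝ, n = T.card := ⟨_, rfl⟩
  have hn0 : 0 ≤ n := by rw [hn]; positivity
  obtain ⟨η', hη'⟩ : ∃ η' : ℝ, η' = 1 / (8 * (n ^ 2 + 1)) := ⟨_, rfl⟩
  have hη'0 : 0 < η' := by rw [hη']; positivity
  obtain ⟨S, hS⟩ : ∃ S : Finset ℕ, S = ((T ×ˢ T) ×ˢ (range 3 ×ˢ range 3)).image
    (fun z => z.1.1 ^ z.2.1 * z.1.2 ^ z.2.2) := ⟨_, rfl⟩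
  refine ⟨S, η', hη'0, fun q hq => ?_, fun ν _ hν => ?_⟩
  · rw [hS, mem_image] at hq
    obtain ⟨z, hz, rfl⟩ := hq
    rw [mem_product, mem_product] at hz
    refine ⟨?_, ?_⟩
    · exact Nat.one_le_iff_ne_zero.2 (Nat.mul_ne_zero
        (pow_ne_zero _ (by have := hpos _ hz.1.1; omega))
        (pow_ne_zero _ (by have := hpos _ hz.1.2; omega)))
    · push_cast
      have h1 := hcop _ hz.1.1 z.2.1
      have h2 := hcop _ hz.1.2 z.2.2
      push_cast at h1 h2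
      exact h1.mul_right h2
  have hcnt : ∀ p ∈ T, ∀ r ∈ T, ∀ i < 3, ∀ j < 3,
      |∫ m, ind (p ^ i * r ^ j) m ∂ν - 1 / ((p : ℝ) ^ i * (r : ℝ) ^ j)| ≤ η' := by
    intro p hp r hr i hi j hj
    have hz : p ^ i * r ^ j ∈ S := by
      rw [hS, mem_image]
      exact ⟨((p, r), (i, j)), by simp [hp, hr, hi, hj], rfl⟩
    have h1 := hν _ hz
    push_cast at h1
    exact h1
  have hii : ∀ q : ℕ, Integrable (fun m => ind q m) ν := fun q => int_z ν _ 1 (ind_le q)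
  have hai : ∀ p : ℕ, Integrable (fun m => ax p m) ν := fun p => int_z ν _ 1 (ax_le p)
  have hone : ∀ p ∈ T, |∫ m, ax p m ∂ν - bx p| ≤ 2 * η' := by
    intro p hp
    have h1 := hcnt p hp p hp 1 (by norm_num) 0 (by norm_num)
    have h2 := hcnt p hp p hp 2 (by norm_num) 0 (by norm_num)
    simp only [pow_one, pow_zero, mul_one] at h1 h2
    have h3 : ∫ m, ax p m ∂ν - bx p = (∫ m, ind p m ∂ν - 1 / p) - (∫ m, ind (p ^ 2) m ∂ν - 1 / (p : ℝ) ^ 2) := by
      unfold ax bx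
      rw [integral_sub (hii _) (hii _)]
      ring
    rw [h3]
    exact (abs_sub _ _).trans (by linarith)
  have htwo : ∀ p ∈ T, ∀ r ∈ T, p ≠ r → |∫ m, ax p m * ax r m ∂ν - bx p * bx r| ≤ 4 * η' := by
    intro p hp r hr hpr
    have h1 := hcnt p hp r hr 1 (by norm_num) 1 (by norm_num)
    have h2 := hcnt p hp r hr 2 (by norm_num) 1 (by norm_num)
    have h3 := hcnt p hp r hr 1 (by norm_num) 2 (by norm_num)
    have h4 := hcnt p hp r hr 2 (by norm_num) 2 (by norm_num)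
    simp only [pow_one] at h1 h2 h3 h4
    have hp0 : (p : ℝ) ≠ 0 := by
      have := hpos p hp
      exact_mod_cast (by omega : p ≠ 0)
    have hr0 : (r : ℝ) ≠ 0 := by
      have := hpos r hr
      exact_mod_cast (by omega : r ≠ 0)
    have h5 : ∫ m, ax p m * ax r m ∂ν - bx p * bx r =
        (∫ m, ind (p * r) m ∂ν - 1 / ((p : ℝ) * r)) -
        (∫ m, ind (p ^ 2 * r) m ∂ν - 1 / ((p : ℝ) ^ 2 * r)) -
        (∫ m, ind (p * r ^ 2) m ∂ν - 1 / ((p : ℝ) * (r : ℝ) ^ 2)) +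
        (∫ m, ind (p ^ 2 * r ^ 2) m ∂ν - 1 / ((p : ℝ) ^ 2 * (r : ℝ) ^ 2)) := by
      have h6 : ∀ m : ℤ, ax p m * ax r m = ind (p * r) m - ind (p ^ 2 * r) m - ind (p * r ^ 2) m +
          ind (p ^ 2 * r ^ 2) m := fun m => ax_mul (hT p hp).1 (hT r hr).1 hpr m
      simp only [h6]
      rw [int4 (hii _) (hii _) (hii _) (hii _)]
      unfold bx
      field_simp
      ring
    rw [h5, abs_le]
    rw [abs_le] at h1 h2 h3 h4
    constructor <;> linarith
  -- the second moment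
  have hbx0 : ∀ p ∈ T, 0 ≤ bx p ∧ bx p ≤ 1 := by
    intro p hp
    have h1 : (1 : ℝ) ≤ p := by exact_mod_cast hpos p hp
    unfold bx
    have h2 : 1 / (p : ℝ) ^ 2 ≤ 1 / p := by
      apply one_div_le_one_div_of_le (by linarith)
      nlinarith
    have h3 : 1 / (p : ℝ) ≤ 1 := by
      rw [div_le_one (by linarith)]
      exact h1
    have h4 : 0 ≤ 1 / (p : ℝ) ^ 2 := by positivity
    constructor <;> linarith
  have hmi : ∀ p r : ℕ, Integrable (fun m => ax p m * ax r m) ν := fun p r => int_z ν _ 1 fun m => by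
    rw [abs_mul]
    exact mul_le_one₀ (ax_le p m) (abs_nonneg _) (ax_le r m)
  have hpi : ∀ p r : ℕ, Integrable (fun m => (ax p m - bx p) * (ax r m - bx r)) ν := by
    intro p r
    have e1 : (fun m : ℤ => (ax p m - bx p) * (ax r m - bx r)) =
        fun m => ax p m * ax r m - bx r * ax p m - bx p * ax r m + bx p * bx r := by
      funext m
      ring
    rw [e1]
    exact (((hmi p r).sub ((hai p).const_mul _)).sub ((hai r).const_mul _)).add (integrable_const _)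
  have hpair : ∀ p ∈ T, ∀ r ∈ T,
      ∫ m, (ax p m - bx p) * (ax r m - bx r) ∂ν ≤ 8 * η' + if p = r then bx p else 0 := by
    intro p hp r hr
    have e1 : ∫ m, (ax p m - bx p) * (ax r m - bx r) ∂ν =
        ∫ m, ax p m * ax r m ∂ν - bx r * ∫ m, ax p m ∂ν - bx p * ∫ m, ax r m ∂ν + bx p * bx r := by
      have e2 : ∀ m : ℤ, (ax p m - bx p) * (ax r m - bx r) =
        ax p m * ax r m - bx r * ax p m - bx p * ax r m + bx p * bx r := fun m => by ring
      simp only [e2]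
      rw [int4 (hmi p r) ((hai p).const_mul _) ((hai r).const_mul _) (integrable_const _), integral_const_mul,
        integral_const_mul, integral_const, probReal_univ, one_smul]
    have h1 := hone p hp
    have h2 := hone r hr
    have h3 := hbx0 p hp
    have h4 := hbx0 r hr
    rw [abs_le] at h1 h2
    have h5 : -(bx r * ∫ m, ax p m ∂ν) ≤ -(bx p * bx r) + 2 * η' := by
      have : bx r * (bx p - 2 * η') ≤ bx r * ∫ m, ax p m ∂ν := by
        apply mul_le_mul_of_nonneg_left _ h4.1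
        linarith
      have h6 : bx r * (2 * η') ≤ 1 * (2 * η') := by gcongr; exact h4.2
      nlinarith
    have h6 : -(bx p * ∫ m, ax r m ∂ν) ≤ -(bx p * bx r) + 2 * η' := by
      have : bx p * (bx r - 2 * η') ≤ bx p * ∫ m, ax r m ∂ν := by
        apply mul_le_mul_of_nonneg_left _ h3.1
        linarith
      have h6 : bx p * (2 * η') ≤ 1 * (2 * η') := by gcongr; exact h3.2
      nlinarith
    rw [e1]
    split_ifs with hpr
    · subst hpr
      have h7 : ∫ m, ax p m * ax p m ∂ν = ∫ m, ax p m ∂ν := by simp only [ax_sq]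
      rw [h7]
      have h8 : 0 ≤ bx p * bx p := mul_self_nonneg _
      linarith
    · have h7 := htwo p hp r hr hpr
      rw [abs_le] at h7
      linarith
  have e0 : ∀ m : ℤ, (∑ p ∈ T, ax p m - μ) ^ 2 = ∑ p ∈ T, ∑ r ∈ T, (ax p m - bx p) * (ax r m - bx r) := by
    intro m
    rw [hμ, ← sum_sub_distrib, sq, sum_mul_sum]
  have hsqi : Integrable (fun m : ℤ => (∑ p ∈ T, ax p m - μ) ^ 2) ν := by
    simp only [e0]
    exact integrable_finsetSum _ fun p _ => integrable_finsetSum _ fun r _ => hpi p r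
  have hsec : ∫ m, (∑ p ∈ T, ax p m - μ) ^ 2 ∂ν ≤ μ + 1 := by
    simp only [e0]
    rw [integral_finsetSum _ fun p _ => integrable_finsetSum _ fun r _ => hpi p r]
    have e2 : ∀ p ∈ T, ∫ m, ∑ r ∈ T, (ax p m - bx p) * (ax r m - bx r) ∂ν ≤ n * (8 * η') + bx p := by
      intro p hp
      rw [integral_finsetSum _ fun r _ => hpi p r]
      refine (sum_le_sum fun r hr => hpair p hp r hr).trans ?_
      rw [sum_add_distrib, sum_const, nsmul_eq_mul, ← hn, sum_ite_eq, if_pos hp]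
    refine (sum_le_sum e2).trans ?_
    rw [sum_add_distrib, sum_const, nsmul_eq_mul, ← hn, ← hμ]
    have e3 : n * (n * (8 * η')) ≤ 1 := by
      rw [hη']
      have e4 : n * (n * (8 * (1 / (8 * (n ^ 2 + 1))))) = n ^ 2 / (n ^ 2 + 1) := by
        have : n ^ 2 + 1 ≠ 0 := by positivity
        field_simp
      rw [e4, div_le_one (by positivity)]
      linarith
    linarith
  -- the bad values
  obtain ⟨B, hB⟩ : ∃ B : Set ℤ, B = {m | ¬ ∃ p : ℕ, p.Prime ∧ P0 < p ∧ (p : ℤ) ∣ m ∧ ¬ (p : ℤ) ^ 2 ∣ m} := ⟨_, rfl⟩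
  rw [← hB]
  have hBm : MeasurableSet B := MeasurableSet.of_discrete
  have hfin : ν.real B * μ ^ 2 ≤ μ + 1 := by
    refine le_trans ?_ hsec
    calc ν.real B * μ ^ 2 = ∫ m, B.indicator (fun _ => μ ^ 2) m ∂ν := by
          rw [integral_indicator hBm, setIntegral_const, smul_eq_mul]
      _ ≤ ∫ m, (∑ p ∈ T, ax p m - μ) ^ 2 ∂ν := by
          refine integral_mono ((integrable_const _).indicator hBm) hsqi fun m => ?_
          by_cases hm : m ∈ B
          · rw [Set.indicator_of_mem hm]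
            have h1 : ∑ p ∈ T, ax p m = 0 := by
              refine sum_eq_zero fun p hp => ?_
              rcases ax_cases p m with h2 | h2
              · rw [hB] at hm
                exact absurd ⟨p, (hT p hp).1, lt_of_le_of_lt (le_max_left _ _) (hT p hp).2, h2.2.1, h2.2.2⟩ hm
              · exact h2
            simp only [h1, zero_sub, neg_sq]
            exact le_rfl
          · rw [Set.indicator_of_notMem hm]
            positivity
  have h1 : μ + 1 ≤ η * μ ^ 2 := by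
    have h2 : 2 ≤ η * μ := hKη.trans (by gcongr)
    nlinarith
  have h3 : (0 : ℝ) < μ ^ 2 := by positivity
  exact le_of_mul_le_mul_right (hfin.trans h1) h3

/-- the distribution of `c₀ + κ ⌊Z x⌋` in residue classes -/
theorem count_mod {τ C₀ : ℝ} (hτ : 0 < τ) (κ : ℤ) (q : ℕ) (hq : 1 ≤ q) (hκ : IsCoprime κ (q : ℤ)) (η : ℝ)
    (hη : 0 < η) : ∃ Z₀ : ℝ, ∀ Z : ℝ, Z₀ ≤ Z → ∀ (μ : Measure ℝ) [IsProbabilityMeasure μ], FDec μ τ C₀ → ∀ c₀ : ℤ,
    |∫ x, ind q (c₀ + κ * ⌊Z * x⌋) ∂μ - 1 / q| ≤ η := by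
  have hqR : (1 : ℝ) ≤ q := by exact_mod_cast hq
  have hq0 : (0 : ℝ) < q := by linarith
  obtain ⟨C₁, hC₁⟩ : ∃ C₁ : ℝ, C₁ = 1088 * |C₀| + 10 := ⟨_, rfl⟩
  have hC₁0 : 0 < C₁ := by rw [hC₁]; positivity
  obtain ⟨B, hB⟩ : ∃ B : ℝ, B = max 1 (C₁ / η) := ⟨_, rfl⟩
  have hB1 : 1 ≤ B := by rw [hB]; exact le_max_left _ _
  have hB2 : C₁ / η ≤ B := by rw [hB]; exact le_max_right _ _
  have hB0 : 0 < B := by linarith
  refine ⟨q * B ^ (4 / τ), fun Z hZ μ _ hμ c₀ => ?_⟩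
  have hC := hμ.nonneg
  rw [abs_of_nonneg hC] at hC₁
  have hZ1 : (q : ℝ) ≤ Z := by
    refine le_trans ?_ hZ
    exact le_mul_of_one_le_right hq0.le (Real.one_le_rpow hB1 (by positivity))
  have hZ0 : 0 < Z := by linarith
  have hvm : Measurable (fun x : ℝ => c₀ + κ * ⌊Z * x⌋) := ((meas_fl Z).const_mul κ).const_add c₀
  have hei : ∀ a : ℕ, Integrable (fun x : ℝ => e ((a : ℝ) * (((c₀ + κ * ⌊Z * x⌋ : ℤ) : ℝ) / q))) μ := by
    intro a
    refine int_bd μ ?_ 1 fun x => (norm_e _).le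
    exact (measurable_of_countable (fun n : ℤ => e ((a : ℝ) * ((n : ℝ) / q)))).comp hvm
  have h1 : ((∫ x, ind q (c₀ + κ * ⌊Z * x⌋) ∂μ : ℝ) : ℂ) =
      1 / (q : ℂ) * ∑ a ∈ range q, ∫ x, e ((a : ℝ) * (((c₀ + κ * ⌊Z * x⌋ : ℤ) : ℝ) / q)) ∂μ := by
    rw [← integral_complex_ofReal, ← integral_finsetSum _ fun a _ => hei a, ← integral_const_mul]
    refine integral_congr_ae (ae_of_all _ fun x => ?_)
    simp only
    have h2 := geom_e q hq (c₀ + κ * ⌊Z * x⌋)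
    rw [h2]
    unfold ind
    have hqC : (q : ℂ) ≠ 0 := by
      have : q ≠ 0 := by omega
      exact_mod_cast this
    split_ifs <;> simp [hqC]
  have h2 : ∀ a ∈ (range q).erase 0, ‖∫ x, e ((a : ℝ) * (((c₀ + κ * ⌊Z * x⌋ : ℤ) : ℝ) / q)) ∂μ‖ ≤ η := by
    intro a ha
    rw [mem_erase, mem_range] at ha
    obtain ⟨α, hα⟩ : ∃ α : ℝ, α = a * κ / q := ⟨_, rfl⟩
    have h3 : ∀ x : ℝ, e ((a : ℝ) * (((c₀ + κ * ⌊Z * x⌋ : ℤ) : ℝ) / q)) =
        e (a * c₀ / q) * e ((α - round α) * (⌊Z * x⌋ : ℤ)) := by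
      intro x
      have h4 : (a : ℝ) * (((c₀ + κ * ⌊Z * x⌋ : ℤ) : ℝ) / q) =
          a * c₀ / q + ((α - round α) * (⌊Z * x⌋ : ℤ) + ((round α * ⌊Z * x⌋ : ℤ) : ℝ)) := by
        rw [hα]
        push_cast
        ring
      rw [h4, e_add, e_add]
      have h5 : e ((round α * ⌊Z * x⌋ : ℤ) : ℝ) = 1 := (e_one_iff _).2 ⟨_, rfl⟩
      rw [h5, mul_one]
    simp only [h3]
    rw [integral_const_mul, norm_mul, norm_e, one_mul]
    have hge : 1 / (q : ℝ) ≤ |α - round α| := by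
      have h6 : (a * κ - q * round α : ℤ) ≠ 0 := by
        intro h7
        have h8 : (q : ℤ) ∣ a * κ := ⟨round α, by linarith⟩
        have h9 : (q : ℤ) ∣ a := hκ.symm.dvd_of_dvd_mul_right h8
        have h10 : q ∣ a := by exact_mod_cast h9
        exact ha.1 (Nat.eq_zero_of_dvd_of_lt h10 ha.2)
      have h7 := Int.one_le_abs h6
      have h8 : (1 : ℝ) ≤ |(a : ℝ) * κ - q * round α| := by exact_mod_cast h7
      have h9 : α - round α = ((a : ℝ) * κ - q * round α) / q := by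
        rw [hα]
        field_simp
      rw [h9, abs_div, abs_of_pos (by linarith : (0 : ℝ) < q)]
      gcongr
    have hB3 : B ^ (4 / τ) ≤ Z * |α - round α| := by
      calc B ^ (4 / τ) = (q * B ^ (4 / τ)) * (1 / q) := by field_simp
        _ ≤ Z * |α - round α| := mul_le_mul hZ hge (by positivity) hZ0.le
    have h10 := char_fl μ hτ hμ Z (α - round α) hZ0 (abs_sub_round α)
      ((Real.one_le_rpow hB1 (by positivity)).trans hB3)
    refine h10.trans ?_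
    rw [← hC₁]
    have h11 : (Z * |α - round α|) ^ (-(τ / 4)) ≤ B⁻¹ := by
      calc (Z * |α - round α|) ^ (-(τ / 4)) ≤ (B ^ (4 / τ)) ^ (-(τ / 4)) :=
            Real.rpow_le_rpow_of_nonpos (by positivity) hB3 (by
              have : 0 < τ / 4 := by positivity
              linarith)
        _ = B⁻¹ := by
            rw [← Real.rpow_mul hB0.le]
            have : 4 / τ * -(τ / 4) = -1 := by field_simp
            rw [this, Real.rpow_neg_one]
    calc C₁ * (Z * |α - round α|) ^ (-(τ / 4)) ≤ C₁ * B⁻¹ := mul_le_mul_of_nonneg_left h11 hC₁0.le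
      _ ≤ η := by
          rw [← div_eq_mul_inv, div_le_iff₀ hB0]
          rw [div_le_iff₀ hη] at hB2
          linarith
  have h3 : ∫ x, e (((0 : ℕ) : ℝ) * (((c₀ + κ * ⌊Z * x⌋ : ℤ) : ℝ) / q)) ∂μ = 1 := by
    simp only [Nat.cast_zero, zero_mul, e_zero]
    rw [integral_const, probReal_univ, one_smul]
  have h4 : ((∫ x, ind q (c₀ + κ * ⌊Z * x⌋) ∂μ - 1 / q : ℝ) : ℂ) =
      1 / (q : ℂ) * ∑ a ∈ (range q).erase 0, ∫ x, e ((a : ℝ) * (((c₀ + κ * ⌊Z * x⌋ : ℤ) : ℝ) / q)) ∂μ := by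
    rw [← Finset.add_sum_erase (range q) _ (mem_range.2 (by omega : 0 < q)), h3] at h1
    rw [Complex.ofReal_sub, h1]
    push_cast
    ring
  have h5 := congrArg norm h4
  rw [Complex.norm_real, Real.norm_eq_abs] at h5
  rw [h5, norm_mul, norm_div, norm_one, Complex.norm_natCast]
  calc 1 / (q : ℝ) * ‖∑ a ∈ (range q).erase 0, ∫ x, e ((a : ℝ) * (((c₀ + κ * ⌊Z * x⌋ : ℤ) : ℝ) / q)) ∂μ‖ ≤
        1 / q * ∑ a ∈ (range q).erase 0, η := by
        gcongr
        exact (norm_sum_le _ _).trans (sum_le_sum h2)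
    _ ≤ 1 / q * (q * η) := by
        gcongr
        rw [sum_const, nsmul_eq_mul]
        gcongr
        exact (card_erase_le).trans (by rw [card_range])
    _ = _ := by field_simp

/-- almost all the integers `c₀ + κ ⌊Z x⌋` are exactly divisible by a prime larger than `P0` -/
theorem few_nongen {τ C₀ : ℝ} (hτ : 0 < τ) (κ : ℤ) (hκ : κ ≠ 0) (P0 : ℕ) (η : ℝ) (hη : 0 < η) :
    ∃ Z₀ : ℝ, ∀ Z : ℝ, Z₀ ≤ Z → ∀ (μ : Measure ℝ) [IsProbabilityMeasure μ], FDec μ τ C₀ → ∀ c₀ : ℤ,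
    μ.real {x | ¬ ∃ p : ℕ, p.Prime ∧ P0 < p ∧ (p : ℤ) ∣ c₀ + κ * ⌊Z * x⌋ ∧ ¬ (p : ℤ) ^ 2 ∣ c₀ + κ * ⌊Z * x⌋} ≤ η := by
  classical
  obtain ⟨S, η', hη', hS, H⟩ := nongen_core κ hκ P0 η hη
  have h1 : ∀ q : ℕ, q ∈ S → ∃ Z₀ : ℝ, ∀ Z : ℝ, Z₀ ≤ Z → ∀ (μ : Measure ℝ) [IsProbabilityMeasure μ], FDec μ τ C₀ →
      ∀ c₀ : ℤ, |∫ x, ind q (c₀ + κ * ⌊Z * x⌋) ∂μ - 1 / q| ≤ η' := fun q hq =>
    count_mod hτ κ q (hS q hq).1 (hS q hq).2 η' hη'
  choose! Z₁ hZ₁ using h1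
  refine ⟨∑ q ∈ S, |Z₁ q|, fun Z hZ μ _ hμ c₀ => ?_⟩
  have hvm : Measurable (fun x : ℝ => c₀ + κ * ⌊Z * x⌋) := ((meas_fl Z).const_mul κ).const_add c₀
  have hpm : IsProbabilityMeasure (μ.map (fun x : ℝ => c₀ + κ * ⌊Z * x⌋)) := Measure.isProbabilityMeasure_map hvm.aemeasurable
  have h2 := H (μ.map (fun x : ℝ => c₀ + κ * ⌊Z * x⌋)) (fun q hq => by
    rw [integral_map hvm.aemeasurable (measurable_of_countable _).aestronglyMeasurable]
    refine hZ₁ q hq Z ?_ μ hμ c₀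
    exact (le_abs_self _).trans ((single_le_sum (f := fun q => |Z₁ q|) (fun _ _ => abs_nonneg _) hq).trans hZ))
  rw [map_measureReal_apply hvm MeasurableSet.of_discrete] at h2
  exact h2

end Pool.Agent.W2helper67.FD
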