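import Pool.Agent.W2helper67.FD.Dec
import Pool.Agent.N193.PS.Law
import Pool.Agent.N625.DY.L

set_option autoImplicit false

/-!
The integer parts `⌊Z x⌋` form a class of distributions in the sense of `Pool.Agent.N625.DY`.
-/

namespace Pool.Agent.W2helper67.FD

open Finset MeasureTheory Filter Topology
open Pool.Agent.H469R2.NK (e norm_e e_add conj_e e_zero)
open Pool.Agent.N193.PS (e_int' ne_dist)
open Pool.Agent.H807R2.Dav (ee norm_ee ee_add)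
open Pool.Agent.W93.AU (Law)
open Pool.Agent.N625.DY (Cls ClsV)

lemma ee_e (x : ℝ) : ee x = e x := by
  unfold Pool.Agent.H807R2.Dav.ee Pool.Agent.H469R2.NK.e
  congr 1
  push_cast
  ring

/-- the integer part of `Z x`, `0 ≤ x < 1` -/
noncomputable def nz (Z : ℝ) (x : ℝ) : ℕ := if 0 ≤ x ∧ x < 1 then ⌊Z * x⌋.toNat else 0

lemma meas_nz (Z : ℝ) : Measurable (nz Z) := by
  unfold nz
  refine Measurable.ite ?_ ((measurable_of_countable Int.toNat).comp (meas_fl Z)) measurable_const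
  exact (measurableSet_le measurable_const measurable_id).inter (measurableSet_lt measurable_id measurable_const)

lemma nz_eq {Z x : ℝ} (hZ : 0 < Z) (h0 : 0 ≤ x) (h1 : x < 1) : ((nz Z x : ℕ) : ℤ) = ⌊Z * x⌋ := by
  unfold nz
  rw [if_pos ⟨h0, h1⟩]
  exact Int.toNat_of_nonneg (Int.floor_nonneg.2 (by positivity))

lemma nz_lt {Z : ℝ} (hZ : 0 < Z) {k : ℕ} (hk : Z ≤ 2 ^ k) (x : ℝ) : nz Z x < 2 ^ k := by
  by_cases h : 0 ≤ x ∧ x < 1
  · have h1 := nz_eq hZ h.1 h.2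
    have h2 : ((nz Z x : ℕ) : ℝ) ≤ Z * x := by
      have h3 := Int.floor_le (Z * x)
      rw [← h1] at h3
      exact_mod_cast h3
    have h3 : ((nz Z x : ℕ) : ℝ) < 2 ^ k := by
      have : Z * x < Z * 1 := mul_lt_mul_of_pos_left h.2 hZ
      linarith
    exact_mod_cast h3
  · unfold nz
    rw [if_neg h]
    positivity

/-- the integral of a function of a random natural number of a finite set -/
lemma int_nat (μ : Measure ℝ) [IsProbabilityMeasure μ] (N : ℝ → ℕ) (hN : Measurable N)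
    (K : ℕ) (hS : ∀ x, N x < K) (g : ℕ → ℂ) :
    ∫ x, g (N x) ∂μ = ∑ v ∈ range K, ((μ.real {x | N x = v} : ℝ) : ℂ) * g v := by
  classical
  have hm : ∀ v : ℕ, MeasurableSet {x | N x = v} := fun v => hN (measurableSet_singleton v)
  have h1 : ∀ x, g (N x) = ∑ v ∈ range K, {x | N x = v}.indicator (fun _ => g v) x := by
    intro x
    rw [Finset.sum_eq_single (N x)]
    · rw [Set.indicator_of_mem (by rfl)]
    · intro v _ hv
      rw [Set.indicator_of_notMem]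
      intro h
      exact hv h.symm
    · intro h
      exact absurd (mem_range.2 (hS x)) h
  simp only [h1]
  rw [integral_finsetSum _ fun v _ => (integrable_const _).indicator (hm v)]
  refine sum_congr rfl fun v _ => ?_
  rw [integral_indicator (hm v), setIntegral_const, Complex.real_smul]

/-- sums of the masses -/
lemma sum_nat (μ : Measure ℝ) [IsProbabilityMeasure μ] (N : ℝ → ℕ) (hN : Measurable N)
    (K : ℕ) (hS : ∀ x, N x < K) (S : ℕ → Prop) [DecidablePred S] :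
    ∑ v ∈ range K, (if S v then μ.real {x | N x = v} else 0) = μ.real {x | S (N x)} := by
  have hm : ∀ v : ℕ, MeasurableSet {x | N x = v} := fun v => hN (measurableSet_singleton v)
  have h1 : {x | S (N x)} = ⋃ v ∈ (range K).filter S, {x | N x = v} := by
    ext x
    simp only [Set.mem_ofPred_eq, Set.mem_iUnion, mem_filter, mem_range, exists_prop]
    constructor
    · intro h
      exact ⟨N x, ⟨hS x, h⟩, rfl⟩
    · rintro ⟨v, ⟨_, hv⟩, rfl⟩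
      exact hv
  rw [h1, measureReal_biUnion_finset _ fun v _ => hm v, sum_filter]
  intro v _ w _ hvw
  rw [Function.onFun, Set.disjoint_left]
  intro x hx hx'
  simp only [Set.mem_ofPred_eq] at hx hx'
  exact hvw (hx.symm.trans hx')

/-- the distributions of the integer parts `⌊Z x⌋`, `2 ^ k ≤ 2 Z`, `Z ≤ 2 ^ k` -/
def FC (τ C₁ : ℝ) (k : ℕ) (p : ℕ → ℝ) : Prop :=
  ∃ (μ : Measure ℝ) (_ : IsProbabilityMeasure μ) (Z : ℝ), FDec μ τ C₁ ∧ (∀ᵐ x ∂μ, 0 ≤ x ∧ x < 1) ∧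
    (2 : ℝ) ^ k ≤ 2 * Z ∧ Z ≤ 2 ^ k ∧ ∀ v, p v = μ.real {x | nz Z x = v}

lemma FC_nonneg {τ C₁ : ℝ} {k : ℕ} {p : ℕ → ℝ} (hp : FC τ C₁ k p) (v : ℕ) : 0 ≤ p v := by
  obtain ⟨μ, _, Z, _, _, _, _, h⟩ := hp
  rw [h]
  exact measureReal_nonneg

lemma pos_Z {Z : ℝ} {k : ℕ} (h : (2 : ℝ) ^ k ≤ 2 * Z) : 0 < Z := by
  have : (0 : ℝ) < 2 ^ k := by positivity
  linarith

lemma FC_sum {τ C₁ : ℝ} {k : ℕ} {p : ℕ → ℝ} (hp : FC τ C₁ k p) : ∑ v ∈ range (2 ^ k), p v = 1 := by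
  obtain ⟨μ, _, Z, _, _, h1, h2, h⟩ := hp
  have h3 := sum_nat μ (nz Z) (meas_nz Z) (2 ^ k) (nz_lt (pos_Z h1) h2) (fun _ => True)
  simp only [if_true] at h3
  rw [sum_congr rfl fun v _ => h v, h3]
  simp

/-- the character sums of the class -/
lemma FC_char {μ : Measure ℝ} [IsProbabilityMeasure μ] {Z : ℝ} {k : ℕ} (hs : ∀ᵐ x ∂μ, 0 ≤ x ∧ x < 1)
    (h1 : (2 : ℝ) ^ k ≤ 2 * Z) (h2 : Z ≤ 2 ^ k) {p : ℕ → ℝ} (hp : ∀ v, p v = μ.real {x | nz Z x = v})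
    (G cc q0 : ℤ) (θ0 : ℝ) (Y : ℕ → ℤ) (hY : ∀ v, Y v = cc + G * (v : ℕ)) :
    ‖∑ v ∈ range (2 ^ k), ((p v : ℝ) : ℂ) * ee ((Y v : ℝ) * θ0)‖ =
      ‖∫ x, e (((G : ℝ) * θ0 - q0) * (⌊Z * x⌋ : ℤ)) ∂μ‖ := by
  have h3 : ∑ v ∈ range (2 ^ k), ((p v : ℝ) : ℂ) * ee ((Y v : ℝ) * θ0) = ∫ x, ee ((Y (nz Z x) : ℝ) * θ0) ∂μ := by
    rw [int_nat μ (nz Z) (meas_nz Z) (2 ^ k) (nz_lt (pos_Z h1) h2) (fun v => ee ((Y v : ℝ) * θ0))]
    exact sum_congr rfl fun v _ => by rw [hp]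
  have h4 : ∫ x, ee ((Y (nz Z x) : ℝ) * θ0) ∂μ =
      ∫ x, ee (cc * θ0) * e (((G : ℝ) * θ0 - q0) * (⌊Z * x⌋ : ℤ)) ∂μ := by
    refine integral_congr_ae ?_
    filter_upwards [hs] with x hx
    have h5 := nz_eq (pos_Z h1) hx.1 hx.2
    rw [hY, ee_e, ee_e, ← e_add]
    have h6 : ((cc + G * ((nz Z x : ℕ) : ℤ) : ℤ) : ℝ) * θ0 =
        (cc * θ0 + ((G : ℝ) * θ0 - q0) * (⌊Z * x⌋ : ℤ)) + ((q0 * ⌊Z * x⌋ : ℤ) : ℝ) := by
      rw [h5]
      push_cast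
      ring
    rw [h6, e_add, e_int', mul_one]
  rw [h3, h4, integral_const_mul, norm_mul, norm_ee, one_mul]

/-- the decay in terms of powers of the number of digits -/
lemma char_poly (τ C₁ : ℝ) (hτ : 0 < τ) (V : ℕ) : ∃ A m₀ : ℕ, 2 ≤ m₀ ∧ ∀ m : ℕ, m₀ ≤ m → ∀ (μ : Measure ℝ)
    [IsProbabilityMeasure μ], FDec μ τ C₁ → ∀ Z θ : ℝ, (2 : ℝ) ^ m ≤ 2 * Z → |θ| ≤ 1 / 2 →
    (m : ℝ) ^ A ≤ |θ| * 2 ^ m → ∀ K : ℕ, 1 ≤ K → K ≤ 2 * m → ‖∫ x, e (θ * (⌊Z * x⌋ : ℤ)) ∂μ‖ ≤ 1 / (K : ℝ) ^ V := by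
  obtain ⟨A, hA⟩ := exists_nat_ge ((V + 1) * (4 / τ))
  obtain ⟨m₀, hm₀⟩ := exists_nat_ge ((1088 * |C₁| + 10) * 2 ^ V)
  refine ⟨A + 1, m₀ + 2, by omega, fun m hm μ _ hμ Z θ hZ hθ h1 K hK1 hK2 => ?_⟩
  have hC := hμ.nonneg
  rw [abs_of_nonneg hC] at hm₀
  have hm1 : (2 : ℝ) ≤ m := by exact_mod_cast (by omega : 2 ≤ m)
  have hm0 : (0 : ℝ) < m := by linarith
  have hZ0 := pos_Z hZ
  have h2 : (m : ℝ) ^ A ≤ Z * |θ| := by
    have h3 : (m : ℝ) ^ (A + 1) ≤ 2 * (Z * |θ|) := by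
      calc (m : ℝ) ^ (A + 1) ≤ |θ| * 2 ^ m := h1
        _ ≤ |θ| * (2 * Z) := mul_le_mul_of_nonneg_left hZ (abs_nonneg _)
        _ = _ := by ring
    have h4 : 2 * (m : ℝ) ^ A ≤ (m : ℝ) ^ (A + 1) := by
      rw [pow_succ', mul_comm (m : ℝ)]
      nlinarith [pow_pos hm0 A]
    linarith
  have h3 := char_fl μ hτ hμ Z θ hZ0 hθ ((one_le_pow₀ (by linarith)).trans h2)
  refine h3.trans ?_
  have hτ4 : 0 < τ / 4 := by positivity
  have h4 : (Z * |θ|) ^ (-(τ / 4)) ≤ ((m : ℝ) ^ (V + 1))⁻¹ := by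
    calc (Z * |θ|) ^ (-(τ / 4)) ≤ ((m : ℝ) ^ A) ^ (-(τ / 4)) :=
          Real.rpow_le_rpow_of_nonpos (by positivity) h2 (by linarith)
      _ = (m : ℝ) ^ (-((A : ℝ) * (τ / 4))) := by
          rw [← Real.rpow_natCast, ← Real.rpow_mul hm0.le]
          congr 1
          ring
      _ ≤ (m : ℝ) ^ (-((V + 1 : ℕ) : ℝ)) := by
          apply Real.rpow_le_rpow_of_exponent_le (by linarith)
          push_cast
          have h5 : (V + 1) * (4 / τ) * (τ / 4) = (V : ℝ) + 1 := by field_simp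
          have h6 : (V + 1) * (4 / τ) * (τ / 4) ≤ A * (τ / 4) := mul_le_mul_of_nonneg_right hA hτ4.le
          linarith
      _ = _ := by rw [Real.rpow_neg hm0.le, Real.rpow_natCast]
  have hK0 : (0 : ℝ) < K := by exact_mod_cast hK1
  have hKm : (K : ℝ) ≤ 2 * m := by exact_mod_cast hK2
  have hmm : (1088 * C₁ + 10) * 2 ^ V ≤ m := hm₀.trans (by exact_mod_cast (by omega : m₀ ≤ m))
  calc (1088 * C₁ + 10) * (Z * |θ|) ^ (-(τ / 4)) ≤ (1088 * C₁ + 10) * ((m : ℝ) ^ (V + 1))⁻¹ :=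
        mul_le_mul_of_nonneg_left h4 (by positivity)
    _ ≤ 1 / (2 * (m : ℝ)) ^ V := by
        rw [← div_eq_mul_inv, div_le_div_iff₀ (by positivity) (by positivity), mul_pow, pow_succ]
        calc (1088 * C₁ + 10) * (2 ^ V * (m : ℝ) ^ V) = ((1088 * C₁ + 10) * 2 ^ V) * (m : ℝ) ^ V := by ring
          _ ≤ m * (m : ℝ) ^ V := mul_le_mul_of_nonneg_right hmm (by positivity)
          _ = 1 * ((m : ℝ) ^ V * m) := by ring
    _ ≤ 1 / (K : ℝ) ^ V := by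
        apply one_div_le_one_div_of_le (by positivity)
        exact pow_le_pow_left₀ hK0.le hKm V

/-- room -/
lemma room2 (t : ℕ) : ∃ K₂ : ℕ, ∀ K : ℕ, K₂ ≤ K → t * (Nat.log 2 K + 1) * 2 ≤ K := by
  have h1 := (Real.isLittleO_log_id_atTop.bound (show (0 : ℝ) < 1 / (8 * (t + 1)) by positivity))
  have h2 := (tendsto_natCast_atTop_atTop (R := ℝ)).eventually (h1.and (eventually_ge_atTop (8 * (t + 1) : ℝ)))
  obtain ⟨K₂, hK₂⟩ := eventually_atTop.mp h2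
  refine ⟨K₂ + 1, fun K hK => ?_⟩
  obtain ⟨h3, h4⟩ := hK₂ K (by omega)
  have hK1 : (1 : ℝ) ≤ K := by exact_mod_cast (by omega : 1 ≤ K)
  rw [Real.norm_of_nonneg (Real.log_nonneg hK1), id, Real.norm_of_nonneg (by linarith)] at h3
  have h5 : (Nat.log 2 K : ℝ) ≤ 2 * Real.log K := by
    have h6 := Real.natLog_le_logb K 2
    rw [Real.logb] at h6
    have h7 : Real.log K / Real.log 2 ≤ 2 * Real.log K := by
      rw [div_le_iff₀ (Real.log_pos (by norm_num))]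
      nlinarith [Real.log_two_gt_d9, Real.log_nonneg hK1]
    exact_mod_cast h6.trans h7
  have hτ : (0 : ℝ) ≤ t := Nat.cast_nonneg _
  have h8 : (t : ℝ) * (2 * Real.log K) ≤ K / 4 := by
    calc (t : ℝ) * (2 * Real.log K) ≤ (t + 1) * (2 * (1 / (8 * (t + 1)) * K)) := by
          apply mul_le_mul (by linarith) _ (by have := Real.log_nonneg hK1; positivity) (by positivity)
          linarith
      _ = K / 4 := by field_simp; norm_num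
  have h9 : (t : ℝ) * (Nat.log 2 K + 1) * 2 ≤ K := by
    have h10 : (t : ℝ) * (Nat.log 2 K) ≤ K / 4 := (mul_le_mul_of_nonneg_left h5 hτ).trans h8
    nlinarith
  exact_mod_cast h9

/-- the law, with room which is logarithmic in the number of digits -/
theorem FC_law' {τ : ℝ} (hτ : 0 < τ) (C₁ : ℝ) (κ : ℤ) (t V : ℕ) : ∃ D K₀ : ℕ, ∀ K : ℕ, K₀ ≤ K →
    ∀ m e, K = m + e → e ≤ t * (Nat.log 2 K + 1) → ∀ p, FC τ C₁ m p → ∀ cc : ℤ,
    Law 2 κ.natAbs D V K (range (2 ^ m)) p (fun v => cc + κ * (v : ℕ)) := by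
  obtain ⟨A, m₀, hm₀2, hA⟩ := char_poly τ C₁ hτ V
  obtain ⟨K₂, hK₂⟩ := room2 t
  refine ⟨t + A + 2, 2 * m₀ + K₂ + 2, fun K hK m e' hKm he p hp cc => ?_⟩
  refine ⟨fun v _ => FC_nonneg hp v, (FC_sum hp).le, fun u hu => ?_⟩
  obtain ⟨μ, _, Z, hμ, hs, h1, h2, hpv⟩ := hp
  have h3 := hK₂ K (by omega)
  have hm2 : K ≤ 2 * m := by omega
  obtain ⟨l, hl⟩ : ∃ l, l = Nat.log 2 K + 1 := ⟨_, rfl⟩
  rw [← hl] at hu he
  have hl1 : 1 ≤ l := by omega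
  have hKl : (K : ℝ) ≤ 2 ^ l := by
    have : K < 2 ^ l := by rw [hl]; exact Nat.lt_pow_succ_log_self (by norm_num) K
    exact_mod_cast this.le
  have hi : 1 ≤ (t + A + 2) * l := Nat.mul_pos (by omega) hl1
  have hdist := ne_dist κ ((t + A + 2) * l) K u hi hu
  obtain ⟨θ0, hθ0⟩ : ∃ θ0, θ0 = (u : ℝ) / ((2 ^ (K + 1) : ℕ) : ℝ) := ⟨_, rfl⟩
  rw [← hθ0] at hdist ⊢
  obtain ⟨q0, hq0⟩ : ∃ q0 : ℤ, q0 = round ((κ : ℝ) * θ0) := ⟨_, rfl⟩
  rw [FC_char hs h1 h2 hpv κ cc q0 θ0 _ (fun v => rfl)]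
  have hm1 : (1 : ℝ) ≤ m := by exact_mod_cast (by omega : 1 ≤ m)
  have hmK : (m : ℝ) ≤ K := by exact_mod_cast (by omega : m ≤ K)
  refine hA m (by omega) μ hμ Z _ h1 (by rw [hq0]; exact abs_sub_round _) ?_ K (by omega) hm2
  have h4 := hdist q0
  have h5 : (2 : ℝ) ^ ((t + A + 2) * l - 1) / 2 ^ (K + 1) * 2 ^ m ≤ |(κ : ℝ) * θ0 - q0| * 2 ^ m :=
    mul_le_mul_of_nonneg_right h4 (by positivity)
  refine le_trans ?_ h5
  have h6 : (2 : ℝ) ^ ((t + A + 2) * l - 1) / 2 ^ (K + 1) * 2 ^ m = (2 ^ l) ^ (t + A + 2) / (4 * 2 ^ e') := by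
    have h6 : (2 : ℝ) ^ ((t + A + 2) * l) = 2 ^ ((t + A + 2) * l - 1) * 2 := by
      rw [← pow_succ]
      congr 1
      omega
    rw [← pow_mul, mul_comm l, h6, hKm, pow_succ, pow_add]
    field_simp
    norm_num
  rw [h6, le_div_iff₀ (by positivity)]
  have h7 : (2 : ℝ) ^ e' ≤ (2 ^ l) ^ t := by
    rw [← pow_mul]
    apply pow_le_pow_right₀ (by norm_num)
    rw [mul_comm]
    exact he
  have h8 : (4 : ℝ) ≤ (2 ^ l) ^ 2 := by
    have h9 : (2 : ℝ) ≤ 2 ^ l := le_self_pow₀ (by norm_num) (by omega)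
    nlinarith
  calc (m : ℝ) ^ A * (4 * 2 ^ e') ≤ (2 ^ l) ^ A * ((2 ^ l) ^ 2 * (2 ^ l) ^ t) := by
        apply mul_le_mul _ _ (by positivity) (by positivity)
        · exact pow_le_pow_left₀ (by positivity) (hmK.trans hKl) A
        · exact mul_le_mul h8 h7 (by positivity) (by positivity)
    _ = (2 ^ l) ^ (t + A + 2) := by rw [← pow_add, ← pow_add]; congr 1; ring

/-- the measure of short intervals -/
lemma short_meas (μ : Measure ℝ) [IsProbabilityMeasure μ] {τ C₁ : ℝ} (hτ : 0 < τ) (hμ : FDec μ τ C₁) (x₀ lam : ℝ) (Q : ℕ)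
    (hQ : 1 ≤ Q) (h : 8 * ((Q : ℝ) ^ 2 * lam) < 1) :
    μ.real {x | |x - x₀| ≤ lam} ≤ 4 * (1 / Q) + 4 * (C₁ * (Q : ℝ) ^ (-τ)) := by
  have hC := hμ.nonneg
  have hQ1 : (1 : ℝ) ≤ Q := by exact_mod_cast hQ
  have hQ0 : (0 : ℝ) < Q := by linarith
  have h1 := near_meas μ (fun x => Q * (x - x₀)) ((measurable_id.sub_const x₀).const_mul _) Q hQ (C₁ * (Q : ℝ) ^ (-τ))
    (by positivity) (fun m hm _ => ?_) (1 / (8 * Q)) (by
      apply le_of_eq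
      field_simp)
  · refine le_trans (measureReal_mono fun x hx => ?_) h1
    simp only [Set.mem_ofPred_eq] at hx ⊢
    have h2 : |Q * (x - x₀)| < 1 / (8 * Q) := by
      rw [abs_mul, abs_of_pos hQ0, lt_div_iff₀ (by positivity)]
      calc (Q : ℝ) * |x - x₀| * (8 * Q) = 8 * ((Q : ℝ) ^ 2 * |x - x₀|) := by ring
        _ ≤ 8 * ((Q : ℝ) ^ 2 * lam) := by gcongr
        _ < 1 := h
    have h3 : 1 / (8 * (Q : ℝ)) ≤ 1 / 8 := by
      apply one_div_le_one_div_of_le (by norm_num)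
      linarith
    obtain ⟨y, hy⟩ : ∃ y : ℝ, y = Q * (x - x₀) := ⟨_, rfl⟩
    rw [← hy] at h2 ⊢
    rcases le_or_gt 0 y with h4 | h4
    · left
      rw [abs_of_nonneg h4] at h2
      rw [Int.fract_eq_self.2 ⟨h4, by linarith⟩]
      exact h2
    · right
      rw [abs_of_neg h4] at h2
      have h5 : Int.fract y = y + 1 := by
        rw [← Int.fract_add_one, Int.fract_eq_self]
        constructor <;> linarith
      rw [h5]
      linarith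
  · have e1 : ∀ x : ℝ, e ((m : ℝ) * (Q * (x - x₀))) = e (-(m * Q * x₀)) * e ((m * Q) * x) := by
      intro x
      rw [← e_add]
      congr 1
      ring
    simp only [e1]
    rw [integral_const_mul, norm_mul, norm_e, one_mul]
    apply hμ.e_le hτ _ _ hQ1
    rw [abs_mul, abs_of_pos hQ0]
    have h3 : (1 : ℝ) ≤ |(m : ℝ)| := by
      have := Int.one_le_abs hm
      exact_mod_cast this
    exact le_mul_of_one_le_left hQ0.le h3

/-- the integer parts are not concentrated on short intervals -/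
theorem FC_anti {τ : ℝ} (hτ : 0 < τ) (C₁ : ℝ) (e₀ U' : ℕ) (κ : ℤ) (hκ : κ ≠ 0) : ∃ W K₀ : ℕ, ∀ K : ℕ, K₀ ≤ K →
    ∀ m, K = m + e₀ → ∀ p, FC τ C₁ m p → ∀ cc : ℤ, ∀ Sm : ℕ → Prop, ∀ [DecidablePred Sm],
    (∀ v < 2 ^ m, Sm v → 1 ≤ cc + κ * (v : ℕ) ∧
      ((cc + κ * (v : ℕ) : ℤ) : ℝ) < ((2 ^ K : ℕ) : ℝ) / Real.log ((2 ^ K : ℕ) : ℝ) ^ (W + 1)) →
    ∑ v ∈ range (2 ^ m), (if Sm v then p v else 0) ≤ 1 / (K : ℝ) ^ (U' + 1) := by
  obtain ⟨b₁, hb₁⟩ := exists_nat_ge ((U' + 2) / τ)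
  obtain ⟨b, hb⟩ : ∃ b, b = b₁ + U' + 2 := ⟨_, rfl⟩
  have hbτ : ((U' + 2 : ℕ) : ℝ) ≤ τ * b := by
    rw [div_le_iff₀ hτ] at hb₁
    have h1 : (b₁ : ℝ) ≤ b := by rw [hb]; push_cast; linarith [(Nat.cast_nonneg U' : (0 : ℝ) ≤ U')]
    push_cast
    nlinarith
  obtain ⟨W, hW⟩ : ∃ W, W = 2 * b + 1 := ⟨_, rfl⟩
  obtain ⟨K₁, hK₁⟩ := exists_nat_ge (4 + 4 * |C₁|)
  obtain ⟨K₂, hK₂⟩ : ∃ K₂ : ℕ, ∀ K : ℕ, K₂ ≤ K → (K : ℝ) ^ (W + 1) ≤ 2 ^ K := by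
    have h1 := (isLittleO_pow_const_const_pow_of_one_lt (R := ℝ) (W + 1) (by norm_num : (1 : ℝ) < 2)).bound
      (show (0 : ℝ) < 1 by norm_num)
    obtain ⟨K₂, h2⟩ := eventually_atTop.1 h1
    refine ⟨K₂, fun K hK => ?_⟩
    have h3 := h2 K hK
    rw [Real.norm_of_nonneg (by positivity), Real.norm_of_nonneg (by positivity), one_mul] at h3
    exact h3
  refine ⟨W, K₁ + K₂ + 2 ^ (e₀ + W + 7) + e₀ + 4, fun K hK m hKm p hp cc Sm _ hSm => ?_⟩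
  obtain ⟨μ, _, Z, hμ, hs, h1, h2, hpv⟩ := hp
  have hC := hμ.nonneg
  rw [abs_of_nonneg hC] at hK₁
  have hZ0 := pos_Z h1
  obtain ⟨w, hw⟩ : ∃ w : ℕ, w = 2 ^ (e₀ + W + 7) := ⟨_, rfl⟩
  rw [← hw] at hK
  have hK1 : (1 : ℝ) ≤ K := by exact_mod_cast (by omega : 1 ≤ K)
  have hK0 : (0 : ℝ) < K := by linarith
  have hsum : ∑ v ∈ range (2 ^ m), (if Sm v then p v else 0) = μ.real {x | Sm (nz Z x)} := by
    rw [← sum_nat μ (nz Z) (meas_nz Z) (2 ^ m) (nz_lt hZ0 h2) Sm]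
    exact sum_congr rfl fun v _ => by rw [hpv]
  rw [hsum]
  obtain ⟨ℓ, hℓ⟩ : ∃ ℓ : ℝ, ℓ = ((2 ^ K : ℕ) : ℝ) / Real.log ((2 ^ K : ℕ) : ℝ) ^ (W + 1) := ⟨_, rfl⟩
  rw [← hℓ] at hSm
  have hlogK : (K : ℝ) / 2 ≤ Real.log ((2 ^ K : ℕ) : ℝ) := by
    push_cast
    rw [Real.log_pow]
    nlinarith [Real.log_two_gt_d9]
  have hℓK : ℓ + 1 ≤ 2 ^ (W + 2) * 2 ^ K / (K : ℝ) ^ (W + 1) := by
    have h1 : ℓ ≤ 2 ^ (W + 1) * 2 ^ K / (K : ℝ) ^ (W + 1) := by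
      rw [hℓ]
      have h2 : ((K : ℝ) / 2) ^ (W + 1) ≤ Real.log ((2 ^ K : ℕ) : ℝ) ^ (W + 1) :=
        pow_le_pow_left₀ (by positivity) hlogK _
      refine (div_le_div_of_nonneg_left (by positivity) (by positivity) h2).trans (le_of_eq ?_)
      rw [div_pow]
      push_cast
      field_simp
    have h2 : (1 : ℝ) ≤ 2 ^ (W + 1) * 2 ^ K / (K : ℝ) ^ (W + 1) := by
      rw [le_div_iff₀ (by positivity), one_mul]
      have h4 : (1 : ℝ) ≤ 2 ^ (W + 1) := one_le_pow₀ (by norm_num)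
      have h5 : (0 : ℝ) < 2 ^ K := by positivity
      have h6 := hK₂ K (by omega)
      nlinarith
    have h3 : (2 : ℝ) ^ (W + 2) * 2 ^ K / (K : ℝ) ^ (W + 1) = 2 * (2 ^ (W + 1) * 2 ^ K / (K : ℝ) ^ (W + 1)) := by
      rw [pow_succ 2 (W + 1)]
      ring
    rw [h3]
    linarith
  obtain ⟨lam, hlam⟩ : ∃ lam : ℝ, lam = 2 ^ (e₀ + W + 3) / (K : ℝ) ^ (W + 1) := ⟨_, rfl⟩
  have hlamZ : (ℓ + 1) / Z ≤ lam := by
    rw [div_le_iff₀ hZ0]
    calc ℓ + 1 ≤ 2 ^ (W + 2) * 2 ^ K / (K : ℝ) ^ (W + 1) := hℓK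
      _ = lam * (2 ^ m / 2) := by
          rw [hlam, hKm, pow_add (2 : ℝ) m e₀, show e₀ + W + 3 = e₀ + (W + 2) + 1 by ring, pow_succ (2 : ℝ) (e₀ + (W + 2)),
            pow_add (2 : ℝ) e₀ (W + 2)]
          field_simp
      _ ≤ lam * Z := by
          apply mul_le_mul_of_nonneg_left _ (by rw [hlam]; positivity)
          linarith
  -- the set is contained in a short interval
  obtain ⟨S, hS⟩ : ∃ S : Set ℝ, S = {x | Sm (nz Z x)} ∩ {x | 0 ≤ x ∧ x < 1} := ⟨_, rfl⟩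
  have hSle : μ.real {x | Sm (nz Z x)} ≤ μ.real S := by
    apply le_of_eq
    apply measureReal_congr
    filter_upwards [hs] with x hx
    have : (x ∈ {x | Sm (nz Z x)}) = (x ∈ S) := by
      rw [hS]
      simp only [Set.mem_inter_iff, Set.mem_ofPred_eq, hx, and_true, and_self]
    exact this
  refine hSle.trans ?_
  rcases S.eq_empty_or_nonempty with hS0 | ⟨x₁, hx₁⟩
  · rw [hS0, measureReal_empty]
    positivity
  have hmem : ∀ x ∈ S, ((⌊Z * x⌋ : ℤ) : ℝ) = ((nz Z x : ℕ) : ℝ) ∧ (1 : ℝ) ≤ cc + κ * ((nz Z x : ℕ) : ℝ) ∧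
      cc + κ * ((nz Z x : ℕ) : ℝ) < ℓ := by
    intro x hx
    rw [hS] at hx
    obtain ⟨g1, g2, g3⟩ := hx
    have g4 := hSm (nz Z x) (nz_lt hZ0 h2 x) g1
    have g5 := nz_eq hZ0 g2 g3
    refine ⟨by rw [← g5]; simp, by exact_mod_cast g4.1, ?_⟩
    have g6 := g4.2
    push_cast at g6
    exact g6
  have hsub : S ⊆ {x | |x - x₁| ≤ lam} := by
    intro x hx
    obtain ⟨q1, q2, q3⟩ := hmem x hx
    obtain ⟨r1, r2, r3⟩ := hmem x₁ hx₁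
    have hdiff : |(κ : ℝ)| * |((nz Z x : ℕ) : ℝ) - (nz Z x₁ : ℕ)| ≤ ℓ := by
      rw [← abs_mul, abs_le]
      constructor <;> nlinarith
    have hκ1 : (1 : ℝ) ≤ |(κ : ℝ)| := by
      have := Int.one_le_abs hκ
      exact_mod_cast this
    have hdiff2 : |((nz Z x : ℕ) : ℝ) - (nz Z x₁ : ℕ)| ≤ ℓ := by
      have h6 := abs_nonneg (((nz Z x : ℕ) : ℝ) - (nz Z x₁ : ℕ))
      nlinarith
    rw [← q1, ← r1] at hdiff2
    have f1 := Int.floor_le (Z * x)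
    have f2 := Int.lt_floor_add_one (Z * x)
    have f3 := Int.floor_le (Z * x₁)
    have f4 := Int.lt_floor_add_one (Z * x₁)
    have h7 : |Z * x - Z * x₁| ≤ ℓ + 1 := by
      rw [abs_le] at hdiff2 ⊢
      constructor <;> linarith [hdiff2.1, hdiff2.2]
    have h8 : |x - x₁| ≤ (ℓ + 1) / Z := by
      rw [le_div_iff₀ hZ0]
      have : Z * x - Z * x₁ = Z * (x - x₁) := by ring
      rw [this, abs_mul, abs_of_pos hZ0] at h7
      linarith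
    exact h8.trans hlamZ
  have hQ1 : 1 ≤ K ^ b := Nat.one_le_pow _ _ (by omega)
  have h9 := short_meas μ hτ hμ x₁ lam (K ^ b) hQ1 (by
    push_cast
    rw [hlam, hW]
    have e1 : 8 * (((K : ℝ) ^ b) ^ 2 * (2 ^ (e₀ + (2 * b + 1) + 3) / (K : ℝ) ^ (2 * b + 1 + 1))) =
        2 ^ (e₀ + (2 * b + 1) + 6) / (K : ℝ) ^ 2 := by
      have e0 : (2 : ℝ) ^ (e₀ + (2 * b + 1) + 6) = 2 ^ (e₀ + (2 * b + 1) + 3) * 8 := by
        rw [show e₀ + (2 * b + 1) + 6 = (e₀ + (2 * b + 1) + 3) + 3 by ring, pow_add (2 : ℝ) _ 3]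
        norm_num
      obtain ⟨y, hy⟩ : ∃ y : ℝ, y = 2 ^ (e₀ + (2 * b + 1) + 3) := ⟨_, rfl⟩
      rw [e0, ← hy, ← pow_mul, show 2 * b + 1 + 1 = b * 2 + 2 by ring, pow_add (K : ℝ) (b * 2) 2]
      field_simp
    rw [e1, div_lt_one (by positivity)]
    have e2 : ((2 : ℝ) ^ (e₀ + (2 * b + 1) + 6)) < K := by
      have e3 : 2 ^ (e₀ + W + 7) ≤ K := by rw [← hw]; omega
      have e4 : 2 ^ (e₀ + (2 * b + 1) + 6) < 2 ^ (e₀ + W + 7) := Nat.pow_lt_pow_right (by norm_num) (by omega)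
      exact_mod_cast (lt_of_lt_of_le e4 e3)
    nlinarith)
  refine (measureReal_mono hsub).trans (h9.trans ?_)
  have hτb : (((K ^ b : ℕ) : ℝ)) ^ (-τ) ≤ 1 / (K : ℝ) ^ (U' + 2) := by
    push_cast
    rw [← Real.rpow_natCast, ← Real.rpow_mul hK0.le, one_div, ← Real.rpow_natCast, ← Real.rpow_neg hK0.le]
    apply Real.rpow_le_rpow_of_exponent_le hK1
    linarith
  have hb2 : 1 / ((K ^ b : ℕ) : ℝ) ≤ 1 / (K : ℝ) ^ (U' + 2) := by
    push_cast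
    apply one_div_le_one_div_of_le (by positivity)
    exact pow_le_pow_right₀ hK1 (by omega)
  have hKK : 4 + 4 * C₁ ≤ K := hK₁.trans (by exact_mod_cast (by omega : K₁ ≤ K))
  calc 4 * (1 / ((K ^ b : ℕ) : ℝ)) + 4 * (C₁ * ((K ^ b : ℕ) : ℝ) ^ (-τ)) ≤
        4 * (1 / (K : ℝ) ^ (U' + 2)) + 4 * (C₁ * (1 / (K : ℝ) ^ (U' + 2))) := by gcongr
    _ = (4 + 4 * C₁) / (K : ℝ) ^ (U' + 2) := by ring
    _ ≤ K / (K : ℝ) ^ (U' + 2) := by gcongr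
    _ = 1 / (K : ℝ) ^ (U' + 1) := by
        rw [pow_succ _ (U' + 1)]
        field_simp

open Classical in
/-- The integer parts form a class. -/
theorem FC_clsV {τ : ℝ} (hτ : 0 < τ) (C₁ : ℝ) (κ : ℤ) (hκ : κ ≠ 0) : ClsV 2 κ (FC τ C₁) := by
  have hF : 1 ≤ κ.natAbs := Int.natAbs_pos.2 hκ
  refine ⟨⟨le_rfl, hκ, fun k p hp v => FC_nonneg hp v, fun k p hp => FC_sum hp, ⟨κ.natAbs, hF, ?_⟩, ?_⟩,
    ⟨κ.natAbs, hF, fun t V => FC_law' hτ C₁ κ t V⟩⟩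
  · intro e' V
    obtain ⟨D, K₀, hD⟩ := FC_law' hτ C₁ κ e' V
    refine ⟨D, K₀, fun K hK m hm p hp cc => ?_⟩
    refine hD K hK m e' hm ?_ p hp cc
    exact Nat.le_mul_of_pos_right e' (by omega)
  · intro e' U'
    exact FC_anti hτ C₁ e' U' κ hκ

end Pool.Agent.W2helper67.FD
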