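import Pool.Agent.W2helper67.FD.Pass
import Pool.Agent.R459.Eq7

set_option autoImplicit false

/-!
The data of Artin type for almost all the integers `c₀ + κ ⌊Z x⌋`.
-/

namespace Pool.Agent.W2helper67.FD

open Finset MeasureTheory Filter Topology
open Pool.Agent.R459.Eq (Decays)
open Pool.Agent.R459.EqD (cntZ dat_all)
open Pool.Agent.H771R4.SE (Dat)

/-- data of Artin type -/
theorem fd_dat {τ : ℝ} (hτ : 0 < τ) : ∃ W : ℕ, 1 ≤ W ∧
    ∀ (κ : ℤ), κ ≠ 0 → ∀ (C₁ : ℝ) (d : Dat) (ε : ℝ), 0 < ε → ∃ (C : ℝ) (X₀ : ℕ), 0 < C ∧ 1 ≤ X₀ ∧ ∀ X : ℕ, X₀ ≤ X →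
      ∀ (μ : Measure ℝ) [IsProbabilityMeasure μ], FDec μ τ C₁ → ∀ (Z : ℝ) (c₀ : ℤ),
      μ.real {t | ¬ ∀ x : ℕ, X ≤ x → (x : ℝ) ^ W ≤ Z →
        |(cntZ d (c₀ + κ * ⌊Z * t⌋) x : ℝ) - d.A * (Nat.primeCounting x : ℝ)| ≤ ε * (Nat.primeCounting x : ℝ)} ≤
        C * (Real.log X / X) := by
  classical
  obtain ⟨W, hW, HK⟩ := dat_all 2 le_rfl 5 (1 / 2) (by norm_num) (by norm_num)
  obtain ⟨W₁, hW₁, HP⟩ := fd_pass hτ
  refine ⟨W₁ * (W + 1), Nat.mul_pos (by omega) (by omega), fun κ hκ C₁ d ε hε => ?_⟩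
  obtain ⟨C, X₀, hC, hX₀, J⟩ := HK 1 κ le_rfl hκ d ε hε
  obtain ⟨X₁, hX₁, HQ⟩ := HP C₁
  refine ⟨C, X₁ + X₀, hC, by omega, fun X hX μ _ hμ Z c₀ => ?_⟩
  refine HQ W X (by omega) μ hμ Z κ c₀ (fun x n => |(cntZ d n x : ℝ) - d.A * (Nat.primeCounting x : ℝ)| ≤
    ε * (Nat.primeCounting x : ℝ)) _ ?_ fun k ι Ω w v hdec E hE hbad => ?_
  · apply mul_nonneg hC.le
    apply div_nonneg (Real.log_nonneg _) (Nat.cast_nonneg _)
    exact_mod_cast (by omega : 1 ≤ X)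
  refine J k X (by omega) ι Ω w v hdec E hE fun i hi => ?_
  have h1 := hbad i hi
  push Not at h1
  exact h1

/-- from small exceptional sets to almost all points -/
theorem borel (μ : Measure ℝ) [IsProbabilityMeasure μ] (s : ℕ → Set ℝ) (C : ℝ) (hC : 0 ≤ C) (X₀ : ℕ) (X : ℕ → ℕ)
    (hX : Tendsto X atTop atTop) (hsum : Summable (fun j => Real.log (X j) / X j))
    (hs : ∀ j, X₀ ≤ X j → μ.real (s j) ≤ C * (Real.log (X j) / X j)) :
    ∀ᵐ t ∂μ, ∀ᶠ j in atTop, t ∉ s j := by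
  apply ae_eventually_notMem
  obtain ⟨J, hJ⟩ := eventually_atTop.1 (hX.eventually_ge_atTop X₀)
  have h0 : ∀ j, 0 ≤ C * (Real.log (X j) / X j) := fun j => by
    have := Real.log_natCast_nonneg (X j)
    positivity
  have hb : ∀ j, μ (s j) ≤ ENNReal.ofReal (C * (Real.log (X j) / X j) + if j < J then 1 else 0) := by
    intro j
    by_cases hj : j < J
    · rw [if_pos hj]
      calc μ (s j) ≤ 1 := prob_le_one
        _ = ENNReal.ofReal 1 := by simp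
        _ ≤ _ := ENNReal.ofReal_le_ofReal (by linarith [h0 j])
    · rw [if_neg hj, add_zero]
      have h1 := hs j (hJ j (by omega))
      rw [← ENNReal.ofReal_toReal (measure_ne_top μ (s j))]
      exact ENNReal.ofReal_le_ofReal h1
  have hsum2 : Summable (fun j => C * (Real.log (X j) / X j) + if j < J then (1 : ℝ) else 0) := by
    refine (hsum.mul_left C).add ?_
    apply summable_of_ne_finset_zero (s := Finset.range J)
    intro j hj
    rw [Finset.mem_range] at hj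
    rw [if_neg hj]
  have h2 : ∑' j, μ (s j) ≤ ∑' j, ENNReal.ofReal (C * (Real.log (X j) / X j) + if j < J then 1 else 0) :=
    ENNReal.tsum_le_tsum hb
  have h3 : ∑' j, ENNReal.ofReal (C * (Real.log (X j) / X j) + if j < J then 1 else 0) ≠ ⊤ :=
    hsum2.tsum_ofReal_ne_top
  exact ne_top_of_le_ne_top h3 h2

end Pool.Agent.W2helper67.FD
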