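import Pool.Agent.W2helper67.FD.Fl
import Pool.Agent.R459.Eq3

set_option autoImplicit false

/-!
Measures with polynomial decay of the characteristic function: the distributions of the integer parts `⌊Z x⌋`.
-/

namespace Pool.Agent.W2helper67.FD

open Finset MeasureTheory Filter Topology
open Pool.Agent.H469R2.NK (e norm_e e_add conj_e e_zero)
open Pool.Agent.N193.PS (e_int')
open Pool.Agent.H807R2.Dav (ee norm_ee ee_add)
open Pool.Agent.TH872.Mir (Far farCount)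
open Pool.Agent.R459.Eq (Decays)

/-- polynomial decay of the characteristic function -/
def FDec (μ : Measure ℝ) (τ C₀ : ℝ) : Prop := ∀ ξ : ℝ, 1 ≤ |ξ| → ‖charFun μ ξ‖ ≤ C₀ * |ξ| ^ (-τ)

lemma FDec.nonneg {μ : Measure ℝ} {τ C₀ : ℝ} (h : FDec μ τ C₀) : 0 ≤ C₀ := by
  have h1 := h 1 (by simp)
  rw [abs_one, Real.one_rpow, mul_one] at h1
  exact (norm_nonneg _).trans h1

lemma int_eq (μ : Measure ℝ) (t : ℝ) : ∫ x, e (t * x) ∂μ = charFun μ (2 * Real.pi * t) := by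
  rw [charFun_apply_real]
  refine integral_congr_ae (ae_of_all _ fun x => ?_)
  simp only
  unfold Pool.Agent.H469R2.NK.e
  congr 1
  push_cast
  ring

lemma FDec.e_le {μ : Measure ℝ} {τ C₀ : ℝ} (h : FDec μ τ C₀) (hτ : 0 < τ) (t a : ℝ) (ha : 1 ≤ a) (hat : a ≤ |t|) :
    ‖∫ x, e (t * x) ∂μ‖ ≤ C₀ * a ^ (-τ) := by
  have hC := h.nonneg
  have hpi : (1 : ℝ) ≤ 2 * Real.pi := by linarith [Real.pi_gt_three]
  have h1 : a ≤ |2 * Real.pi * t| := by
    rw [abs_mul, abs_of_pos (by positivity : (0 : ℝ) < 2 * Real.pi)]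
    calc a ≤ |t| := hat
      _ ≤ 2 * Real.pi * |t| := le_mul_of_one_le_left (abs_nonneg _) hpi
  rw [int_eq]
  refine (h _ (ha.trans h1)).trans ?_
  apply mul_le_mul_of_nonneg_left _ hC
  exact Real.rpow_le_rpow_of_nonpos (by linarith) h1 (by linarith)

/-- the characteristic function of `⌊Z x⌋` -/
theorem char_fl (μ : Measure ℝ) [IsProbabilityMeasure μ] {τ C₀ : ℝ} (hτ : 0 < τ) (h : FDec μ τ C₀) (Z θ : ℝ)
    (hZ : 0 < Z) (hθ : |θ| ≤ 1 / 2) (hd : 1 ≤ Z * |θ|) :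
    ‖∫ x, e (θ * ⌊Z * x⌋) ∂μ‖ ≤ (1088 * C₀ + 10) * (Z * |θ|) ^ (-(τ / 4)) := by
  have hC := h.nonneg
  obtain ⟨y, hy⟩ : ∃ y : ℝ, y = Z * |θ| := ⟨_, rfl⟩
  rw [← hy] at hd ⊢
  have hy0 : 0 < y := by linarith
  obtain ⟨q, hq⟩ : ∃ q : ℝ, q = y ^ (τ / 4) := ⟨_, rfl⟩
  have hq1 : 1 ≤ q := by
    rw [hq]
    exact Real.one_le_rpow hd (by positivity)
  have hq0 : 0 < q := by linarith
  obtain ⟨Q, hQ⟩ : ∃ Q : ℕ, Q = ⌈q⌉₊ := ⟨_, rfl⟩
  have hQ1 : q ≤ Q := by rw [hQ]; exact Nat.le_ceil _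
  have hQ2 : (Q : ℝ) ≤ 2 * q := by
    have : (Q : ℝ) < q + 1 := by rw [hQ]; exact Nat.ceil_lt_add_one hq0.le
    linarith
  have hQ0 : (0 : ℝ) < Q := by linarith
  have hQ3 : 1 ≤ Q := by exact_mod_cast hQ0
  have hE : y ^ (-τ) = (q ^ 4)⁻¹ := by
    rw [hq, ← Real.rpow_natCast, ← Real.rpow_mul hy0.le, ← Real.rpow_neg hy0.le]
    congr 1
    push_cast
    ring
  have hE2 : y ^ (-(τ / 4)) = q⁻¹ := by
    rw [hq, ← Real.rpow_neg hy0.le]
  have hmain := floor_int μ (fun x => Z * x) (measurable_id.const_mul Z) Q hQ3 θ (by linarith) (C₀ * y ^ (-τ))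
    (by positivity) (fun m _ => ?_) (fun m hm _ => ?_)
  · refine hmain.trans ?_
    rw [hE, hE2]
    have h1 : 1 ≤ (Q : ℝ) ^ 3 := one_le_pow₀ (by exact_mod_cast hQ3)
    have h2 : (Q : ℝ) ^ 3 ≤ 8 * q ^ 3 := by
      calc (Q : ℝ) ^ 3 ≤ (2 * q) ^ 3 := by gcongr
        _ = 8 * q ^ 3 := by ring
    have h3 : (128 * (Q : ℝ) ^ 3 + 8) * (C₀ * (q ^ 4)⁻¹) ≤ 1088 * C₀ * q⁻¹ := by
      calc (128 * (Q : ℝ) ^ 3 + 8) * (C₀ * (q ^ 4)⁻¹) ≤ (1088 * q ^ 3) * (C₀ * (q ^ 4)⁻¹) := by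
            apply mul_le_mul_of_nonneg_right _ (by positivity)
            linarith
        _ = 1088 * C₀ * q⁻¹ := by
            field_simp
    have h4 : 10 * (1 / (Q : ℝ)) ≤ 10 * q⁻¹ := by
      rw [one_div]
      have := inv_anti₀ hq0 hQ1
      linarith
    calc _ ≤ 1088 * C₀ * q⁻¹ + 10 * q⁻¹ := add_le_add h3 h4
      _ = _ := by ring
  · have e1 : ∀ x : ℝ, (θ + m) * (Z * x) = ((θ + m) * Z) * x := fun x => by ring
    simp only [e1]
    apply h.e_le hτ _ _ hd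
    rw [abs_mul, abs_of_pos hZ, hy, mul_comm Z]
    apply mul_le_mul_of_nonneg_right _ hZ.le
    by_cases hm0 : m = 0
    · rw [hm0, Int.cast_zero, add_zero]
    · have h1 : (1 : ℝ) ≤ |(m : ℝ)| := by
        have := Int.one_le_abs hm0
        exact_mod_cast this
      have h2 : |(m : ℝ)| ≤ |θ + m| + |θ| := by
        have h3 : (m : ℝ) = (θ + m) + (-θ) := by ring
        calc |(m : ℝ)| = |(θ + m) + (-θ)| := by rw [← h3]
          _ ≤ |θ + m| + |-θ| := abs_add_le _ _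
          _ = _ := by rw [abs_neg]
      linarith
  · have e1 : ∀ x : ℝ, (m : ℝ) * (Z * x) = ((m : ℝ) * Z) * x := fun x => by ring
    simp only [e1]
    apply h.e_le hτ _ _ hd
    rw [abs_mul, abs_of_pos hZ, hy, mul_comm Z]
    apply mul_le_mul_of_nonneg_right _ hZ.le
    have h1 : (1 : ℝ) ≤ |(m : ℝ)| := by
      have := Int.one_le_abs hm
      exact_mod_cast this
    linarith

/-- the integral of a function of a random integer of a finite set -/
lemma int_fin {Ω : Type*} [MeasurableSpace Ω] (μ : Measure Ω) [IsProbabilityMeasure μ] (N : Ω → ℤ) (hN : Measurable N)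
    (S : Finset ℤ) (hS : ∀ x, N x ∈ S) (g : ℤ → ℂ) :
    ∫ x, g (N x) ∂μ = ∑ v ∈ S, ((μ.real {x | N x = v} : ℝ) : ℂ) * g v := by
  classical
  have hm : ∀ v : ℤ, MeasurableSet {x | N x = v} := fun v => hN (measurableSet_singleton v)
  have h1 : ∀ x, g (N x) = ∑ v ∈ S, {x | N x = v}.indicator (fun _ => g v) x := by
    intro x
    rw [Finset.sum_eq_single (N x)]
    · rw [Set.indicator_of_mem (by rfl)]
    · intro v _ hv
      rw [Set.indicator_of_notMem]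
      intro h
      exact hv h.symm
    · intro h
      exact absurd (hS x) h
  simp only [h1]
  rw [integral_finsetSum _ fun v _ => (integrable_const _).indicator (hm v)]
  refine sum_congr rfl fun v _ => ?_
  rw [integral_indicator (hm v), setIntegral_const, Complex.real_smul]

lemma sum_fin {Ω : Type*} [MeasurableSpace Ω] (μ : Measure Ω) [IsProbabilityMeasure μ] (N : Ω → ℤ) (hN : Measurable N)
    (S : Finset ℤ) (hS : ∀ x, N x ∈ S) : ∑ v ∈ S, μ.real {x | N x = v} = 1 := by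
  have h1 := int_fin μ N hN S hS (fun _ => 1)
  rw [integral_const, probReal_univ, one_smul] at h1
  simp only [mul_one] at h1
  rw [← Complex.ofReal_sum] at h1
  exact_mod_cast h1.symm

/-- the integer part `⌊Z x⌋`, replaced by `0` if its absolute value exceeds `R` -/
noncomputable def cut (Z : ℝ) (R : ℕ) (x : ℝ) : ℤ := if |⌊Z * x⌋| ≤ (R : ℤ) then ⌊Z * x⌋ else 0

lemma meas_fl (Z : ℝ) : Measurable (fun x : ℝ => ⌊Z * x⌋) := Int.measurable_floor.comp (measurable_id.const_mul Z)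

lemma meas_cut (Z : ℝ) (R : ℕ) : Measurable (cut Z R) := by
  unfold cut
  refine Measurable.ite ?_ (meas_fl Z) measurable_const
  exact (meas_fl Z) (MeasurableSet.of_discrete (s := {n : ℤ | |n| ≤ (R : ℤ)}))

lemma cut_mem (Z : ℝ) (R : ℕ) (x : ℝ) : cut Z R x ∈ Icc (-(R : ℤ)) R := by
  unfold cut
  rw [mem_Icc]
  split_ifs with h
  · exact abs_le.1 h
  · constructor <;> omega

/-- the remaining mass is small -/
lemma cut_ne (μ : Measure ℝ) [IsProbabilityMeasure μ] (Z : ℝ) (η : ℝ) (hη : 0 < η) :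
    ∃ R : ℕ, μ.real {x | cut Z R x ≠ ⌊Z * x⌋} ≤ η := by
  have hanti : Antitone (fun R : ℕ => {x : ℝ | (R : ℤ) < |⌊Z * x⌋|}) := by
    intro R R' h x hx
    simp only [Set.mem_ofPred_eq] at hx ⊢
    have : (R : ℤ) ≤ R' := by exact_mod_cast h
    omega
  have hmeas : ∀ R : ℕ, MeasurableSet {x : ℝ | (R : ℤ) < |⌊Z * x⌋|} := fun R =>
    (meas_fl Z) (MeasurableSet.of_discrete (s := {n : ℤ | (R : ℤ) < |n|}))
  have h1 := tendsto_measure_iInter_atTop (μ := μ) (fun R => (hmeas R).nullMeasurableSet) hanti ⟨0, measure_ne_top _ _⟩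
  have h2 : ⋂ R : ℕ, {x : ℝ | (R : ℤ) < |⌊Z * x⌋|} = ∅ := by
    ext x
    simp only [Set.mem_iInter, Set.mem_ofPred_eq, Set.mem_empty_iff_false, iff_false, not_forall, not_lt]
    refine ⟨(|⌊Z * x⌋|).toNat, ?_⟩
    rw [Int.toNat_of_nonneg (abs_nonneg _)]
  rw [h2, measure_empty] at h1
  have h3 : ∀ᶠ R : ℕ in atTop, μ {x : ℝ | (R : ℤ) < |⌊Z * x⌋|} < ENNReal.ofReal η :=
    h1.eventually (gt_mem_nhds (ENNReal.ofReal_pos.2 hη))
  obtain ⟨R, hR⟩ := h3.exists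
  refine ⟨R, ?_⟩
  have h4 : {x | cut Z R x ≠ ⌊Z * x⌋} ⊆ {x : ℝ | (R : ℤ) < |⌊Z * x⌋|} := by
    intro x hx
    simp only [Set.mem_ofPred_eq] at hx ⊢
    by_contra hcon
    apply hx
    unfold cut
    rw [if_pos (not_lt.1 hcon)]
  calc μ.real {x | cut Z R x ≠ ⌊Z * x⌋} ≤ μ.real {x : ℝ | (R : ℤ) < |⌊Z * x⌋|} := measureReal_mono h4
    _ ≤ η := by
        unfold Measure.real
        exact ENNReal.toReal_le_of_le_ofReal hη.le hR.le

lemma cut_int (μ : Measure ℝ) [IsProbabilityMeasure μ] (Z : ℝ) (R : ℕ) (g : ℤ → ℂ) (hg : ∀ v, ‖g v‖ ≤ 1) :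
    ‖∑ v ∈ Icc (-(R : ℤ)) R, ((μ.real {x | cut Z R x = v} : ℝ) : ℂ) * g v‖ ≤
      ‖∫ x, g ⌊Z * x⌋ ∂μ‖ + 2 * μ.real {x | cut Z R x ≠ ⌊Z * x⌋} := by
  rw [← int_fin μ (cut Z R) (meas_cut Z R) _ (cut_mem Z R) g]
  have hgm : Measurable g := measurable_of_countable g
  have hi1 : Integrable (fun x => g (cut Z R x)) μ := int_bd μ (hgm.comp (meas_cut Z R)) 1 fun x => hg _
  have hi2 : Integrable (fun x => g ⌊Z * x⌋) μ := int_bd μ (hgm.comp (meas_fl Z)) 1 fun x => hg _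
  have hm : MeasurableSet {x | cut Z R x ≠ ⌊Z * x⌋} := (measurableSet_eq_fun (meas_cut Z R) (meas_fl Z)).compl
  have h1 : ∫ x, g (cut Z R x) ∂μ = ∫ x, g ⌊Z * x⌋ ∂μ + ∫ x, (g (cut Z R x) - g ⌊Z * x⌋) ∂μ := by
    rw [integral_sub hi1 hi2]
    ring
  rw [h1]
  refine (norm_add_le _ _).trans (add_le_add le_rfl ?_)
  refine (norm_integral_le_integral_norm _).trans ?_
  calc ∫ x, ‖g (cut Z R x) - g ⌊Z * x⌋‖ ∂μ ≤ ∫ x, {x | cut Z R x ≠ ⌊Z * x⌋}.indicator (fun _ => (2 : ℝ)) x ∂μ := by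
        refine integral_mono (hi1.sub hi2).norm ((integrable_const _).indicator hm) fun x => ?_
        simp only
        by_cases hx : cut Z R x = ⌊Z * x⌋
        · rw [Set.indicator_of_notMem (by simpa using hx), hx, sub_self, norm_zero]
        · rw [Set.indicator_of_mem (by simpa using hx)]
          refine (norm_sub_le _ _).trans ?_
          linarith [hg (cut Z R x), hg ⌊Z * x⌋]
    _ = 2 * μ.real {x | cut Z R x ≠ ⌊Z * x⌋} := by
        rw [integral_indicator hm, setIntegral_const, smul_eq_mul]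
        ring

end Pool.Agent.W2helper67.FD
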