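import Pool.Agent.N193.PS.Frac

set_option autoImplicit false

/-!
Characteristic functions of integer parts: the passage from `f x` to `⌊f x⌋` for integrals, by a discrete Fejer kernel.
-/

namespace Pool.Agent.W2helper67.FD

open Finset MeasureTheory
open Pool.Agent.H469R2.NK (e norm_e e_add conj_e e_zero)
open Pool.Agent.N193.PS (DK DK_sq DK_ge fejer_avg approx)

variable {Ω : Type*} [MeasurableSpace Ω]

lemma cont_e' : Continuous e := by
  unfold Pool.Agent.H469R2.NK.e
  fun_prop

lemma meas_e : Measurable e := cont_e'.measurable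

lemma int_e (μ : Measure Ω) [IsFiniteMeasure μ] {g : Ω → ℝ} (hg : Measurable g) : Integrable (fun x => e (g x)) μ := by
  refine (integrable_const (1 : ℝ)).mono' (meas_e.comp hg).aestronglyMeasurable ?_
  exact ae_of_all _ fun x => (norm_e _).le

lemma int_bd (μ : Measure Ω) [IsFiniteMeasure μ] {g : Ω → ℂ} (hg : Measurable g) (B : ℝ) (hB : ∀ x, ‖g x‖ ≤ B) :
    Integrable g μ :=
  (integrable_const B).mono' hg.aestronglyMeasurable (ae_of_all _ hB)

lemma meas_DK (Q : ℕ) : Measurable (DK Q) := by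
  unfold Pool.Agent.N193.PS.DK
  refine Finset.measurable_sum _ fun j _ => meas_e.comp ?_
  fun_prop

lemma DK_norm_le (Q : ℕ) (v : ℝ) : ‖DK Q v‖ ≤ Q := by
  unfold Pool.Agent.N193.PS.DK
  refine (norm_sum_le _ _).trans ?_
  simp [norm_e]

/-- the measure of the points near integers -/
lemma near_meas (μ : Measure Ω) [IsProbabilityMeasure μ] (f : Ω → ℝ) (hf : Measurable f) (Q : ℕ) (hQ : 1 ≤ Q) (E : ℝ)
    (hE0 : 0 ≤ E) (hE : ∀ m : ℤ, m ≠ 0 → |m| < Q → ‖∫ x, e (m * f x) ∂μ‖ ≤ E) (r : ℝ) (hr : 8 * (Q * r) ≤ 1) :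
    μ.real {x | Int.fract (f x) < r ∨ 1 - r < Int.fract (f x)} ≤ 4 * (1 / Q) + 4 * E := by
  classical
  have hQ0 : (0 : ℝ) < Q := by exact_mod_cast hQ
  obtain ⟨Z, hZ⟩ : ∃ Z : Set Ω, Z = {x | Int.fract (f x) < r ∨ 1 - r < Int.fract (f x)} := ⟨_, rfl⟩
  rw [← hZ]
  have hfr : Measurable (fun x => Int.fract (f x)) := measurable_fract.comp hf
  have hZm : MeasurableSet Z := by
    rw [hZ]
    exact (measurableSet_lt hfr measurable_const).union (measurableSet_lt measurable_const hfr)
  have hDi : Integrable (fun x => ‖DK Q (f x)‖ ^ 2) μ := by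
    refine (integrable_const ((Q : ℝ) ^ 2)).mono' ?_ (ae_of_all _ fun x => ?_)
    · exact (((meas_DK Q).comp hf).norm.pow_const 2).aestronglyMeasurable
    · rw [Real.norm_of_nonneg (by positivity)]
      have := DK_norm_le Q (f x)
      gcongr
  have h1 : μ.real Z * (Q / 2) ^ 2 ≤ ∫ x, ‖DK Q (f x)‖ ^ 2 ∂μ := by
    calc μ.real Z * ((Q : ℝ) / 2) ^ 2 = ∫ x, Z.indicator (fun _ => ((Q : ℝ) / 2) ^ 2) x ∂μ := by
          rw [integral_indicator hZm, setIntegral_const, smul_eq_mul]
      _ ≤ ∫ x, ‖DK Q (f x)‖ ^ 2 ∂μ := by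
          refine integral_mono ((integrable_const _).indicator hZm) hDi fun n => ?_
          by_cases hn : n ∈ Z
          · rw [Set.indicator_of_mem hn]
            apply pow_le_pow_left₀ (by positivity)
            rw [hZ] at hn
            rcases hn with h2 | h2
            · apply DK_ge Q (f n) r ⌊f n⌋ _ hr
              rw [show f n - ⌊f n⌋ = Int.fract (f n) from rfl, abs_of_nonneg (Int.fract_nonneg _)]
              exact h2.le
            · apply DK_ge Q (f n) r (⌊f n⌋ + 1) _ hr
              have h3 : f n - ((⌊f n⌋ + 1 : ℤ) : ℝ) = Int.fract (f n) - 1 := by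
                push_cast
                rw [← Int.self_sub_floor]
                ring
              rw [h3, abs_le]
              have := Int.fract_lt_one (f n)
              have := Int.fract_nonneg (f n)
              constructor <;> linarith
          · rw [Set.indicator_of_notMem hn]
            positivity
  have h2 : ∫ x, ‖DK Q (f x)‖ ^ 2 ∂μ ≤ Q * 1 + (Q : ℝ) ^ 2 * E := by
    have h3 : ((∫ x, ‖DK Q (f x)‖ ^ 2 ∂μ : ℝ) : ℂ) =
        ∑ a ∈ range Q, ∑ b ∈ range Q, ∫ x, e (((a : ℝ) - b) * f x) ∂μ := by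
      rw [← integral_complex_ofReal]
      simp only [DK_sq]
      rw [integral_finset_sum]
      · refine sum_congr rfl fun a _ => ?_
        rw [integral_finset_sum]
        intro b _
        exact int_e μ (hf.const_mul _)
      · intro a _
        exact integrable_finset_sum _ fun b _ => int_e μ (hf.const_mul _)
    have h4 : ∫ x, ‖DK Q (f x)‖ ^ 2 ∂μ = ‖((∫ x, ‖DK Q (f x)‖ ^ 2 ∂μ : ℝ) : ℂ)‖ := by
      rw [Complex.norm_real, Real.norm_of_nonneg (integral_nonneg fun _ => sq_nonneg _)]
    rw [h4, h3]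
    calc ‖∑ a ∈ range Q, ∑ b ∈ range Q, ∫ x, e (((a : ℝ) - b) * f x) ∂μ‖ ≤
        ∑ a ∈ range Q, ∑ b ∈ range Q, ((if b = a then (1 : ℝ) else 0) + E) := by
          refine (norm_sum_le _ _).trans (sum_le_sum fun a ha => ?_)
          refine (norm_sum_le _ _).trans (sum_le_sum fun b hb => ?_)
          rw [mem_range] at ha hb
          split_ifs with hab
          · subst hab
            simp only [sub_self, zero_mul, e_zero]
            rw [integral_const, probReal_univ, one_smul, norm_one]
            linarith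
          · have h5 := hE ((a : ℤ) - b) (by omega) (by rw [abs_lt]; constructor <;> omega)
            rw [zero_add]
            refine le_trans (le_of_eq ?_) h5
            push_cast
            rfl
      _ = Q * 1 + (Q : ℝ) ^ 2 * E := by
          have h6 : ∀ a ∈ range Q, ∑ b ∈ range Q, ((if b = a then (1 : ℝ) else 0) + E) = 1 + Q * E := by
            intro a ha
            rw [sum_add_distrib, sum_ite_eq' (range Q) a, if_pos ha, sum_const, card_range, nsmul_eq_mul]
          rw [sum_congr rfl h6, sum_const, card_range, nsmul_eq_mul]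
          ring
  have h3 := h1.trans h2
  have h4 : μ.real Z ≤ (Q * 1 + (Q : ℝ) ^ 2 * E) / (Q / 2) ^ 2 := by
    rw [le_div_iff₀ (by positivity)]
    exact h3
  refine h4.trans (le_of_eq ?_)
  field_simp
  ring

/-- characteristic functions of integer parts -/
theorem floor_int (μ : Measure Ω) [IsProbabilityMeasure μ] (f : Ω → ℝ) (hf : Measurable f) (Q : ℕ) (hQ : 1 ≤ Q)
    (θ : ℝ) (hθ : |θ| ≤ 1) (E : ℝ) (hE0 : 0 ≤ E)
    (h1 : ∀ m : ℤ, |m| < (128 * Q ^ 3 : ℕ) → ‖∫ x, e ((θ + m) * f x) ∂μ‖ ≤ E)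
    (h2 : ∀ m : ℤ, m ≠ 0 → |m| < Q → ‖∫ x, e (m * f x) ∂μ‖ ≤ E) :
    ‖∫ x, e (θ * ⌊f x⌋) ∂μ‖ ≤ (128 * (Q : ℝ) ^ 3 + 8) * E + 10 * (1 / Q) := by
  classical
  have hQ0 : (0 : ℝ) < Q := by exact_mod_cast hQ
  obtain ⟨M, hM⟩ : ∃ M : ℕ, M = 128 * Q ^ 3 := ⟨_, rfl⟩
  have hM1 : 1 ≤ M := by
    rw [hM]
    have : 1 ≤ Q ^ 3 := Nat.one_le_pow _ _ hQ
    omega
  have hMr : (M : ℝ) = 128 * (Q : ℝ) ^ 3 := by rw [hM]; push_cast; ring
  have hM0 : (0 : ℝ) < M := by exact_mod_cast hM1
  have hMc : (M : ℂ) ≠ 0 := by exact_mod_cast hM0.ne'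
  rw [← hM] at h1
  obtain ⟨r, hr⟩ : ∃ r : ℝ, r = 1 / (8 * Q) := ⟨_, rfl⟩
  have hr0 : 0 < r := by rw [hr]; positivity
  have hQr : 8 * (Q * r) ≤ 1 := by
    rw [hr]
    apply le_of_eq
    field_simp
  obtain ⟨G, hG⟩ : ∃ G : ℝ → ℂ, G = fun u => (1 / (M : ℂ) ^ 2) * ∑ j ∈ range M, e (-(θ * (j / M))) *
    ((‖DK M (u - j / M)‖ ^ 2 : ℝ) : ℂ) := ⟨_, rfl⟩
  obtain ⟨Z, hZ⟩ : ∃ Z : Set Ω, Z = {x | Int.fract (f x) < r ∨ 1 - r < Int.fract (f x)} := ⟨_, rfl⟩
  have hfr : Measurable (fun x => Int.fract (f x)) := measurable_fract.comp hf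
  have hZm : MeasurableSet Z := by
    rw [hZ]
    exact (measurableSet_lt hfr measurable_const).union (measurableSet_lt measurable_const hfr)
  have hZle := near_meas μ f hf Q hQ E hE0 h2 r hQr
  rw [← hZ] at hZle
  have hGm : Measurable G := by
    rw [hG]
    refine Measurable.const_mul ?_ _
    refine Finset.measurable_sum _ fun j _ => Measurable.const_mul ?_ _
    refine Complex.measurable_ofReal.comp ?_
    exact ((meas_DK M).comp (measurable_id.sub_const _)).norm.pow_const 2
  -- `G` is bounded by one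
  have hG1 : ∀ u, ‖G u‖ ≤ 1 := by
    intro u
    rw [hG]
    simp only
    rw [norm_mul]
    have h4 : ‖(1 / (M : ℂ) ^ 2)‖ = 1 / (M : ℝ) ^ 2 := by
      rw [norm_div, norm_one, norm_pow, Complex.norm_natCast]
    rw [h4]
    have h5 : ‖∑ j ∈ range M, e (-(θ * (j / M))) * ((‖DK M (u - j / M)‖ ^ 2 : ℝ) : ℂ)‖ ≤ (M : ℝ) ^ 2 := by
      refine (norm_sum_le _ _).trans (le_of_eq ?_)
      rw [← fejer_avg M hM1 u]
      refine sum_congr rfl fun j _ => ?_
      rw [norm_mul, norm_e, one_mul, Complex.norm_real, Real.norm_of_nonneg (sq_nonneg _)]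
    calc 1 / (M : ℝ) ^ 2 * _ ≤ 1 / (M : ℝ) ^ 2 * (M : ℝ) ^ 2 := mul_le_mul_of_nonneg_left h5 (by positivity)
      _ = 1 := by field_simp
  have hGi : Integrable (fun x => e (θ * f x) * G (f x)) μ := by
    refine int_bd μ ((meas_e.comp (hf.const_mul _)).mul (hGm.comp hf)) 1 fun x => ?_
    rw [norm_mul, norm_e, one_mul]
    exact hG1 _
  have hEi : Integrable (fun x => e (θ * f x) * (e (-(θ * Int.fract (f x))) - G (f x))) μ := by
    refine int_bd μ ((meas_e.comp (hf.const_mul _)).mul
      ((meas_e.comp (hfr.const_mul _).neg).sub (hGm.comp hf))) 2 fun x => ?_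
    rw [norm_mul, norm_e, one_mul]
    refine (norm_sub_le _ _).trans ?_
    rw [norm_e]
    linarith [hG1 (f x)]
  -- the main term
  have hmain : ‖∫ x, e (θ * f x) * G (f x) ∂μ‖ ≤ M * E := by
    have h3 : ∫ x, e (θ * f x) * G (f x) ∂μ = (1 / (M : ℂ) ^ 2) * ∑ j ∈ range M, ∑ a ∈ range M, ∑ b ∈ range M,
        e (-(θ * (j / M))) * e (-(((a : ℝ) - b) * (j / M))) * ∫ x, e ((θ + ((a : ℤ) - b : ℤ)) * f x) ∂μ := by
      have h30 : ∀ x, e (θ * f x) * G (f x) = (1 / (M : ℂ) ^ 2) * ∑ j ∈ range M, ∑ a ∈ range M, ∑ b ∈ range M,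
          e (-(θ * (j / M))) * e (-(((a : ℝ) - b) * (j / M))) * e ((θ + ((a : ℤ) - b : ℤ)) * f x) := by
        intro x
        simp only [hG, DK_sq, mul_sum]
        refine sum_congr rfl fun j _ => ?_
        refine sum_congr rfl fun a _ => ?_
        refine sum_congr rfl fun b _ => ?_
        have h4 : e (((a : ℝ) - b) * (f x - j / M)) = e (-(((a : ℝ) - b) * (j / M))) * e (((a : ℝ) - b) * f x) := by
          rw [← e_add]
          congr 1
          ring
        have h5 : e ((θ + (((a : ℤ) - b : ℤ) : ℝ)) * f x) = e (θ * f x) * e (((a : ℝ) - b) * f x) := by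
          rw [← e_add]
          congr 1
          push_cast
          ring
        rw [h4, h5]
        ring
      simp only [h30]
      have hi : ∀ (c : ℂ) (t : ℝ), Integrable (fun x => c * e (t * f x)) μ :=
        fun c t => (int_e μ (hf.const_mul _)).const_mul c
      rw [integral_const_mul]
      congr 1
      rw [integral_finset_sum]
      · refine sum_congr rfl fun j _ => ?_
        rw [integral_finset_sum]
        · refine sum_congr rfl fun a _ => ?_
          rw [integral_finset_sum]
          · refine sum_congr rfl fun b _ => ?_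
            rw [integral_const_mul]
          · intro b _
            exact hi _ _
        · intro a _
          exact integrable_finset_sum _ fun b _ => hi _ _
      · intro j _
        exact integrable_finset_sum _ fun a _ => integrable_finset_sum _ fun b _ => hi _ _
    rw [h3, norm_mul]
    have h4 : ‖(1 / (M : ℂ) ^ 2)‖ = 1 / (M : ℝ) ^ 2 := by
      rw [norm_div, norm_one, norm_pow, Complex.norm_natCast]
    rw [h4]
    have h5 : ‖∑ j ∈ range M, ∑ a ∈ range M, ∑ b ∈ range M,
        e (-(θ * (j / M))) * e (-(((a : ℝ) - b) * (j / M))) * ∫ x, e ((θ + ((a : ℤ) - b : ℤ)) * f x) ∂μ‖ ≤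
        ∑ _j ∈ range M, ∑ _a ∈ range M, ∑ _b ∈ range M, E := by
      refine (norm_sum_le _ _).trans (sum_le_sum fun j _ => ?_)
      refine (norm_sum_le _ _).trans (sum_le_sum fun a ha => ?_)
      refine (norm_sum_le _ _).trans (sum_le_sum fun b hb => ?_)
      rw [mem_range] at ha hb
      rw [norm_mul, norm_mul, norm_e, norm_e, one_mul, one_mul]
      apply h1
      rw [abs_lt]
      constructor <;> omega
    calc _ ≤ 1 / (M : ℝ) ^ 2 * ∑ _j ∈ range M, ∑ _a ∈ range M, ∑ _b ∈ range M, E :=
          mul_le_mul_of_nonneg_left h5 (by positivity)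
      _ = M * E := by
          simp only [sum_const, card_range, nsmul_eq_mul]
          field_simp
  -- the error
  have herr : ‖∫ x, e (θ * f x) * (e (-(θ * Int.fract (f x))) - G (f x)) ∂μ‖ ≤
      (2 / Q) + 2 * μ.real Z := by
    refine (norm_integral_le_integral_norm _).trans ?_
    calc ∫ x, ‖e (θ * f x) * (e (-(θ * Int.fract (f x))) - G (f x))‖ ∂μ ≤
        ∫ x, ((2 / Q : ℝ) + Z.indicator (fun _ => (2 : ℝ)) x) ∂μ := by
          refine integral_mono hEi.norm ((integrable_const _).add ((integrable_const _).indicator hZm)) fun n => ?_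
          simp only
          rw [norm_mul, norm_e, one_mul]
          by_cases h3 : n ∈ Z
          · rw [Set.indicator_of_mem h3]
            have h4 : ‖e (-(θ * Int.fract (f n))) - G (f n)‖ ≤ 2 := by
              refine (norm_sub_le _ _).trans ?_
              rw [norm_e]
              linarith [hG1 (f n)]
            have : (0 : ℝ) < 2 / Q := by positivity
            linarith
          · rw [Set.indicator_of_notMem h3]
            rw [hZ, Set.mem_ofPred_eq] at h3
            push Not at h3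
            have h4 := approx M hM1 θ hθ (f n) r hr0 h3.1 h3.2
            rw [hG]
            have h5 : 7 * r + 2 / (M * r ^ 2) ≤ 2 / (Q : ℝ) := by
              have h6 : 7 * r + 2 / (M * r ^ 2) = (7 / 8 + 1) / (Q : ℝ) := by
                rw [hr, hMr]
                field_simp
                ring
              rw [h6]
              exact div_le_div_of_nonneg_right (by norm_num) hQ0.le
            simp only
            linarith
      _ = (2 / Q) + 2 * μ.real Z := by
          rw [integral_add (integrable_const _) ((integrable_const _).indicator hZm), integral_const, probReal_univ,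
            one_smul, integral_indicator hZm, setIntegral_const, smul_eq_mul]
          ring
  have hdec : ∫ x, e (θ * ⌊f x⌋) ∂μ = ∫ x, e (θ * f x) * G (f x) ∂μ +
      ∫ x, e (θ * f x) * (e (-(θ * Int.fract (f x))) - G (f x)) ∂μ := by
    rw [← integral_add hGi hEi]
    refine integral_congr_ae (ae_of_all _ fun n => ?_)
    simp only
    have h3 : e (θ * ⌊f n⌋) = e (θ * f n) * e (-(θ * Int.fract (f n))) := by
      rw [← e_add]
      congr 1
      rw [← Int.self_sub_floor]
      ring
    rw [h3]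
    ring
  rw [hdec]
  refine (norm_add_le _ _).trans ?_
  have h10 : (2 : ℝ) / Q = 2 * (1 / Q) := by ring
  rw [← hMr]
  nlinarith

end Pool.Agent.W2helper67.FD
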