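import Pool.Agent.W2helper67.FD.Tr
import Pool.Agent.N625.DY.I

set_option autoImplicit false

/-!
Goldbach windows near the values `c₀ + κ ⌊Z x⌋`.
-/

namespace Pool.Agent.W2helper67.FD

open Finset MeasureTheory Filter Topology
open Pool.Agent.N625.DY (Cls ClsV)

open Classical in
/-- the windows of Goldbach representations for all the even integers near almost all the values -/
theorem fd_gold {τ : ℝ} (hτ : 0 < τ) (C₁ : ℝ) (κ : ℤ) (hκ : κ ≠ 0) (A W u B m₀ : ℕ) (η : ℝ) (hη : 0 < η) (P : ℕ → Prop)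
    (hP : ∀ m : ℕ, m₀ ≤ m → 2 ∣ m → Pool.Agent.W93.PG.WinP η A m → P m) :
    ∃ Z₀ : ℝ, ∀ Z : ℝ, Z₀ ≤ Z → ∀ (μ : Measure ℝ) [IsProbabilityMeasure μ], FDec μ τ C₁ → (∀ᵐ x ∂μ, 0 ≤ x ∧ x < 1) →
      ∀ c₀ : ℤ, |(c₀ : ℝ)| ≤ B * Z →
      μ.real {x | ¬ ∀ m : ℤ, |(m : ℝ) - ((c₀ + κ * ⌊Z * x⌋ : ℤ) : ℝ)| ≤ Real.log Z ^ W →
          0 < m → Even m → P m.toNat} ≤ 1 / Real.log Z ^ u := by
  obtain ⟨Q, hQ⟩ : ∃ Q : ℤ → Prop, Q = fun m => (0 < m → Even m → P m.toNat) := ⟨_, rfl⟩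
  obtain ⟨k₀, h1⟩ := Pool.Agent.N625.DY.cls_gold (FC_clsV hτ C₁ κ hκ).toCls (B + 1) A W (u + 1) m₀ η hη P hP Q (fun y hy => by
      rw [hQ] at hy
      push Not at hy
      exact ⟨hy.1, hy.2.1, hy.2.2⟩)
  obtain ⟨Z₁, hZ₁1, H⟩ := fd_trans (Θ := ℕ) (τ := τ) (C₁ := C₁) κ B 0 u (fun k ϑ => ϑ = k)
    (fun ϑ y => ∀ m : ℤ, |m - y| ≤ (ϑ : ℤ) ^ W → Q m) k₀ (fun k hk ϑ hϑ p hp c hc => by
      rw [hϑ]
      refine (le_of_eq (by congr!)).trans (h1 k hk p hp c hc))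
  refine ⟨Z₁, fun Z hZ μ _ hμ hs c₀ hc₀ => ?_⟩
  have h1Z : 1 ≤ Z := hZ₁1.trans hZ
  obtain ⟨k, hk1, hk2⟩ := dig_exists Z h1Z
  have hLk := log_dig h1Z hk2
  have hL0 := Real.log_nonneg h1Z
  have h3 := H Z hZ k hk1 hk2 k rfl μ hμ hs c₀ hc₀
  refine le_trans (measureReal_mono (fun x hx => ?_) (measure_ne_top _ _)) h3
  simp only [Set.mem_ofPred_eq] at hx ⊢
  intro hcon
  apply hx
  intro m hm
  have h4 := hcon (c₀ + κ * ⌊Z * x⌋) (by rw [sub_self, abs_zero, pow_zero]; norm_num) m (by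
    have h2 : ((|m - (c₀ + κ * ⌊Z * x⌋)| : ℤ) : ℝ) ≤ ((((k : ℕ) : ℤ) ^ W : ℤ) : ℝ) := by
      push_cast
      push_cast at hm
      exact hm.trans (pow_le_pow_left₀ hL0 hLk W)
    exact_mod_cast h2)
  rw [hQ] at h4
  exact h4

end Pool.Agent.W2helper67.FD
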