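import Pool.Agent.W2helper67.FD.Pa

set_option autoImplicit false

/-!
All the scales at once, and the intervals `(n + 4, N]`.
-/

namespace Pool.Agent.W2helper67.FD

open Finset MeasureTheory Filter Topology
open Pool.Agent.W2helper30.CF (PatGood IntGood int_of)

/-- exact patterns near almost all vectors, at all the scales -/
theorem fd_grid (s : ℕ) (hs1 : 1 ≤ s) : ∃ c₀ : ℝ, 0 < c₀ ∧ ∀ (ε : ℝ), 0 < ε → ∀ (τ : ℝ), 0 < τ → ∀ (C₁ : ℝ)
    (κ : Fin s → ℤ), (∀ j, κ j ≠ 0) → ∀ (r B W A : ℕ), ∃ Z₀ : ℝ, ∀ Z : ℝ, Z₀ ≤ Z →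
    ∀ (μ : Fin s → Measure ℝ) [∀ j, IsProbabilityMeasure (μ j)], (∀ j, FDec (μ j) τ C₁) →
    (∀ j, ∀ᵐ x ∂(μ j), 0 ≤ x ∧ x < 1) → ∀ c : Fin s → ℤ, (∀ j, |(c j : ℝ)| ≤ B * Z) →
    (Measure.pi μ).real {x | ¬ ∀ N : ℕ, Z ≤ B * N → (N : ℝ) ≤ Z * Real.log Z ^ r → ∀ h : Fin s → ℤ,
      (∀ j, |(h j : ℝ) - ((c j + κ j * ⌊Z * x j⌋ : ℤ) : ℝ)| ≤ Real.log Z ^ A) → (∀ j, 0 ≤ h j) →
      PatGood c₀ ε N (fun _ => 1) h} ≤ 1 / Real.log Z ^ W := by
  classical
  obtain ⟨c₀, hc₀, hfam⟩ := fd_near s hs1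
  refine ⟨c₀, hc₀, fun ε hε τ hτ C₁ κ hκ r B W A => ?_⟩
  obtain ⟨η, hη⟩ : ∃ η, η = min (ε / 3) (1 / 3) := ⟨_, rfl⟩
  have hη0 : 0 < η := by rw [hη]; exact lt_min (by positivity) (by norm_num)
  have hη1 : η ≤ 1 / 3 := by rw [hη]; exact min_le_right _ _
  have hηε : 3 * η ≤ ε := by
    have : η ≤ ε / 3 := by rw [hη]; exact min_le_left _ _
    linarith
  obtain ⟨y, hy⟩ : ∃ y, y = 1 + η / 2 := ⟨_, rfl⟩
  have hy1 : 1 < y := by rw [hy]; linarith
  have hy2 : y ≤ 2 := by rw [hy]; linarith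
  have hly : 0 < Real.log y := Real.log_pos hy1
  obtain ⟨n₁, hn₁⟩ := hfam τ hτ C₁ κ hκ (r + 1) (2 * B * (B + 1)) (W + 2) (A + 1) η hη0
  obtain ⟨n₂, hn₂⟩ := exists_nat_ge (2 / η + n₁ + 2)
  have e1 := (Real.isLittleO_pow_log_id_atTop (n := r)).bound (show (0 : ℝ) < 1 by norm_num)
  have e2 := Real.tendsto_log_atTop.eventually (eventually_ge_atTop
    (2 ^ (A + 1) + 2 * Real.log (2 * (B + 1)) + (2 / Real.log y + 2) * 2 ^ (W + 2) + 4))
  obtain ⟨Z₁, hZ₁⟩ := eventually_atTop.1 ((e1.and e2).and (eventually_ge_atTop (2 * B * n₂ + 1 : ℝ)))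
  refine ⟨Z₁, fun Z hZ μ _ hμ hs c hc => ?_⟩
  obtain ⟨⟨f1, f2⟩, f3⟩ := hZ₁ Z hZ
  have hB0 : (0 : ℝ) ≤ B := Nat.cast_nonneg _
  have hn20 : (0 : ℝ) ≤ n₂ := Nat.cast_nonneg _
  have hZ1 : 1 ≤ Z := by
    have : 0 ≤ 2 * (B : ℝ) * n₂ := by positivity
    linarith
  have hZ0 : 0 < Z := by linarith
  obtain ⟨L, hL⟩ : ∃ L, L = Real.log Z := ⟨_, rfl⟩
  rw [← hL] at f2
  have hlB : 0 ≤ Real.log (2 * ((B : ℝ) + 1)) := Real.log_nonneg (by linarith)
  have h2A : (0 : ℝ) < 2 ^ (A + 1) := by positivity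
  have hyW : 0 < (2 / Real.log y + 2) * 2 ^ (W + 2) := by positivity
  have hL4 : 4 ≤ L := by linarith
  have hL0 : 0 < L := by linarith
  have hZr : Real.log Z ^ r ≤ Z := by
    rw [id, Real.norm_of_nonneg (pow_nonneg (by rw [← hL]; exact hL0.le) r), Real.norm_of_nonneg hZ0.le, one_mul] at f1
    exact f1
  obtain ⟨M, hM⟩ : ∃ M : ℕ, M = ⌊2 * L / Real.log y⌋₊ + 2 := ⟨_, rfl⟩
  have hMr : (M : ℝ) ≤ (2 / Real.log y + 2) * L := by
    have h1 : ((⌊2 * L / Real.log y⌋₊ : ℕ) : ℝ) ≤ 2 * L / Real.log y := Nat.floor_le (by positivity)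
    rw [hM]
    push_cast
    calc ((⌊2 * L / Real.log y⌋₊ : ℕ) : ℝ) + 2 ≤ 2 * L / Real.log y + 2 * L := by linarith
      _ = _ := by ring
  obtain ⟨G, hG⟩ : ∃ G : ℕ → ℕ, G = fun i => ⌈y ^ i⌉₊ := ⟨_, rfl⟩
  have hGy : ∀ i, y ^ i ≤ G i := fun i => by rw [hG]; exact Nat.le_ceil _
  have hGy2 : ∀ i, (G i : ℝ) < y ^ i + 1 := fun i => by rw [hG]; exact Nat.ceil_lt_add_one (by positivity)
  obtain ⟨bad, hbad⟩ : ∃ bad : ℕ → Set (Fin s → ℝ), bad = fun i => {x | (Z ≤ 2 * B * G i ∧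
      (G i : ℝ) ≤ Z * L ^ (r + 1)) ∧ ¬ ∀ h : Fin s → ℤ,
      (∀ j, |(h j : ℝ) - ((c j + κ j * ⌊Z * x j⌋ : ℤ) : ℝ)| ≤ Real.log (G i) ^ (A + 1)) → (∀ j, 0 ≤ h j) →
      PatGood c₀ η (G i) (fun _ => 1) h} := ⟨_, rfl⟩
  -- the sizes
  have hlow : ∀ i, Z ≤ 2 * B * G i → (n₂ : ℝ) ≤ G i ∧ L / 2 ≤ Real.log (G i) := by
    intro i hi
    have hGi0 : (0 : ℝ) ≤ G i := Nat.cast_nonneg _
    have hBp : 0 < (B : ℝ) := by
      rcases hB0.lt_or_eq with h | h
      · exact h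
      · rw [← h] at hi
        linarith
    have hGp : 0 < (G i : ℝ) := by
      rcases hGi0.lt_or_eq with h | h
      · exact h
      · rw [← h] at hi
        linarith
    constructor
    · have h1 : 2 * (B : ℝ) * n₂ ≤ 2 * B * G i := by linarith
      exact le_of_mul_le_mul_left h1 (by positivity)
    · have h1 : Z ≤ (2 * ((B : ℝ) + 1)) * G i := by
        calc Z ≤ 2 * B * G i := hi
          _ ≤ _ := mul_le_mul_of_nonneg_right (by linarith) hGi0
      have h2 := Real.log_le_log hZ0 h1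
      rw [Real.log_mul (by positivity) hGp.ne', ← hL] at h2
      linarith
  have hrad : ∀ i, Z ≤ 2 * B * G i → L ^ A ≤ Real.log (G i) ^ (A + 1) := by
    intro i hi
    obtain ⟨-, h1⟩ := hlow i hi
    have h2 : (2 : ℝ) ^ A ≤ Real.log (G i) := by
      have : (2 : ℝ) ^ (A + 1) = 2 * 2 ^ A := by ring
      linarith
    calc L ^ A = 2 ^ A * (L / 2) ^ A := by rw [← mul_pow]; congr 1; ring
      _ ≤ Real.log (G i) * Real.log (G i) ^ A :=
          mul_le_mul h2 (pow_le_pow_left₀ (by positivity) h1 A) (by positivity) (by linarith)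
      _ = _ := by rw [pow_succ]; ring
  have hone : ∀ i ∈ range M, (Measure.pi μ).real (bad i) ≤ 2 ^ (W + 2) / L ^ (W + 2) := by
    intro i _
    by_cases hi : Z ≤ 2 * B * G i ∧ (G i : ℝ) ≤ Z * L ^ (r + 1)
    · obtain ⟨g1, g2⟩ := hlow i hi.1
      have hGi0 : (0 : ℝ) ≤ G i := Nat.cast_nonneg _
      have hn1 : n₁ ≤ G i := by
        have h1 : (n₁ : ℝ) ≤ n₂ := by
          have : 0 ≤ 2 / η := by positivity
          linarith
        exact_mod_cast h1.trans g1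
      have h3 := hn₁ (G i) hn1 (fun _ => Z) (fun _ => hZ1) (fun _ => by
        push_cast
        have h4 : 2 * (B : ℝ) * G i ≤ 2 * B * (B + 1) * G i := by
          apply mul_le_mul_of_nonneg_right _ hGi0
          nlinarith
        exact hi.1.trans h4) (fun _ => by rw [← hL]; exact hi.2) μ hμ hs c (fun j => by
        push_cast
        calc |(c j : ℝ)| ≤ B * Z := hc j
          _ ≤ B * (2 * B * G i) := mul_le_mul_of_nonneg_left hi.1 hB0
          _ ≤ 2 * B * (B + 1) * G i := by nlinarith [mul_nonneg hB0 hGi0])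
      refine (measureReal_mono (fun x hx => ?_) (measure_ne_top _ _)).trans (h3.trans ?_)
      · rw [hbad] at hx
        exact hx.2
      · calc 1 / Real.log (G i) ^ (W + 2) ≤ 1 / (L / 2) ^ (W + 2) := by
              apply one_div_le_one_div_of_le (by positivity)
              exact pow_le_pow_left₀ (by positivity) g2 _
          _ = 2 ^ (W + 2) / L ^ (W + 2) := by rw [div_pow]; field_simp
    · have h3 : bad i = ∅ := by
        rw [hbad]
        ext x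
        simp only [Set.mem_ofPred_eq, Set.mem_empty_iff_false, iff_false]
        exact fun h => hi h.1
      rw [h3, measureReal_empty]
      positivity
  have hsub : {x : Fin s → ℝ | ¬ ∀ N : ℕ, Z ≤ B * N → (N : ℝ) ≤ Z * Real.log Z ^ r → ∀ h : Fin s → ℤ,
      (∀ j, |(h j : ℝ) - ((c j + κ j * ⌊Z * x j⌋ : ℤ) : ℝ)| ≤ Real.log Z ^ A) → (∀ j, 0 ≤ h j) →
      PatGood c₀ ε N (fun _ => 1) h} ⊆ ⋃ i ∈ range M, bad i := by
    intro x hx
    simp only [Set.mem_ofPred_eq] at hx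
    push Not at hx
    obtain ⟨N, hN1, hN2, h, h1, h2, h3⟩ := hx
    rw [← hL] at hN2 h1 hZr
    by_contra hcon
    simp only [Set.mem_iUnion, exists_prop, not_exists, not_and, mem_range] at hcon
    apply h3
    have hNpos : 0 < (N : ℝ) := by
      rcases (Nat.cast_nonneg N : (0 : ℝ) ≤ N).lt_or_eq with h' | h'
      · exact h'
      · rw [← h'] at hN1
        linarith
    have hN1' : 1 ≤ (N : ℝ) := by
      have : 0 < N := by exact_mod_cast hNpos
      exact_mod_cast this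
    obtain ⟨n, hn1, hn2⟩ := exists_nat_pow_near hN1' hy1
    have hLr : L ^ r ≤ Z := hZr
    have hyn0 : 0 < y ^ n := by positivity
    -- the indices
    have hnM : n + 1 < M := by
      have k1 : y ^ n ≤ Z * Z := hn1.trans (hN2.trans (mul_le_mul_of_nonneg_left hLr hZ0.le))
      have k2 := Real.log_le_log hyn0 k1
      rw [Real.log_pow, Real.log_mul hZ0.ne' hZ0.ne', ← hL] at k2
      have k3 : (n : ℝ) ≤ 2 * L / Real.log y := by
        rw [le_div_iff₀ hly]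
        linarith
      have k4 : n ≤ ⌊2 * L / Real.log y⌋₊ := Nat.le_floor k3
      omega
    have hGn : (G n : ℝ) ≤ N := by
      have : G n ≤ N := by
        rw [hG]
        exact Nat.ceil_le.2 hn1
      exact_mod_cast this
    have hGn1 : (N : ℝ) ≤ G (n + 1) := hn2.le.trans (hGy (n + 1))
    have hGn2 : (N : ℝ) ≤ 2 * G n := by
      calc (N : ℝ) ≤ y ^ (n + 1) := hn2.le
        _ = y * y ^ n := by rw [pow_succ]; ring
        _ ≤ 2 * G n := mul_le_mul hy2 (hGy n) hyn0.le (by norm_num)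
    have hZn : Z ≤ 2 * B * G n := by
      calc Z ≤ B * N := hN1
        _ ≤ B * (2 * G n) := mul_le_mul_of_nonneg_left hGn2 hB0
        _ = _ := by ring
    have hZn1 : Z ≤ 2 * B * G (n + 1) := by
      have k1 : 0 ≤ (B : ℝ) * G (n + 1) := by positivity
      calc Z ≤ B * N := hN1
        _ ≤ B * G (n + 1) := mul_le_mul_of_nonneg_left hGn1 hB0
        _ ≤ 2 * B * G (n + 1) := by linarith
    obtain ⟨g1, -⟩ := hlow n hZn
    have hratio : (G (n + 1) : ℝ) ≤ (1 + η) * G n := by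
      have k1 : 2 / η ≤ G n := by
        have : (0 : ℝ) ≤ n₁ := Nat.cast_nonneg _
        linarith
      rw [div_le_iff₀ hη0] at k1
      calc (G (n + 1) : ℝ) ≤ y ^ (n + 1) + 1 := (hGy2 (n + 1)).le
        _ = y * y ^ n + 1 := by rw [pow_succ]; ring
        _ ≤ y * G n + 1 := by
            have := mul_le_mul_of_nonneg_left (hGy n) (by linarith : (0 : ℝ) ≤ y)
            linarith
        _ ≤ (1 + η) * G n := by
            rw [hy]
            linarith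
    have hup1 : (N : ℝ) ≤ Z * L ^ (r + 1) := by
      refine hN2.trans (mul_le_mul_of_nonneg_left (pow_le_pow_right₀ (by linarith) (by omega)) hZ0.le)
    have hup2 : (G (n + 1) : ℝ) ≤ Z * L ^ (r + 1) := by
      calc (G (n + 1) : ℝ) ≤ (1 + η) * G n := hratio
        _ ≤ (1 + η) * N := mul_le_mul_of_nonneg_left hGn (by linarith)
        _ ≤ 2 * N := mul_le_mul_of_nonneg_right (by linarith) hNpos.le
        _ ≤ L * (Z * L ^ r) := mul_le_mul (by linarith) hN2 hNpos.le hL0.le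
        _ = Z * L ^ (r + 1) := by rw [pow_succ]; ring
    have p1 : PatGood c₀ η (G n) (fun _ => 1) h := by
      by_contra hc1
      apply hcon n (by omega)
      rw [hbad]
      refine ⟨⟨hZn, hGn.trans hup1⟩, fun hall => hc1 (hall h (fun j => (h1 j).trans (hrad n hZn)) h2)⟩
    have p2 : PatGood c₀ η (G (n + 1)) (fun _ => 1) h := by
      by_contra hc1
      apply hcon (n + 1) hnM
      rw [hbad]
      refine ⟨⟨hZn1, hup2⟩, fun hall => hc1 (hall h (fun j => (h1 j).trans (hrad (n + 1) hZn1)) h2)⟩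
    refine interp hc₀ hη0 hη1 hηε (N₁ := G n) (N₂ := G (n + 1)) ?_ (by exact_mod_cast hGn) (by exact_mod_cast hGn1) hratio p1 p2
    have k1 : (2 : ℝ) ≤ G n := by
      have : (0 : ℝ) ≤ n₁ := Nat.cast_nonneg _
      have : 0 ≤ 2 / η := by positivity
      linarith
    exact_mod_cast k1
  rw [← hL]
  refine (measureReal_mono ?_ (measure_ne_top _ _)).trans ((measureReal_biUnion_finset_le _ _).trans
    ((sum_le_sum hone).trans ?_))
  · rw [← hL] at hsub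
    exact hsub
  · rw [sum_const, card_range, nsmul_eq_mul]
    have k1 : (2 / Real.log y + 2) * 2 ^ (W + 2) ≤ L := by linarith
    calc (M : ℝ) * (2 ^ (W + 2) / L ^ (W + 2)) ≤ ((2 / Real.log y + 2) * L) * (2 ^ (W + 2) / L ^ (W + 2)) :=
          mul_le_mul_of_nonneg_right hMr (by positivity)
      _ = ((2 / Real.log y + 2) * 2 ^ (W + 2)) * (L / L ^ (W + 2)) := by ring
      _ ≤ L * (L / L ^ (W + 2)) := mul_le_mul_of_nonneg_right k1 (by positivity)
      _ = 1 / L ^ W := by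
          rw [pow_add]
          field_simp

/-- the patterns in the intervals `(n + 4, N]` -/
theorem fd_int (s : ℕ) (hs1 : 1 ≤ s) : ∃ c₀ : ℝ, 0 < c₀ ∧ ∀ (ε : ℝ), 0 < ε → ∃ C : ℕ, ∀ (τ : ℝ), 0 < τ → ∀ (C₁ : ℝ)
    (κ : Fin s → ℤ), (∀ j, κ j ≠ 0) → ∀ (r B W A : ℕ), ∃ Z₀ : ℝ, ∀ Z : ℝ, Z₀ ≤ Z →
    ∀ (μ : Fin s → Measure ℝ) [∀ j, IsProbabilityMeasure (μ j)], (∀ j, FDec (μ j) τ C₁) →
    (∀ j, ∀ᵐ x ∂(μ j), 0 ≤ x ∧ x < 1) → ∀ c : Fin s → ℤ, (∀ j, |(c j : ℝ)| ≤ B * Z) →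
    (Measure.pi μ).real {x | ¬ ∀ N : ℕ, Z ≤ B * N → (N : ℝ) ≤ Z * Real.log Z ^ r → ∀ h : Fin s → ℤ,
      (∀ j, |(h j : ℝ) - ((c j + κ j * ⌊Z * x j⌋ : ℤ) : ℝ)| ≤ Real.log Z ^ A) → (∀ j, 0 ≤ h j) →
      IntGood c₀ ε C N (fun _ => 1) h} ≤ 1 / Real.log Z ^ W := by
  obtain ⟨c₀, hc₀, hfam⟩ := fd_grid s hs1
  refine ⟨c₀, hc₀, fun ε hε => ?_⟩
  obtain ⟨η, D, hη, hD, n₀, hint⟩ := int_of s c₀ ε hc₀ hε
  refine ⟨D, fun τ hτ C₁ κ hκ r B W A => ?_⟩
  obtain ⟨Z₁, h1⟩ := hfam η hη τ hτ C₁ κ hκ r (B * D) W A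
  refine ⟨max Z₁ (B * (n₀ + 2) + 1), fun Z hZ μ _ hμ hs c hc => ?_⟩
  have hZ1 : Z₁ ≤ Z := (le_max_left _ _).trans hZ
  have hZ2 : B * (n₀ + 2) + 1 ≤ Z := (le_max_right _ _).trans hZ
  have hB0 : (0 : ℝ) ≤ B := Nat.cast_nonneg _
  have hD1 : (1 : ℝ) ≤ D := by exact_mod_cast (by omega : 1 ≤ D)
  have hn0 : (0 : ℝ) ≤ n₀ := Nat.cast_nonneg _
  have hZ0 : 0 < Z := by
    have : 0 ≤ (B : ℝ) * (n₀ + 2) := by positivity
    linarith
  have hBD : (B : ℝ) ≤ B * D := le_mul_of_one_le_right hB0 hD1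
  refine (measureReal_mono (fun x hx => ?_) (measure_ne_top _ _)).trans (h1 Z hZ1 μ hμ hs c (fun j => by
    push_cast
    exact (hc j).trans (mul_le_mul_of_nonneg_right hBD hZ0.le)))
  simp only [Set.mem_ofPred_eq] at hx ⊢
  intro hall
  apply hx
  intro N hN1 hN2 h g1 g2
  have hN0 : (0 : ℝ) ≤ N := Nat.cast_nonneg _
  have hNbig : n₀ + 2 ≤ N := by
    by_contra hcon
    push Not at hcon
    have k1 : (N : ℝ) ≤ n₀ + 2 := by
      have : N ≤ n₀ + 2 := hcon.le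
      exact_mod_cast this
    have k2 := mul_le_mul_of_nonneg_left k1 hB0
    linarith
  obtain ⟨X, hX⟩ : ∃ X, X = N / D + 1 := ⟨_, rfl⟩
  have hNX : N ≤ D * X := by
    have h4 := Nat.div_add_mod N D
    have h5 := Nat.mod_lt N (by omega : D > 0)
    rw [hX, mul_add, mul_one]
    omega
  have hXN : X ≤ N := by
    have h4 : N / D ≤ N / 2 := Nat.div_le_div_left hD (by norm_num)
    have h5 : N / 2 + 1 ≤ N := by omega
    rw [hX]
    exact (Nat.add_le_add_right h4 1).trans h5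
  have hNXr : (N : ℝ) ≤ D * X := by exact_mod_cast hNX
  have hXNr : (X : ℝ) ≤ N := by exact_mod_cast hXN
  refine hint N (by omega) (fun _ => 1) h ?_ ?_
  · refine hall N ?_ hN2 h g1 g2
    push_cast
    exact hN1.trans (mul_le_mul_of_nonneg_right hBD hN0)
  · rw [← hX]
    refine hall X ?_ (hXNr.trans hN2) h g1 g2
    push_cast
    calc Z ≤ B * N := hN1
      _ ≤ B * (D * X) := mul_le_mul_of_nonneg_left hNXr hB0
      _ = B * D * X := by ring

/-- from small exceptional sets to almost all points -/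
theorem borelG {Ω : Type} [MeasurableSpace Ω] (μ : Measure Ω) [IsProbabilityMeasure μ] (s : ℕ → Set Ω) (a : ℕ → ℝ) (δ : ℝ)
    (hδ : 0 < δ) (ha : ∀ᶠ j : ℕ in atTop, Real.exp ((j : ℝ) ^ δ) ≤ a j) (u : ℕ) (hu : 2 ≤ δ * u) (Z₀ : ℝ)
    (hs : ∀ j, Z₀ ≤ a j → μ.real (s j) ≤ 1 / Real.log (a j) ^ u) : ∀ᵐ t ∂μ, ∀ᶠ j in atTop, t ∉ s j := by
  have hkey : ∀ᶠ j : ℕ in atTop, μ.real (s j) ≤ 1 / (j : ℝ) ^ 2 := by
    have h1 : Tendsto (fun j : ℕ => Real.exp ((j : ℝ) ^ δ)) atTop atTop :=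
      Real.tendsto_exp_atTop.comp ((tendsto_rpow_atTop hδ).comp tendsto_natCast_atTop_atTop)
    filter_upwards [ha, h1.eventually_ge_atTop Z₀, eventually_ge_atTop 1] with j h2 h3 hj
    refine (hs j (h3.trans h2)).trans ?_
    have hj1 : (1 : ℝ) ≤ j := by exact_mod_cast hj
    have hj0 : (0 : ℝ) < j := by linarith
    have h4 : (j : ℝ) ^ δ ≤ Real.log (a j) := by
      rw [Real.le_log_iff_exp_le (lt_of_lt_of_le (Real.exp_pos _) h2)]
      exact h2
    apply one_div_le_one_div_of_le (by positivity)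
    calc (j : ℝ) ^ 2 = (j : ℝ) ^ (2 : ℝ) := by norm_cast
      _ ≤ (j : ℝ) ^ (δ * u) := Real.rpow_le_rpow_of_exponent_le hj1 hu
      _ = ((j : ℝ) ^ δ) ^ u := by rw [Real.rpow_mul hj0.le, Real.rpow_natCast]
      _ ≤ Real.log (a j) ^ u := pow_le_pow_left₀ (by positivity) h4 u
  apply ae_eventually_notMem
  obtain ⟨J, hJ⟩ := eventually_atTop.1 hkey
  have hb : ∀ j, μ (s j) ≤ ENNReal.ofReal (1 / (j : ℝ) ^ 2 + if j < J then 1 else 0) := by
    intro j
    have hp : (0 : ℝ) ≤ 1 / (j : ℝ) ^ 2 := by positivity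
    by_cases hj : j < J
    · rw [if_pos hj]
      calc μ (s j) ≤ 1 := prob_le_one
        _ = ENNReal.ofReal 1 := by simp
        _ ≤ _ := ENNReal.ofReal_le_ofReal (by linarith)
    · rw [if_neg hj, add_zero]
      have h1 := hJ j (by omega)
      rw [← ENNReal.ofReal_toReal (measure_ne_top μ (s j))]
      exact ENNReal.ofReal_le_ofReal h1
  have hsum2 : Summable (fun j : ℕ => 1 / (j : ℝ) ^ 2 + if j < J then (1 : ℝ) else 0) := by
    refine (Real.summable_one_div_nat_pow.2 (by norm_num)).add ?_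
    apply summable_of_ne_finset_zero (s := Finset.range J)
    intro j hj
    rw [Finset.mem_range] at hj
    rw [if_neg hj]
  have h2 : ∑' j, μ (s j) ≤ ∑' j : ℕ, ENNReal.ofReal (1 / (j : ℝ) ^ 2 + if j < J then 1 else 0) :=
    ENNReal.tsum_le_tsum hb
  exact ne_top_of_le_ne_top hsum2.tsum_ofReal_ne_top h2

end Pool.Agent.W2helper67.FD
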