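import Pool.Agent.W2helper67.FD.Cls

set_option autoImplicit false

/-!
From the class of the distributions of `⌊Z x⌋` to almost all real numbers.
-/

namespace Pool.Agent.W2helper67.FD

open Finset MeasureTheory Filter Topology

/-- the number of the binary digits -/
lemma dig_exists (Z : ℝ) (hZ : 1 ≤ Z) : ∃ k : ℕ, (2 : ℝ) ^ k ≤ 2 * Z ∧ Z ≤ 2 ^ k := by
  obtain ⟨k, hk⟩ : ∃ k, k = Nat.clog 2 ⌈Z⌉₊ := ⟨_, rfl⟩
  have h1 : ⌈Z⌉₊ ≤ 2 ^ k := by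
    rw [hk]
    exact Nat.le_pow_clog (by norm_num) _
  refine ⟨k, ?_, (Nat.le_ceil Z).trans (by exact_mod_cast h1)⟩
  rcases Nat.eq_zero_or_pos k with h0 | h0
  · rw [h0, pow_zero]
    linarith
  · have h2 : 1 < ⌈Z⌉₊ := by
      by_contra hcon
      have : Nat.clog 2 ⌈Z⌉₊ = 0 := Nat.clog_of_right_le_one (by omega) 2
      omega
    have h3 := Nat.pow_pred_clog_lt_self (by norm_num : 1 < 2) h2
    rw [← hk] at h3
    have h4 : ((2 ^ k.pred : ℕ) : ℝ) < Z := by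
      rw [Nat.lt_ceil] at h3
      exact_mod_cast h3
    have h5 : (2 : ℝ) ^ k = 2 * 2 ^ k.pred := by
      rw [← pow_succ']
      congr 1
      rw [Nat.pred_eq_sub_one]
      omega
    rw [h5]
    push_cast at h4
    linarith

lemma log_dig {Z : ℝ} (hZ : 1 ≤ Z) {k : ℕ} (hk : Z ≤ 2 ^ k) : Real.log Z ≤ k := by
  have h1 := Real.log_le_log (by linarith) hk
  rw [Real.log_pow] at h1
  have h2 : (k : ℝ) * Real.log 2 ≤ k * 1 :=
    mul_le_mul_of_nonneg_left (by linarith [Real.log_two_lt_d9]) (Nat.cast_nonneg k)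
  linarith

open Classical in
/-- from the masses to the measure -/
lemma fc_count (μ : Measure ℝ) [IsProbabilityMeasure μ] (hs : ∀ᵐ x ∂μ, 0 ≤ x ∧ x < 1) (Z : ℝ) (k : ℕ)
    (h1 : (2 : ℝ) ^ k ≤ 2 * Z) (h2 : Z ≤ 2 ^ k) (κ c : ℤ) (R : ℤ → Prop) :
    μ.real {x | ¬ R (c + κ * ⌊Z * x⌋)} =
      ∑ v ∈ range (2 ^ k), (if R (c + κ * (v : ℕ)) then 0 else μ.real {x | nz Z x = v}) := by
  have h3 := sum_nat μ (nz Z) (meas_nz Z) (2 ^ k) (nz_lt (pos_Z h1) h2) (fun v => ¬ R (c + κ * (v : ℕ)))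
  have h4 : ∑ v ∈ range (2 ^ k), (if R (c + κ * (v : ℕ)) then 0 else μ.real {x | nz Z x = v}) =
      ∑ v ∈ range (2 ^ k), (if ¬ R (c + κ * (v : ℕ)) then μ.real {x | nz Z x = v} else 0) := by
    refine sum_congr rfl fun v _ => ?_
    by_cases h : R (c + κ * (v : ℕ)) <;> simp [h]
  rw [h4, h3]
  apply measureReal_congr
  filter_upwards [hs] with x hx
  have h5 := nz_eq (pos_Z h1) hx.1 hx.2
  have : (x ∈ {x | ¬ R (c + κ * ⌊Z * x⌋)}) = (x ∈ {x | ¬ R (c + κ * ((nz Z x : ℕ) : ℤ))}) := by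
    simp only [Set.mem_ofPred_eq]
    rw [h5]
  exact this

open Classical in
/-- from the class to all the integers near almost all the values -/
theorem fd_trans {Θ : Type} {τ C₁ : ℝ} (κ : ℤ) (B W u : ℕ) (P : ℕ → Θ → Prop) (R : Θ → ℤ → Prop) (k₀ : ℕ)
    (H : ∀ k, k₀ ≤ k → ∀ ϑ, P k ϑ → ∀ p, FC τ C₁ k p → ∀ c : ℤ, |c| ≤ ((B + 1 : ℕ) : ℤ) * 2 ^ k →
      ∑ v ∈ range (2 ^ k), (if R ϑ (c + κ * (v : ℕ)) then 0 else p v) ≤ 1 / (k : ℝ) ^ (u + W + 1)) :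
    ∃ Z₀ : ℝ, 1 ≤ Z₀ ∧ ∀ Z : ℝ, Z₀ ≤ Z → ∀ k : ℕ, (2 : ℝ) ^ k ≤ 2 * Z → Z ≤ 2 ^ k → ∀ ϑ, P k ϑ → ∀ (μ : Measure ℝ)
      [IsProbabilityMeasure μ], FDec μ τ C₁ → (∀ᵐ x ∂μ, 0 ≤ x ∧ x < 1) → ∀ c₀ : ℤ, |(c₀ : ℝ)| ≤ B * Z →
      μ.real {x | ¬ ∀ q : ℤ, |(q : ℝ) - ((c₀ + κ * ⌊Z * x⌋ : ℤ) : ℝ)| ≤ Real.log Z ^ W → R ϑ q} ≤
        1 / Real.log Z ^ u := by
  have h1 := (isLittleO_log_rpow_atTop (r := (1 : ℝ) / (W + 1)) (by positivity)).bound (show (0 : ℝ) < 1 by norm_num)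
  obtain ⟨Z₁, hZ₁⟩ := eventually_atTop.1 (h1.and (eventually_ge_atTop (Real.exp 3)))
  refine ⟨max (max 1 Z₁) (2 ^ k₀), (le_max_left _ _).trans (le_max_left _ _), fun Z hZ k hk1 hk2 ϑ hϑ μ _ hμ hs c₀ hc₀ => ?_⟩
  have hZ1 : 1 ≤ Z := (le_max_left _ _).trans ((le_max_left _ _).trans hZ)
  obtain ⟨g1, g2⟩ := hZ₁ Z ((le_max_right _ _).trans ((le_max_left _ _).trans hZ))
  have hZk : (2 : ℝ) ^ k₀ ≤ Z := (le_max_right _ _).trans hZ
  have hZ0 : 0 < Z := by linarith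
  have hkk : k₀ ≤ k := by
    have : (2 : ℝ) ^ k₀ ≤ 2 ^ k := hZk.trans hk2
    exact (pow_le_pow_iff_right₀ (by norm_num : (1 : ℝ) < 2)).1 this
  have hL3 : 3 ≤ Real.log Z := by
    rw [Real.le_log_iff_exp_le hZ0]
    exact g2
  have hL0 : 0 < Real.log Z := by linarith
  have hLk := log_dig hZ1 hk2
  have hk0 : (0 : ℝ) < k := by linarith
  have hWZ : Real.log Z ^ W ≤ Z := by
    rw [Real.norm_of_nonneg hL0.le, Real.norm_of_nonneg (by positivity), one_mul] at g1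
    calc Real.log Z ^ W ≤ Real.log Z ^ (W + 1) := pow_le_pow_right₀ (by linarith) (by omega)
      _ ≤ (Z ^ ((1 : ℝ) / (W + 1))) ^ (W + 1) := pow_le_pow_left₀ hL0.le g1 _
      _ = Z := by
          rw [← Real.rpow_natCast, ← Real.rpow_mul hZ0.le]
          push_cast
          have : (1 : ℝ) / ((W : ℝ) + 1) * ((W : ℝ) + 1) = 1 := by field_simp
          rw [this, Real.rpow_one]
  obtain ⟨T, hT⟩ : ∃ T : ℕ, T = ⌊Real.log Z ^ W⌋₊ := ⟨_, rfl⟩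
  have hpW : 1 ≤ Real.log Z ^ W := one_le_pow₀ (by linarith)
  have hTr : (T : ℝ) ≤ Real.log Z ^ W := by
    rw [hT]
    exact Nat.floor_le (by positivity)
  obtain ⟨bad, hbad⟩ : ∃ bad : ℤ → Set ℝ, bad = fun t => {x | ¬ R ϑ ((c₀ + t) + κ * ⌊Z * x⌋)} := ⟨_, rfl⟩
  have hone : ∀ t ∈ Finset.Icc (-(T : ℤ)) T, μ.real (bad t) ≤ 1 / Real.log Z ^ (u + W + 1) := by
    intro t ht
    rw [Finset.mem_Icc, ← abs_le] at ht
    have h3 := H k hkk ϑ hϑ (fun v => μ.real {x | nz Z x = v}) ⟨μ, inferInstance, Z, hμ, hs, hk1, hk2, fun _ => rfl⟩ (c₀ + t) (by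
      have h4 : |((c₀ + t : ℤ) : ℝ)| ≤ ((B + 1 : ℕ) : ℝ) * 2 ^ k := by
        have h5 : |(t : ℝ)| ≤ T := by exact_mod_cast ht
        push_cast
        calc |(c₀ : ℝ) + t| ≤ |(c₀ : ℝ)| + |(t : ℝ)| := abs_add_le _ _
          _ ≤ B * Z + Z := add_le_add hc₀ (h5.trans (hTr.trans hWZ))
          _ = ((B : ℝ) + 1) * Z := by ring
          _ ≤ ((B : ℝ) + 1) * 2 ^ k := mul_le_mul_of_nonneg_left hk2 (by positivity)
      exact_mod_cast h4)
    rw [hbad]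
    simp only
    rw [fc_count μ hs Z k hk1 hk2 κ (c₀ + t) (R ϑ)]
    refine le_trans (le_of_eq ?_) (h3.trans ?_)
    · exact sum_congr rfl fun v _ => by congr!
    · apply one_div_le_one_div_of_le (by positivity)
      exact pow_le_pow_left₀ hL0.le hLk _
  have hsub : {x | ¬ ∀ q : ℤ, |(q : ℝ) - ((c₀ + κ * ⌊Z * x⌋ : ℤ) : ℝ)| ≤ Real.log Z ^ W → R ϑ q} ⊆
      ⋃ t ∈ Finset.Icc (-(T : ℤ)) T, bad t := by
    intro x hx
    simp only [Set.mem_ofPred_eq] at hx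
    push Not at hx
    obtain ⟨m, hm1, hm2⟩ := hx
    simp only [Set.mem_iUnion, exists_prop]
    refine ⟨m - (c₀ + κ * ⌊Z * x⌋), ?_, ?_⟩
    · rw [Finset.mem_Icc, ← abs_le]
      have h1 : (((m - (c₀ + κ * ⌊Z * x⌋)).natAbs : ℕ) : ℝ) ≤ Real.log Z ^ W := by
        rw [Nat.cast_natAbs]
        push_cast at hm1 ⊢
        exact hm1
      have h2 : (m - (c₀ + κ * ⌊Z * x⌋)).natAbs ≤ T := by
        rw [hT]
        exact Nat.le_floor h1
      rw [Int.abs_eq_natAbs]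
      exact_mod_cast h2
    · rw [hbad]
      simp only [Set.mem_ofPred_eq]
      rw [show c₀ + (m - (c₀ + κ * ⌊Z * x⌋)) + κ * ⌊Z * x⌋ = m by ring]
      exact hm2
  calc _ ≤ μ.real (⋃ t ∈ Finset.Icc (-(T : ℤ)) T, bad t) := measureReal_mono hsub (measure_ne_top _ _)
    _ ≤ ∑ t ∈ Finset.Icc (-(T : ℤ)) T, μ.real (bad t) := measureReal_biUnion_finset_le _ _
    _ ≤ ∑ _t ∈ Finset.Icc (-(T : ℤ)) T, 1 / Real.log Z ^ (u + W + 1) := sum_le_sum hone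
    _ = (2 * T + 1) * (1 / Real.log Z ^ (u + W + 1)) := by
        rw [sum_const, nsmul_eq_mul, Int.card_Icc]
        congr 1
        have : ((T : ℤ) + 1 - -(T : ℤ)).toNat = 2 * T + 1 := by omega
        rw [this]
        push_cast
        ring
    _ ≤ (Real.log Z ^ W * Real.log Z) * (1 / Real.log Z ^ (u + W + 1)) := by
        apply mul_le_mul_of_nonneg_right _ (by positivity)
        nlinarith
    _ = 1 / Real.log Z ^ u := by
        rw [show u + W + 1 = u + (W + 1) by ring, pow_add, pow_succ (Real.log Z) W]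
        field_simp

/-- from small exceptional sets to almost all points -/
theorem borel0 (μ : Measure ℝ) [IsProbabilityMeasure μ] (s : ℕ → Set ℝ) (g : ℕ → ℝ) (hg : Summable g)
    (hs : ∀ᶠ j in atTop, μ.real (s j) ≤ g j) : ∀ᵐ t ∂μ, ∀ᶠ j in atTop, t ∉ s j := by
  apply ae_eventually_notMem
  obtain ⟨J, hJ⟩ := eventually_atTop.1 hs
  have hb : ∀ j, μ (s j) ≤ ENNReal.ofReal (|g j| + if j < J then 1 else 0) := by
    intro j
    by_cases hj : j < J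
    · rw [if_pos hj]
      calc μ (s j) ≤ 1 := prob_le_one
        _ = ENNReal.ofReal 1 := by simp
        _ ≤ _ := ENNReal.ofReal_le_ofReal (by linarith [abs_nonneg (g j)])
    · rw [if_neg hj, add_zero]
      have h1 := hJ j (by omega)
      rw [← ENNReal.ofReal_toReal (measure_ne_top μ (s j))]
      exact ENNReal.ofReal_le_ofReal (h1.trans (le_abs_self _))
  have hsum2 : Summable (fun j => |g j| + if j < J then (1 : ℝ) else 0) := by
    refine hg.abs.add ?_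
    apply summable_of_ne_finset_zero (s := Finset.range J)
    intro j hj
    rw [Finset.mem_range] at hj
    rw [if_neg hj]
  have h2 : ∑' j, μ (s j) ≤ ∑' j, ENNReal.ofReal (|g j| + if j < J then 1 else 0) :=
    ENNReal.tsum_le_tsum hb
  exact ne_top_of_le_ne_top hsum2.tsum_ofReal_ne_top h2

/-- the case of sequences of at least stretched exponential growth -/
theorem borel_exp (μ : Measure ℝ) [IsProbabilityMeasure μ] (s : ℕ → Set ℝ) (a : ℕ → ℝ) (δ : ℝ) (hδ : 0 < δ)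
    (ha : ∀ᶠ j : ℕ in atTop, Real.exp ((j : ℝ) ^ δ) ≤ a j) (u : ℕ) (hu : 2 ≤ δ * u) (Z₀ : ℝ)
    (hs : ∀ j, Z₀ ≤ a j → μ.real (s j) ≤ 1 / Real.log (a j) ^ u) : ∀ᵐ t ∂μ, ∀ᶠ j in atTop, t ∉ s j := by
  refine borel0 μ s (fun j : ℕ => 1 / (j : ℝ) ^ 2) (Real.summable_one_div_nat_pow.2 (by norm_num)) ?_
  have h1 : Tendsto (fun j : ℕ => Real.exp ((j : ℝ) ^ δ)) atTop atTop :=
    Real.tendsto_exp_atTop.comp ((tendsto_rpow_atTop hδ).comp tendsto_natCast_atTop_atTop)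
  filter_upwards [ha, h1.eventually_ge_atTop Z₀, eventually_ge_atTop 1] with j h2 h3 hj
  refine (hs j (h3.trans h2)).trans ?_
  have hj1 : (1 : ℝ) ≤ j := by exact_mod_cast hj
  have hj0 : (0 : ℝ) < j := by linarith
  have h4 : (j : ℝ) ^ δ ≤ Real.log (a j) := by
    rw [Real.le_log_iff_exp_le (lt_of_lt_of_le (Real.exp_pos _) h2)]
    exact h2
  apply one_div_le_one_div_of_le (by positivity)
  calc (j : ℝ) ^ 2 = (j : ℝ) ^ (2 : ℝ) := by norm_cast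
    _ ≤ (j : ℝ) ^ (δ * u) := Real.rpow_le_rpow_of_exponent_le hj1 hu
    _ = ((j : ℝ) ^ δ) ^ u := by rw [Real.rpow_mul hj0.le, Real.rpow_natCast]
    _ ≤ Real.log (a j) ^ u := pow_le_pow_left₀ (by positivity) h4 u

end Pool.Agent.W2helper67.FD
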