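import Pool.Agent.W2helper67.FD.Tl
import Pool.Agent.W2helper67.FD.Tr
import Pool.Agent.Y958.RM.Main
import Pool.Agent.Y958.RM.Cor
import Pool.Agent.R501.LP1

/-!
# The values `c₀ + κ ⌊Z x⌋` as moduli: the variance of the primes in the residue classes, least primes
-/

set_option autoImplicit false

namespace Pool.Agent.W2helper67.FD

open Finset Real Filter Topology
open MeasureTheory (Measure IsProbabilityMeasure)
open Pool.Agent.Y885 (TLaw)
open Pool.Agent.Y958.RM (BadQ eH)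
open Pool.Agent.R501.LP (LpG)

open Classical in
/-- the variance for the moduli `cc + κ v`, in terms of the class -/
theorem FC_badq {τ : ℝ} (hτ : 0 < τ) (C₁ : ℝ) (κ : ℤ) (hκ : κ ≠ 0) (e₀ A U : ℕ) (η : ℝ) (hη : 0 < η) (hη1 : η ≤ 1) :
    ∃ m₀ : ℕ, ∀ m : ℕ, m₀ ≤ m → ∀ p, FC τ C₁ m p → ∀ cc : ℤ,
    (∀ v : ℕ, v < 2 ^ m → |cc + κ * (v : ℕ)| ≤ 2 ^ (m + e₀)) →
    ∑ v ∈ range (2 ^ m), (if BadQ η A (m + e₀) 2 (cc + κ * (v : ℕ)) then p v else 0) ≤ 1 / ((m : ℕ) : ℝ) ^ U := by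
  obtain ⟨V, hV⟩ := Pool.Agent.Y958.RM.main Pool.Agent.Y958.RM.cor A U 2 3 le_rfl (by norm_num)
  obtain ⟨H, hH⟩ : ∃ H, H = 2 * (A + 1) := ⟨_, rfl⟩
  rw [← hH] at hV
  obtain ⟨C₀, m₁, h1⟩ := FC_tlaw hτ C₁ κ hκ (H * 2 + e₀ + 4) V
  obtain ⟨k₀, h2⟩ := hV η hη hη1 C₀
  refine ⟨m₁ + k₀ + e₀ + 4, fun m hm p hp cc hcc => ?_⟩
  have hsum := FC_sum hp
  -- the sizes
  obtain ⟨e, he⟩ : ∃ e, e = eH 2 H (m + e₀) := ⟨_, rfl⟩
  have hm4 : 4 ≤ m := by omega
  have hpow : 2 ^ (e + 1) ≤ 8 * (m + e₀) ^ H := by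
    have h3 : (m + e₀) ^ H ≠ 0 := by
      apply pow_ne_zero
      omega
    have h4 := Nat.pow_log_le_self 2 h3
    rw [he]
    unfold eH
    rw [show Nat.log 2 ((m + e₀) ^ H) + 2 + 1 = Nat.log 2 ((m + e₀) ^ H) + 3 by ring, pow_add]
    omega
  have hpow2 : 8 * (m + e₀) ^ H ≤ m ^ (H * 2 + 2) := by
    have h3 : m + e₀ ≤ m ^ 2 := by nlinarith
    calc 8 * (m + e₀) ^ H ≤ m ^ 2 * (m ^ 2) ^ H := by
          apply Nat.mul_le_mul _ (Nat.pow_le_pow_left h3 H)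
          nlinarith
      _ = m ^ (H * 2 + 2) := by rw [← pow_mul, ← pow_add]; congr 1; ring
  have h2e0 : 2 ^ e₀ ≤ m ^ e₀ := Nat.pow_le_pow_left (by omega) e₀
  have key := h2 (m + e₀) (by omega) ℕ (range (2 ^ m)) p (fun v => cc + κ * (v : ℕ)) hsum (fun g hg1 hg2 => by
      rw [← he] at hg2 ⊢
      rw [show m + e₀ + e = m + (e₀ + e) by ring]
      refine h1 m (by omega) p hp (e₀ + e) g ?_ hg1 ?_ cc _ rfl
      · rw [pow_add]
        calc 2 ^ e₀ * 2 ^ e ≤ m ^ e₀ * m ^ (H * 2 + 2) := by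
              apply Nat.mul_le_mul h2e0
              refine le_trans ?_ (hpow.trans hpow2)
              exact Nat.pow_le_pow_right (by norm_num) (by omega)
          _ = m ^ (e₀ + (H * 2 + 2)) := by rw [← pow_add]
          _ ≤ m ^ (H * 2 + e₀ + 4) := Nat.pow_le_pow_right (by omega) (by omega)
      · have h3 : g < 2 ^ (e + 1) := by
          have h4 := Nat.lt_pow_succ_log_self (b := 2) (by norm_num) g
          exact lt_of_lt_of_le h4 (Nat.pow_le_pow_right (by norm_num) (by omega))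
        calc g ≤ 2 ^ (e + 1) := h3.le
          _ ≤ m ^ (H * 2 + 2) := hpow.trans hpow2
          _ ≤ m ^ (H * 2 + e₀ + 4) := Nat.pow_le_pow_right (by omega) (by omega))
    (fun v hv => by
      rw [mem_range] at hv
      exact_mod_cast hcc v hv)
    (fun v => BadQ η A (m + e₀) 2 (cc + κ * (v : ℕ))) (fun _ => Classical.propDecidable _) (fun v _ hb => ?_)
  · refine le_trans (le_of_eq ?_) (key.trans ?_)
    · congr!
    · apply one_div_le_one_div_of_le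
      · have : (0 : ℝ) < m := by exact_mod_cast (by omega : 0 < m)
        positivity
      · apply pow_le_pow_left₀ (Nat.cast_nonneg _)
        exact_mod_cast (by omega : m ≤ m + e₀)
  · obtain ⟨g1, y, g2, g3, g4⟩ := hb
    refine ⟨by exact_mod_cast g1, y, g2, g3, g4⟩

/-- the property of the modulus for different exponents -/
lemma LpG_mono {η : ℝ} {A A' Q : ℕ} (hA : A ≤ A') (hQ : 3 ≤ Q) (h : LpG η A' Q) : LpG η A Q := by
  intro x hx1 hx2
  apply h x hx1 (hx2.trans _)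
  apply mul_le_mul_of_nonneg_left _ (Nat.cast_nonneg _)
  have hQ3 : (3 : ℝ) ≤ Q := by exact_mod_cast hQ
  have hlog1 : 1 ≤ Real.log Q := by
    rw [Real.le_log_iff_exp_le (by linarith)]
    have := Real.exp_one_lt_d9
    linarith
  exact pow_le_pow_right₀ hlog1 hA

open Classical in
/-- least primes for almost all the positive moduli -/
theorem FC_lp {τ : ℝ} (hτ : 0 < τ) (C₁ : ℝ) (κ : ℤ) (hκ : κ ≠ 0) (e₀ A U : ℕ) (η : ℝ) (hη : 0 < η) (hη1 : η ≤ 1) :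
    ∃ m₀ : ℕ, ∀ m : ℕ, m₀ ≤ m → ∀ p, FC τ C₁ m p → ∀ cc : ℤ,
    (∀ v : ℕ, v < 2 ^ m → |cc + κ * (v : ℕ)| ≤ 2 ^ (m + e₀)) →
    ∑ v ∈ range (2 ^ m), (if (0 < cc + κ * (v : ℕ) → LpG η A (cc + κ * (v : ℕ)).toNat) then 0 else p v) ≤
      1 / ((m : ℕ) : ℝ) ^ U := by
  obtain ⟨W, K₁, hanti⟩ := (FC_clsV hτ C₁ κ hκ).toCls.anti e₀ U
  obtain ⟨B, hB⟩ : ∃ B, B = max A (W + 1) := ⟨_, rfl⟩
  obtain ⟨m₁, hbad⟩ := FC_badq hτ C₁ κ hκ e₀ (B + 1) (U + 1) (η / 4) (by linarith) (by linarith)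
  obtain ⟨k₀, hlp⟩ := Pool.Agent.R501.LP.badq_of_lp 2 0 B le_rfl η hη hη1
  obtain ⟨k₂, hk₂⟩ : ∃ k₂ : ℕ, ∀ k : ℕ, k₂ ≤ k → 3 * (k : ℝ) ^ B < (2 : ℝ) ^ k := by
    have h := (isLittleO_pow_const_const_pow_of_one_lt (R := ℝ) B (by norm_num : (1 : ℝ) < 2)).bound
      (show (0 : ℝ) < 1 / 6 by norm_num)
    obtain ⟨x1, hx1⟩ := eventually_atTop.1 h
    refine ⟨x1, fun k hk => ?_⟩
    have h3 := hx1 k hk
    have hbk : (0 : ℝ) < (2 : ℝ) ^ k := by positivity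
    rw [Real.norm_of_nonneg (by positivity), Real.norm_of_nonneg hbk.le] at h3
    linarith
  refine ⟨K₁ + m₁ + k₀ + k₂ + 4, fun m hm p hp cc hcc => ?_⟩
  obtain ⟨K, hK⟩ : ∃ K, K = m + e₀ := ⟨_, rfl⟩
  have hm1 : (1 : ℝ) ≤ m := by exact_mod_cast (by omega : 1 ≤ m)
  have hm0 : (0 : ℝ) < m := by linarith
  have hmK : (m : ℝ) ≤ K := by exact_mod_cast (by omega : m ≤ K)
  have hK1 : (1 : ℝ) ≤ K := by linarith
  obtain ⟨Sm, hSm⟩ : ∃ Sm : ℕ → Prop, Sm = fun v => 1 ≤ cc + κ * (v : ℕ) ∧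
      ((cc + κ * (v : ℕ) : ℤ) : ℝ) < ((2 ^ K : ℕ) : ℝ) / Real.log ((2 ^ K : ℕ) : ℝ) ^ (W + 1) := ⟨_, rfl⟩
  have h1 := hanti K (by omega) m hK p hp cc Sm (fun v _ hv => by rw [hSm] at hv; exact hv)
  have h2 := hbad m (by omega) p hp cc hcc
  rw [← hK] at h2
  have hlogK : Real.log ((2 ^ K : ℕ) : ℝ) ≤ K := by
    push_cast
    rw [Real.log_pow]
    nlinarith [Real.log_two_lt_d9]
  have hlogK0 : 0 < Real.log ((2 ^ K : ℕ) : ℝ) := by
    push_cast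
    rw [Real.log_pow]
    have := Real.log_two_gt_d9
    positivity
  have hpt : ∀ v ∈ range (2 ^ m), (if (0 < cc + κ * (v : ℕ) → LpG η A (cc + κ * (v : ℕ)).toNat) then 0 else p v) ≤
      (if Sm v then p v else 0) + (if BadQ (η / 4) (B + 1) K 2 (cc + κ * (v : ℕ)) then p v else 0) := by
    intro v hv
    rw [mem_range] at hv
    have hp0 := FC_nonneg hp v
    have ha0 : 0 ≤ (if Sm v then p v else 0) := by split_ifs <;> simp [hp0]
    have hb0 : 0 ≤ (if BadQ (η / 4) (B + 1) K 2 (cc + κ * (v : ℕ)) then p v else 0) := by split_ifs <;> simp [hp0]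
    by_cases hgood : (0 < cc + κ * (v : ℕ) → LpG η A (cc + κ * (v : ℕ)).toNat)
    · rw [if_pos hgood]
      linarith
    · rw [if_neg hgood]
      push Not at hgood
      obtain ⟨hpos, hnot⟩ := hgood
      by_cases hs : Sm v
      · rw [if_pos hs]
        linarith
      · obtain ⟨Q, hQ⟩ : ∃ Q : ℤ, Q = cc + κ * (v : ℕ) := ⟨_, rfl⟩
        have hle := hcc v hv
        rw [hSm] at hs
        push Not at hs
        rw [← hQ] at hpos hnot hs hle hb0 ⊢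
        have hlow := hs (by omega)
        rw [div_le_iff₀ (by positivity)] at hlow
        have hQ0 : (0 : ℝ) < Q := by exact_mod_cast hpos
        have hlow2 : (2 : ℝ) ^ K ≤ Q * (K : ℝ) ^ B := by
          push_cast at hlow
          refine hlow.trans (mul_le_mul_of_nonneg_left ?_ hQ0.le)
          calc Real.log ((2 : ℝ) ^ K) ^ (W + 1) ≤ (K : ℝ) ^ (W + 1) := by
                apply pow_le_pow_left₀
                · push_cast at hlogK0
                  exact hlogK0.le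
                · push_cast at hlogK
                  exact hlogK
            _ ≤ (K : ℝ) ^ B := pow_le_pow_right₀ hK1 (by rw [hB]; exact le_max_right _ _)
        have hQ3 : 3 ≤ Q.toNat := by
          have h5 := hk₂ K (by omega)
          have h6 : (3 : ℝ) * (K : ℝ) ^ B < Q * (K : ℝ) ^ B := lt_of_lt_of_le h5 hlow2
          have h7 : (3 : ℝ) < Q := lt_of_mul_lt_mul_right h6 (by positivity)
          have h8 : (3 : ℤ) < Q := by exact_mod_cast h7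
          omega
        have hbad2 : BadQ (η / 4) (B + 1) K 2 Q := by
          apply hlp K (by omega) Q
          · push_cast
            exact_mod_cast hlow2
          · rw [add_zero, hK]
            push_cast
            exact (le_abs_self Q).trans hle
          · exact fun hcon => hnot (LpG_mono (by rw [hB]; exact le_max_left _ _) hQ3 hcon)
        rw [if_pos hbad2]
        linarith
  refine (sum_le_sum hpt).trans ?_
  rw [sum_add_distrib]
  refine (add_le_add h1 h2).trans ?_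
  have h5 : 1 / (K : ℝ) ^ (U + 1) ≤ 1 / (m : ℝ) ^ (U + 1) := by
    apply one_div_le_one_div_of_le (by positivity)
    exact pow_le_pow_left₀ hm0.le hmK _
  have hm2 : (2 : ℝ) ≤ m := by exact_mod_cast (by omega : 2 ≤ m)
  calc 1 / (K : ℝ) ^ (U + 1) + 1 / (m : ℝ) ^ (U + 1) ≤ 2 / (m : ℝ) ^ (U + 1) := by
        have : 2 / (m : ℝ) ^ (U + 1) = 1 / (m : ℝ) ^ (U + 1) + 1 / (m : ℝ) ^ (U + 1) := by ring
        linarith
    _ ≤ 1 / (m : ℝ) ^ U := by
        rw [div_le_div_iff₀ (by positivity) (by positivity), pow_succ]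
        have : 0 < (m : ℝ) ^ U := by positivity
        nlinarith

open Classical in
/-- least primes for all the positive moduli near almost all the values -/
theorem fd_lp {τ : ℝ} (hτ : 0 < τ) (C₁ : ℝ) (κ : ℤ) (hκ : κ ≠ 0) (A W u B : ℕ) (η : ℝ) (hη : 0 < η) (hη1 : η ≤ 1) :
    ∃ Z₀ : ℝ, ∀ Z : ℝ, Z₀ ≤ Z → ∀ (μ : Measure ℝ) [IsProbabilityMeasure μ], FDec μ τ C₁ → (∀ᵐ x ∂μ, 0 ≤ x ∧ x < 1) →
      ∀ c₀ : ℤ, |(c₀ : ℝ)| ≤ B * Z →
      μ.real {x | ¬ ∀ q : ℤ, |(q : ℝ) - ((c₀ + κ * ⌊Z * x⌋ : ℤ) : ℝ)| ≤ Real.log Z ^ W → 0 < q → LpG η A q.toNat} ≤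
        1 / Real.log Z ^ u := by
  obtain ⟨e₀, he₀⟩ : ∃ e₀, e₀ = κ.natAbs + (B + 1) := ⟨_, rfl⟩
  obtain ⟨m₀, h1⟩ := FC_lp hτ C₁ κ hκ e₀ A (u + W + 1) η hη hη1
  obtain ⟨Z₀, hZ₀1, h2⟩ := fd_trans (Θ := Unit) (τ := τ) (C₁ := C₁) κ B W u (fun _ _ => True)
    (fun _ q => 0 < q → LpG η A q.toNat) m₀ (fun k hk _ _ p hp c hc => by
      refine (le_of_eq (by congr!)).trans (h1 k hk p hp c (fun w hw => ?_))
      have hpos : (0 : ℤ) < (2 : ℤ) ^ k := by positivity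
      have h5 : ((e₀ : ℕ) : ℤ) ≤ (2 : ℤ) ^ e₀ := by exact_mod_cast Nat.lt_two_pow_self.le
      calc |c + κ * (w : ℕ)| ≤ |c| + |κ * (w : ℕ)| := abs_add_le _ _
        _ ≤ ((B + 1 : ℕ) : ℤ) * (2 : ℤ) ^ k + κ.natAbs * (2 : ℤ) ^ k := by
            apply add_le_add hc
            rw [abs_mul, Int.abs_eq_natAbs κ, Nat.abs_cast]
            apply mul_le_mul_of_nonneg_left _ (Nat.cast_nonneg _)
            exact_mod_cast hw.le
        _ = ((e₀ : ℕ) : ℤ) * (2 : ℤ) ^ k := by rw [he₀]; push_cast; ring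
        _ ≤ (2 : ℤ) ^ e₀ * (2 : ℤ) ^ k := mul_le_mul_of_nonneg_right h5 hpos.le
        _ = 2 ^ (k + e₀) := by rw [pow_add]; ring)
  refine ⟨Z₀, fun Z hZ μ _ hμ hs c₀ hc₀ => ?_⟩
  obtain ⟨k, hk1, hk2⟩ := dig_exists Z (hZ₀1.trans hZ)
  exact h2 Z hZ k hk1 hk2 () trivial μ hμ hs c₀ hc₀

end Pool.Agent.W2helper67.FD
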