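import Pool.Agent.W2helper67.FD.Tl15
import Pool.Agent.W2helper67.FD.Tr
import Pool.Agent.N625.PT.K
import Pool.Agent.N625.PT.G

set_option autoImplicit false

/-!
Hooley's variance conjecture for all the multiples of all the moduli near the values `c₀ + κ ⌊Z x⌋`.
-/

namespace Pool.Agent.W2helper67.FD

open Finset MeasureTheory Filter Topology
open Pool.Agent.N625.PT (TCls)

open Classical in
/-- a property of all the multiples of the integers near almost all the values -/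
theorem fd_mult {τ : ℝ} (C₁ : ℝ) (κ : ℤ) (J W u B : ℕ) (P : ℕ → Prop)
    (h1 : ∃ k₀ : ℕ, ∀ k : ℕ, k₀ ≤ k → ∀ p, FC τ C₁ k p → ∀ c : ℤ, |c| ≤ ((B + 1 : ℕ) : ℤ) * (2 : ℤ) ^ k →
      ∑ v ∈ range (2 ^ k), (if ∀ q : ℕ, 1 ≤ q → |(q : ℤ) - (c + κ * v)| ≤ (k : ℤ) ^ W → ∀ h : ℕ, 1 ≤ h → h ≤ k ^ J →
        P (h * q) then 0 else p v) ≤ 1 / (k : ℝ) ^ (u + 1)) :
    ∃ Z₀ : ℝ, ∀ Z : ℝ, Z₀ ≤ Z → ∀ (μ : Measure ℝ) [IsProbabilityMeasure μ], FDec μ τ C₁ → (∀ᵐ x ∂μ, 0 ≤ x ∧ x < 1) →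
      ∀ c₀ : ℤ, |(c₀ : ℝ)| ≤ B * Z →
      μ.real {x | ¬ ∀ q : ℕ, 1 ≤ q → |(q : ℝ) - ((c₀ + κ * ⌊Z * x⌋ : ℤ) : ℝ)| ≤ Real.log Z ^ W →
        ∀ h : ℕ, 1 ≤ h → (h : ℝ) ≤ Real.log Z ^ J → P (h * q)} ≤ 1 / Real.log Z ^ u := by
  obtain ⟨k₀, h1⟩ := h1
  obtain ⟨Z₁, hZ₁1, H⟩ := fd_trans (Θ := ℕ) (τ := τ) (C₁ := C₁) κ B 0 u (fun k ϑ => ϑ = k)
    (fun ϑ y => ∀ q : ℕ, 1 ≤ q → |(q : ℤ) - y| ≤ (ϑ : ℤ) ^ W → ∀ h : ℕ, 1 ≤ h → h ≤ ϑ ^ J → P (h * q)) k₀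
    (fun k hk ϑ hϑ p hp c hc => by
      rw [hϑ]
      refine (le_of_eq (by congr!)).trans (h1 k hk p hp c hc))
  refine ⟨Z₁, fun Z hZ μ _ hμ hs c₀ hc₀ => ?_⟩
  have h1Z : 1 ≤ Z := hZ₁1.trans hZ
  obtain ⟨k, hk1, hk2⟩ := dig_exists Z h1Z
  have hLk := log_dig h1Z hk2
  have hL0 := Real.log_nonneg h1Z
  have h3 := H Z hZ k hk1 hk2 k rfl μ hμ hs c₀ hc₀
  refine le_trans (measureReal_mono (fun x hx => ?_) (measure_ne_top _ _)) h3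
  simp only [Set.mem_ofPred_eq] at hx ⊢
  intro hcon
  apply hx
  intro q hq1 hq h hh1 hh2
  refine hcon (c₀ + κ * ⌊Z * x⌋) (by rw [sub_self, abs_zero, pow_zero]; norm_num) q hq1 ?_ h hh1 ?_
  · have h2 : ((|(q : ℤ) - (c₀ + κ * ⌊Z * x⌋)| : ℤ) : ℝ) ≤ ((((k : ℕ) : ℤ) ^ W : ℤ) : ℝ) := by
      push_cast
      push_cast at hq
      exact hq.trans (pow_le_pow_left₀ hL0 hLk W)
    exact_mod_cast h2
  · have h2 : (h : ℝ) ≤ ((k ^ J : ℕ) : ℝ) := by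
      push_cast
      exact hh2.trans (pow_le_pow_left₀ hL0 hLk J)
    exact_mod_cast h2

/-- consequences of Hooley's conjecture for all the multiples of all the moduli near almost all the values -/
theorem fd_var {τ : ℝ} (hτ : 0 < τ) (C₁ : ℝ) (κ : ℤ) (hκ : κ ≠ 0) (J W T u B : ℕ) (ε : ℝ) (hε : 0 < ε) (hε1 : ε ≤ 1)
    (P : ℕ → Prop) (Q₀ : ℕ)
    (hP : ∀ Q : ℕ, Q₀ ≤ Q → (∀ x : ℝ, (Q : ℝ) ≤ x → x ≤ Q * Real.log Q ^ T →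
      |Pool.Agent.TH894.PV.G x Q - x * Real.log Q| ≤ ε * (x * Real.log Q)) → P Q) :
    ∃ Z₀ : ℝ, ∀ Z : ℝ, Z₀ ≤ Z → ∀ (μ : Measure ℝ) [IsProbabilityMeasure μ], FDec μ τ C₁ → (∀ᵐ x ∂μ, 0 ≤ x ∧ x < 1) →
      ∀ c₀ : ℤ, |(c₀ : ℝ)| ≤ B * Z →
      μ.real {x | ¬ ∀ q : ℕ, 1 ≤ q → |(q : ℝ) - ((c₀ + κ * ⌊Z * x⌋ : ℤ) : ℝ)| ≤ Real.log Z ^ W →
        ∀ h : ℕ, 1 ≤ h → (h : ℝ) ≤ Real.log Z ^ J → P (h * q)} ≤ 1 / Real.log Z ^ u := by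
  classical
  refine fd_mult C₁ κ J W u B P ?_
  obtain ⟨k₀, h1⟩ := Pool.Agent.N625.PT.t_var (FC_tcls hτ C₁ κ hκ) (B + 1) J W T (u + 1) ε hε hε1 P Q₀ hP
  refine ⟨k₀, fun k hk p hp c hc => ?_⟩
  have h2 := h1 k hk p hp c (by exact_mod_cast hc)
  refine (le_of_eq (by congr!)).trans h2

end Pool.Agent.W2helper67.FD
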