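import Pool.Agent.W2helper67.FD.Tup

set_option autoImplicit false

/-!
Exact patterns of primes near the vectors `c j + κ j ⌊Z x j⌋`, at all the scales at once.
-/

namespace Pool.Agent.W2helper67.FD

open Finset MeasureTheory Filter Topology
open Pool.Agent.W2helper30.CF (HLf HLf_mono ex_lower PatGood IntGood int_of pat ev_logN nuT singT exactT exactT_mono)

/-- exact patterns for almost all vectors -/
theorem fd_pat (s : ℕ) (hs1 : 1 ≤ s) : ∃ c₀ : ℝ, 0 < c₀ ∧ ∀ (τ : ℝ), 0 < τ → ∀ (C₁ : ℝ) (κ : Fin s → ℤ),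
    (∀ j, κ j ≠ 0) → ∀ (r B W : ℕ) (η : ℝ), 0 < η → ∃ n₀ : ℕ, ∀ N : ℕ, n₀ ≤ N → ∀ Z : Fin s → ℝ, (∀ j, 1 ≤ Z j) →
    (∀ j, Z j ≤ B * N) → (∀ j, (N : ℝ) ≤ Z j * Real.log (Z j) ^ r) →
    ∀ (μ : Fin s → Measure ℝ) [∀ j, IsProbabilityMeasure (μ j)], (∀ j, FDec (μ j) τ C₁) →
    (∀ j, ∀ᵐ x ∂(μ j), 0 ≤ x ∧ x < 1) → ∀ c : Fin s → ℤ, (∀ j, |(c j : ℝ)| ≤ B * N) →
    (Measure.pi μ).real {x | (∀ j, 0 ≤ c j + κ j * ⌊Z j * x j⌋) ∧
      ¬ PatGood c₀ η N (fun _ => 1) (fun j => c j + κ j * ⌊Z j * x j⌋)} ≤ 1 / Real.log N ^ W := by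
  classical
  choose! cc hcc hfam using fun t (ht : 1 ≤ t) => fd_tup t ht
  obtain ⟨c₀, hc₀, hlow⟩ := ex_lower cc hcc s
  refine ⟨c₀, hc₀, fun τ hτ C₁ κ hκ r B W η hη => ?_⟩
  obtain ⟨η', hη', n₀, hpat⟩ := pat s c₀ η hc₀ hη
  have hT1 : ∀ T : Finset (Fin s), T.Nonempty → 1 ≤ T.card := fun T hT => hT.card_pos
  choose! M₁ hM₁ using fun (T : Finset (Fin s)) (hT : T.Nonempty) =>
    hfam T.card (hT1 T hT) s τ hτ C₁ κ hκ r B (W + 1) η' hη'
  obtain ⟨n₁, hn₁⟩ := Pool.Agent.H373R2.T7.ev_L' ((2 : ℝ) ^ s)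
  refine ⟨∑ T, M₁ T + n₀ + n₁ + 2, fun N hN Z hZ1 hZB hNZ μ _ hμ hs c hc => ?_⟩
  have hMT : ∀ T : Finset (Fin s), M₁ T ≤ ∑ T, M₁ T := fun T =>
    single_le_sum (f := M₁) (fun _ _ => Nat.zero_le _) (mem_univ T)
  have hLs := hn₁ N (by omega)
  have hL0 : 0 < Real.log (N : ℝ) := Real.log_pos (by exact_mod_cast (by omega : 1 < N))
  have hsub : {x : Fin s → ℝ | (∀ j, 0 ≤ c j + κ j * ⌊Z j * x j⌋) ∧
        ¬ PatGood c₀ η N (fun _ => 1) (fun j => c j + κ j * ⌊Z j * x j⌋)} ⊆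
      ⋃ T ∈ univ.filter (fun T : Finset (Fin s) => T.Nonempty), {x : Fin s → ℝ | (∀ j, 0 ≤ c j + κ j * ⌊Z j * x j⌋) ∧
        ¬ HLf (cc T.card) η' N (fun _ => 1) (fun a => c (T.orderEmbOfFin rfl a) + κ (T.orderEmbOfFin rfl a) *
          ⌊Z (T.orderEmbOfFin rfl a) * x (T.orderEmbOfFin rfl a)⌋)} := by
    intro x hx
    obtain ⟨hx2, hx3⟩ := hx
    simp only [Set.mem_iUnion, exists_prop]
    by_contra hcon
    push Not at hcon
    apply hx3
    refine hpat N (by omega) (fun _ => 1) _ (fun j => le_rfl) (fun T hT => ?_)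
    have h1 := hcon T (mem_filter.2 ⟨mem_univ _, hT⟩)
    simp only [Set.mem_ofPred_eq] at h1
    push Not at h1
    have h2 := h1 hx2
    refine HLf_mono (hlow T.card (hT1 T hT) ?_) h2
    have := card_le_univ T
    rw [Fintype.card_fin] at this
    exact this
  refine (measureReal_mono hsub (measure_ne_top _ _)).trans ((measureReal_biUnion_finset_le _ _).trans ?_)
  calc _ ≤ ∑ _T ∈ univ.filter (fun T : Finset (Fin s) => T.Nonempty), 1 / Real.log N ^ (W + 1) := by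
        apply sum_le_sum
        intro T hT
        rw [mem_filter] at hT
        exact hM₁ T hT.2 N (by have := hMT T; omega) Z hZ1 hZB hNZ μ hμ hs c hc
          (T.orderEmbOfFin rfl) (T.orderEmbOfFin rfl).injective
    _ = ((univ.filter (fun T : Finset (Fin s) => T.Nonempty)).card : ℝ) * (1 / Real.log N ^ (W + 1)) := by
        rw [sum_const, nsmul_eq_mul]
    _ ≤ Real.log N * (1 / Real.log N ^ (W + 1)) := by
        apply mul_le_mul_of_nonneg_right _ (by positivity)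
        refine le_trans ?_ hLs
        have h1 : (univ.filter (fun T : Finset (Fin s) => T.Nonempty)).card ≤ 2 ^ s := by
          refine (card_filter_le _ _).trans (le_of_eq ?_)
          rw [card_univ, Fintype.card_finset, Fintype.card_fin]
        exact_mod_cast h1
    _ = 1 / Real.log N ^ W := by
        rw [pow_succ]
        field_simp

/-- exact patterns for all the vectors near almost all vectors -/
theorem fd_near (s : ℕ) (hs1 : 1 ≤ s) : ∃ c₀ : ℝ, 0 < c₀ ∧ ∀ (τ : ℝ), 0 < τ → ∀ (C₁ : ℝ) (κ : Fin s → ℤ),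
    (∀ j, κ j ≠ 0) → ∀ (r B W A : ℕ) (η : ℝ), 0 < η → ∃ n₀ : ℕ, ∀ N : ℕ, n₀ ≤ N → ∀ Z : Fin s → ℝ, (∀ j, 1 ≤ Z j) →
    (∀ j, Z j ≤ B * N) → (∀ j, (N : ℝ) ≤ Z j * Real.log (Z j) ^ r) →
    ∀ (μ : Fin s → Measure ℝ) [∀ j, IsProbabilityMeasure (μ j)], (∀ j, FDec (μ j) τ C₁) →
    (∀ j, ∀ᵐ x ∂(μ j), 0 ≤ x ∧ x < 1) → ∀ c : Fin s → ℤ, (∀ j, |(c j : ℝ)| ≤ B * N) →
    (Measure.pi μ).real {x | ¬ ∀ h : Fin s → ℤ,
      (∀ j, |(h j : ℝ) - ((c j + κ j * ⌊Z j * x j⌋ : ℤ) : ℝ)| ≤ Real.log N ^ A) → (∀ j, 0 ≤ h j) →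
      PatGood c₀ η N (fun _ => 1) h} ≤ 1 / Real.log N ^ W := by
  classical
  obtain ⟨c₀, hc₀, hfam⟩ := fd_pat s hs1
  refine ⟨c₀, hc₀, fun τ hτ C₁ κ hκ r B W A η hη => ?_⟩
  obtain ⟨M₁, hM₁⟩ := hfam τ hτ C₁ κ hκ r (B + 1) (W + (A + 1) * s) η hη
  obtain ⟨n₀, hn₀⟩ := ev_logN A
  refine ⟨M₁ + n₀ + 2, fun N hN Z hZ1 hZB hNZ μ _ hμ hs c hc => ?_⟩
  obtain ⟨hL3, hLA⟩ := hn₀ N (by omega)
  obtain ⟨L, hL⟩ : ∃ L, L = Real.log (N : ℝ) := ⟨_, rfl⟩
  rw [← hL] at hL3 hLA ⊢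
  have hL0 : 0 < L := by linarith
  have hN0 : (0 : ℝ) ≤ N := Nat.cast_nonneg _
  obtain ⟨m, hm⟩ : ∃ m : ℕ, m = ⌊L ^ A⌋₊ := ⟨_, rfl⟩
  have hm1 : (m : ℝ) ≤ L ^ A := by rw [hm]; exact Nat.floor_le (by positivity)
  have hsub : {x : Fin s → ℝ | ¬ ∀ h : Fin s → ℤ,
      (∀ j, |(h j : ℝ) - ((c j + κ j * ⌊Z j * x j⌋ : ℤ) : ℝ)| ≤ L ^ A) → (∀ j, 0 ≤ h j) →
      PatGood c₀ η N (fun _ => 1) h} ⊆
      ⋃ t ∈ Fintype.piFinset fun _ : Fin s => Icc (-(m : ℤ)) m, {x : Fin s → ℝ |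
        (∀ j, 0 ≤ (c j + t j) + κ j * ⌊Z j * x j⌋) ∧
        ¬ PatGood c₀ η N (fun _ => 1) (fun j => (c j + t j) + κ j * ⌊Z j * x j⌋)} := by
    intro x hx
    simp only [Set.mem_ofPred_eq] at hx
    push Not at hx
    obtain ⟨h, h1, h2, h3⟩ := hx
    simp only [Set.mem_iUnion, exists_prop]
    obtain ⟨t, ht⟩ : ∃ t : Fin s → ℤ, t = fun j => h j - (c j + κ j * ⌊Z j * x j⌋) := ⟨_, rfl⟩
    have hht : ∀ j, (c j + t j) + κ j * ⌊Z j * x j⌋ = h j := by
      intro j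
      rw [ht]
      ring
    refine ⟨t, ?_, ?_⟩
    · rw [Fintype.mem_piFinset]
      intro j
      have e1 := h1 j
      have e2 : |(t j : ℝ)| ≤ L ^ A := by
        rw [ht]
        push_cast
        push_cast at e1
        exact e1
      have e3 : (t j).natAbs ≤ m := by
        rw [hm]
        apply Nat.le_floor
        rw [Nat.cast_natAbs, Int.cast_abs]
        exact e2
      rw [mem_Icc]
      omega
    · simp only [Set.mem_ofPred_eq, hht]
      exact ⟨h2, h3⟩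
  refine (measureReal_mono hsub (measure_ne_top _ _)).trans ((measureReal_biUnion_finset_le _ _).trans ?_)
  calc _ ≤ ∑ _t ∈ Fintype.piFinset fun _ : Fin s => Icc (-(m : ℤ)) m, 1 / L ^ (W + (A + 1) * s) := by
        apply sum_le_sum
        intro t ht
        rw [Fintype.mem_piFinset] at ht
        have h1 := hM₁ N (by omega) Z hZ1 (fun j => (hZB j).trans (by push_cast; linarith)) hNZ μ hμ hs
          (fun j => c j + t j) (fun j => by
            have h2 := ht j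
            rw [mem_Icc] at h2
            have h3 : |(t j : ℝ)| ≤ N := by
              have h4 : |t j| ≤ (m : ℤ) := abs_le.2 h2
              have h5 : |(t j : ℝ)| ≤ m := by exact_mod_cast h4
              linarith
            push_cast
            calc |(c j : ℝ) + t j| ≤ |(c j : ℝ)| + |(t j : ℝ)| := abs_add_le _ _
              _ ≤ B * N + N := add_le_add (hc j) h3
              _ = (B + 1) * N := by ring)
        rw [← hL] at h1
        exact h1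
    _ = (((2 * m + 1) ^ s : ℕ) : ℝ) * (1 / L ^ (W + (A + 1) * s)) := by
        rw [sum_const, nsmul_eq_mul, Fintype.card_piFinset]
        congr 2
        rw [prod_const, card_univ, Fintype.card_fin, Int.card_Icc]
        congr 1
        omega
    _ ≤ L ^ ((A + 1) * s) * (1 / L ^ (W + (A + 1) * s)) := by
        apply mul_le_mul_of_nonneg_right _ (by positivity)
        push_cast
        rw [pow_mul]
        apply pow_le_pow_left₀ (by positivity)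
        have e1 : 1 ≤ L ^ A := one_le_pow₀ (by linarith)
        calc 2 * (m : ℝ) + 1 ≤ 3 * L ^ A := by linarith
          _ ≤ L * L ^ A := mul_le_mul_of_nonneg_right hL3 (by positivity)
          _ = L ^ (A + 1) := by ring
    _ = 1 / L ^ W := by
        rw [pow_add]
        field_simp

/-- interpolation between two scales -/
lemma interp {s : ℕ} {c ε η : ℝ} (hc : 0 < c) (hη0 : 0 < η) (hη1 : η ≤ 1 / 3) (hηε : 3 * η ≤ ε) {N₁ N N₂ : ℕ}
    (h2 : 2 ≤ N₁) (h1N : N₁ ≤ N) (hN2 : N ≤ N₂) (hr : (N₂ : ℝ) ≤ (1 + η) * N₁) {q : Fin s → ℕ} {H : Fin s → ℤ}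
    (g1 : PatGood c η N₁ q H) (g2 : PatGood c η N₂ q H) : PatGood c ε N q H := by
  intro T hT hadm
  obtain ⟨S, a1, a2, a3⟩ := g1 T hT hadm
  obtain ⟨S', b1, b2, b3⟩ := g2 T hT hadm
  have hSS : S' = S := tendsto_nhds_unique b2 a2
  rw [hSS] at b3
  have hS0 : 0 < S := by linarith
  refine ⟨S, a1, a2, ?_⟩
  obtain ⟨t, ht⟩ : ∃ t, t = T.card + 1 := ⟨_, rfl⟩
  rw [← ht] at a3 b3 ⊢
  have m1 : (exactT q H T N₁ : ℝ) ≤ exactT q H T N := by exact_mod_cast exactT_mono q H T h1N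
  have m2 : (exactT q H T N : ℝ) ≤ exactT q H T N₂ := by exact_mod_cast exactT_mono q H T hN2
  have hN1r : (2 : ℝ) ≤ N₁ := by exact_mod_cast h2
  have hNr : (N₁ : ℝ) ≤ N := by exact_mod_cast h1N
  have hN2r : (N : ℝ) ≤ N₂ := by exact_mod_cast hN2
  have hl1 : 0 < Real.log (N₁ : ℝ) := Real.log_pos (by linarith)
  have hl2 : Real.log (N₁ : ℝ) ≤ Real.log N := Real.log_le_log (by linarith) hNr
  have hl3 : Real.log (N : ℝ) ≤ Real.log N₂ := Real.log_le_log (by linarith) hN2r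
  have hlN : 0 < Real.log (N : ℝ) := by linarith
  obtain ⟨G, hG⟩ : ∃ G, G = (N : ℝ) / Real.log N ^ t := ⟨_, rfl⟩
  have hG0 : 0 < G := by rw [hG]; exact div_pos (by linarith) (by positivity)
  rw [← hG]
  have e2 : (N₂ : ℝ) / Real.log N₂ ^ t ≤ (1 + η) * G := by
    calc (N₂ : ℝ) / Real.log N₂ ^ t ≤ ((1 + η) * N) / Real.log N ^ t := by
          apply div_le_div₀ (by positivity) _ (by positivity) (pow_le_pow_left₀ hlN.le hl3 t)
          exact hr.trans (mul_le_mul_of_nonneg_left hNr (by linarith))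
      _ = (1 + η) * G := by rw [hG]; ring
  have e1 : G ≤ (1 + η) * ((N₁ : ℝ) / Real.log N₁ ^ t) := by
    calc G = (N : ℝ) / Real.log N ^ t := hG
      _ ≤ ((1 + η) * N₁) / Real.log N₁ ^ t := by
          apply div_le_div₀ (by positivity) (hN2r.trans hr) (by positivity) (pow_le_pow_left₀ hl1.le hl2 t)
      _ = _ := by ring
  obtain ⟨P, hP⟩ : ∃ P, P = (N₁ : ℝ) / Real.log N₁ ^ t := ⟨_, rfl⟩
  obtain ⟨Q, hQ⟩ : ∃ Q, Q = (N₂ : ℝ) / Real.log N₂ ^ t := ⟨_, rfl⟩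
  rw [← hP] at a3 e1
  rw [← hQ] at b3 e2
  have a4 := (abs_le.1 a3).1
  have b4 := (abs_le.1 b3).2
  have u1 : S * Q ≤ S * ((1 + η) * G) := mul_le_mul_of_nonneg_left e2 hS0.le
  have u2 : S * G ≤ S * ((1 + η) * P) := mul_le_mul_of_nonneg_left e1 hS0.le
  have hSG : 0 < S * G := by positivity
  have v1 : (1 + η) * (S * Q) ≤ (1 + η) * (S * ((1 + η) * G)) := mul_le_mul_of_nonneg_left u1 (by linarith)
  have v2 : η * (η * (S * G)) ≤ 1 / 3 * (η * (S * G)) := mul_le_mul_of_nonneg_right hη1 (by positivity)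
  have v3 : 3 * η * (S * G) ≤ ε * (S * G) := mul_le_mul_of_nonneg_right hηε hSG.le
  rw [abs_le]
  constructor
  · -- lower bound
    have w1 : (1 - η) * (S * P) ≤ exactT q H T N := by linarith
    have w2 : (1 - 2 * η) * (S * G) ≤ (1 - η) * (S * P) := by
      have w3 : (1 - 2 * η) * (S * G) ≤ (1 - 2 * η) * (S * ((1 + η) * P)) := mul_le_mul_of_nonneg_left u2 (by linarith)
      have w4 : (1 - 2 * η) * (S * ((1 + η) * P)) = (1 - η) * (S * P) - 2 * η ^ 2 * (S * P) := by ring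
      have hSP : 0 ≤ S * P := by
        rw [hP]
        positivity
      have w5 : 0 ≤ 2 * η ^ 2 * (S * P) := by positivity
      linarith
    nlinarith
  · nlinarith

end Pool.Agent.W2helper67.FD
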