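import Pool.Agent.W2helper67.FD.Tr

set_option autoImplicit false

/-!
Prime pairs whose difference is near a value `c₀ + κ ⌊Z x⌋`.
-/

namespace Pool.Agent.W2helper67.FD

open Finset MeasureTheory Filter Topology
open Pool.Agent.N625.DY (Cls ClsV cls_pairs)
open Pool.Agent.W93.PP (GoodD)

lemma log_sqrt (W : ℕ) : ∀ᶠ x : ℝ in atTop, Real.log x ^ W ≤ √x ∧ 0 ≤ Real.log x := by
  have h1 := (isLittleO_log_rpow_atTop (r := (1 : ℝ) / (2 * (W + 1))) (by positivity)).bound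
    (show (0 : ℝ) < 1 by norm_num)
  filter_upwards [h1, eventually_ge_atTop (Real.exp 1)] with x g1 g2
  have hx0 : 0 < x := lt_of_lt_of_le (Real.exp_pos _) g2
  have hL1 : 1 ≤ Real.log x := by
    rw [Real.le_log_iff_exp_le hx0]
    exact g2
  refine ⟨?_, by linarith⟩
  rw [Real.norm_of_nonneg (by linarith), Real.norm_of_nonneg (by positivity), one_mul] at g1
  calc Real.log x ^ W ≤ Real.log x ^ (W + 1) := pow_le_pow_right₀ hL1 (by omega)
    _ ≤ (x ^ ((1 : ℝ) / (2 * (W + 1)))) ^ (W + 1) := pow_le_pow_left₀ (by linarith) g1 _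
    _ = √x := by
        rw [← Real.rpow_natCast, ← Real.rpow_mul hx0.le, Real.sqrt_eq_rpow]
        congr 1
        push_cast
        field_simp

lemma GoodD_mono {A B C X X' D : ℕ} (hX : X ≤ X') (hX' : (X' : ℝ) ≤ 2 * X) (hL : 2 ≤ Real.log X)
    (h : GoodD A B (C + 1) X' D) : GoodD A B C X D := by
  have hX0 : (0 : ℝ) < X := by
    rcases Nat.eq_zero_or_pos X with h0 | h0
    · rw [h0] at hL
      simp at hL
      linarith
    · exact_mod_cast h0
  have hLL : Real.log X ≤ Real.log X' := Real.log_le_log hX0 (by exact_mod_cast hX)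
  have hL0 : 0 < Real.log X := by linarith
  intro δ q a h1 h2 h3 h4 h5 h6 h7 x h8 h9
  refine (h δ q a (h1.trans (pow_le_pow_left₀ hL0.le hLL A)) h2 (h3.trans (pow_le_pow_left₀ hL0.le hLL B)) h4 h5 h6 h7 x h8
    (h9.trans (by exact_mod_cast hX))).trans ?_
  calc (X' : ℝ) / Real.log X' ^ (C + 1) ≤ 2 * X / Real.log X ^ (C + 1) := by
        apply div_le_div₀ (by positivity) hX' (by positivity)
        exact pow_le_pow_left₀ hL0.le hLL _
    _ ≤ X / Real.log X ^ C := by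
        rw [div_le_div_iff₀ (by positivity) (by positivity), pow_succ]
        have : 0 ≤ (X : ℝ) * Real.log X ^ C := by positivity
        nlinarith

open Classical in
/-- prime pairs in progressions for the differences above almost all the values, at all scales -/
theorem fd_pairs {τ : ℝ} (hτ : 0 < τ) (C₁ : ℝ) (κ : ℤ) (hκ : κ ≠ 0) (A₁ A₂ C u W B : ℕ) :
    ∃ Z₀ : ℝ, ∀ Z : ℝ, Z₀ ≤ Z → ∀ (μ : Measure ℝ) [IsProbabilityMeasure μ], FDec μ τ C₁ → (∀ᵐ x ∂μ, 0 ≤ x ∧ x < 1) →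
      ∀ c₀ : ℤ, |(c₀ : ℝ)| ≤ B * Z →
      μ.real {x | ¬ ∀ X : ℕ, Z ≤ X → Z * Real.log X ^ (C + 9) ≤ X → (X : ℝ) ≤ Z * Real.log X ^ W →
        0 < c₀ + κ * ⌊Z * x⌋ → GoodD A₁ A₂ C X (c₀ + κ * ⌊Z * x⌋).toNat} ≤ 1 / Real.log Z ^ u := by
  obtain ⟨k₀, hk₀⟩ := cls_pairs (FC_clsV hτ C₁ κ hκ) (B + 1) (u + 3) A₁ A₂ (C + 1) (W + 1)
  obtain ⟨P, hP⟩ : ∃ P : ℕ → ℕ → Prop, P = fun k (X : ℕ) => 2 ^ k ≤ X ∧ (2 : ℝ) ^ k * Real.log X ^ (C + 1 + 6) ≤ X ∧
    (X : ℝ) ≤ (2 : ℝ) ^ k * Real.log X ^ (W + 1) := ⟨_, rfl⟩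
  obtain ⟨Z₁, hZ₁1, H⟩ := fd_trans (Θ := ℕ) (τ := τ) (C₁ := C₁) κ B 0 (u + 2) P
    (fun X q => 0 < q → GoodD A₁ A₂ (C + 1) X q.toNat) k₀ (fun k hk X hX p hp c hc => by
      rw [hP] at hX
      refine (le_of_eq (by congr!)).trans (hk₀ k hk X hX.1 (by push_cast; exact hX.2.1) (by push_cast; exact hX.2.2) p hp c
        (by push_cast at hc ⊢; exact hc) (fun y => 0 < y → GoodD A₁ A₂ (C + 1) X y.toNat) (fun y hy => by
          push Not at hy
          exact hy)))
  obtain ⟨Z₂, hZ₂⟩ := eventually_atTop.1 (log_sqrt W)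
  refine ⟨max (max Z₁ Z₂) (Real.exp (2 ^ (C + 8) + 5)), fun Z hZ μ _ hμ hs c₀ hc₀ => ?_⟩
  have hZ1 : Z₁ ≤ Z := (le_max_left _ _).trans ((le_max_left _ _).trans hZ)
  have hZ2 : Z₂ ≤ Z := (le_max_right _ _).trans ((le_max_left _ _).trans hZ)
  have hZ3 : Real.exp (2 ^ (C + 8) + 5) ≤ Z := (le_max_right _ _).trans hZ
  have hZ0 : 0 < Z := lt_of_lt_of_le (Real.exp_pos _) hZ3
  have h1Z : 1 ≤ Z := hZ₁1.trans hZ1
  have hLZ : 2 ^ (C + 8) + 5 ≤ Real.log Z := by
    rw [Real.le_log_iff_exp_le hZ0]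
    exact hZ3
  have hpow : (1 : ℝ) ≤ 2 ^ (C + 8) := one_le_pow₀ (by norm_num)
  have hL0 : 0 < Real.log Z := by linarith
  obtain ⟨k, hk1, hk2⟩ := dig_exists Z h1Z
  have hkL : 2 * (k : ℝ) + 3 ≤ Real.log Z ^ 2 := by
    have h1 := Real.log_le_log (by positivity) hk1
    rw [Real.log_pow, Real.log_mul (by norm_num) hZ0.ne'] at h1
    have h2 := Real.log_two_gt_d9
    have h3 := Real.log_two_lt_d9
    have h4 : (k : ℝ) ≤ 1 + 1.5 * Real.log Z := by nlinarith
    nlinarith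
  obtain ⟨bad, hbad⟩ : ∃ bad : ℕ → Set ℝ, bad = fun i => {x | ¬ ∀ q : ℤ, |(q : ℝ) - ((c₀ + κ * ⌊Z * x⌋ : ℤ) : ℝ)| ≤
    Real.log Z ^ 0 → 0 < q → GoodD A₁ A₂ (C + 1) (2 ^ i) q.toNat} := ⟨_, rfl⟩
  obtain ⟨I, hI⟩ : ∃ I : Finset ℕ, I = (range (2 * k + 3)).filter (fun i => P k (2 ^ i)) := ⟨_, rfl⟩
  have hone : ∀ i ∈ I, μ.real (bad i) ≤ 1 / Real.log Z ^ (u + 2) := by
    intro i hi
    rw [hI, mem_filter] at hi
    rw [hbad]
    exact H Z hZ1 k hk1 hk2 (2 ^ i) hi.2 μ hμ hs c₀ hc₀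
  have hsub : {x | ¬ ∀ X : ℕ, Z ≤ X → Z * Real.log X ^ (C + 9) ≤ X → (X : ℝ) ≤ Z * Real.log X ^ W →
        0 < c₀ + κ * ⌊Z * x⌋ → GoodD A₁ A₂ C X (c₀ + κ * ⌊Z * x⌋).toNat} ⊆ ⋃ i ∈ I, bad i := by
    intro x hx
    simp only [Set.mem_ofPred_eq] at hx
    push Not at hx
    obtain ⟨X, hX0, hX1, hX2, hpos, hnot⟩ := hx
    have hXpos : (0 : ℝ) < X := lt_of_lt_of_le hZ0 hX0
    have hXn : 1 < X := by
      have h2 : (1 : ℝ) < X := by
        refine lt_of_lt_of_le ?_ hX0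
        by_contra hcon
        have h3 := Real.log_le_log hZ0 (not_lt.1 hcon)
        rw [Real.log_one] at h3
        linarith
      exact_mod_cast h2
    have hLX : Real.log Z ≤ Real.log X := Real.log_le_log hZ0 hX0
    obtain ⟨i, hi⟩ : ∃ i, i = Nat.clog 2 X := ⟨_, rfl⟩
    have hXi : X ≤ 2 ^ i := by rw [hi]; exact Nat.le_pow_clog (by norm_num) _
    have hi0 : 1 ≤ i := by
      by_contra hcon
      have : i = 0 := by omega
      rw [this] at hXi
      omega
    have hiX : 2 ^ i < 2 * X := by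
      have h3 := Nat.pow_pred_clog_lt_self (by norm_num : 1 < 2) hXn
      rw [← hi, Nat.pred_eq_sub_one] at h3
      calc 2 ^ i = 2 * 2 ^ (i - 1) := by rw [← pow_succ']; congr 1; omega
        _ < 2 * X := by omega
    have hXi' : (X : ℝ) ≤ ((2 ^ i : ℕ) : ℝ) := by exact_mod_cast hXi
    have hiX' : ((2 ^ i : ℕ) : ℝ) ≤ 2 * X := by exact_mod_cast hiX.le
    have hLi : Real.log X ≤ Real.log ((2 ^ i : ℕ) : ℝ) := Real.log_le_log hXpos hXi'
    have hLi2 : Real.log ((2 ^ i : ℕ) : ℝ) ≤ 2 * Real.log X := by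
      have h3 := Real.log_le_log (lt_of_lt_of_le hXpos hXi') hiX'
      rw [Real.log_mul (by norm_num) hXpos.ne'] at h3
      linarith [Real.log_two_lt_d9]
    have hLX2 : 2 ≤ Real.log X := by linarith
    have hLX0 : 0 < Real.log X := by linarith
    have hPk : P k (2 ^ i) := by
      rw [hP]
      refine ⟨?_, ?_, ?_⟩
      · have h3 : (2 : ℝ) ^ k ≤ X := by
          refine hk1.trans (le_trans ?_ hX1)
          rw [mul_comm 2 Z]
          apply mul_le_mul_of_nonneg_left _ hZ0.le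
          exact hLX2.trans (le_self_pow₀ (by linarith) (by omega))
        have h4 : 2 ^ k ≤ X := by exact_mod_cast h3
        exact h4.trans hXi
      · refine le_trans ?_ hXi'
        refine le_trans ?_ hX1
        calc (2 : ℝ) ^ k * Real.log ((2 ^ i : ℕ) : ℝ) ^ (C + 1 + 6) ≤ (2 * Z) * (2 * Real.log X) ^ (C + 1 + 6) := by
              apply mul_le_mul hk1 _ (pow_nonneg (by linarith) _) (by positivity)
              exact pow_le_pow_left₀ (by linarith) hLi2 _
          _ = Z * (2 ^ (C + 8) * Real.log X ^ (C + 7)) := by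
              rw [mul_pow, show C + 1 + 6 = C + 7 by ring, show C + 8 = (C + 7) + 1 by ring, pow_succ 2 (C + 7)]
              ring
          _ ≤ Z * (Real.log X ^ 2 * Real.log X ^ (C + 7)) := by
              apply mul_le_mul_of_nonneg_left _ hZ0.le
              apply mul_le_mul_of_nonneg_right _ (by positivity)
              nlinarith
          _ = Z * Real.log X ^ (C + 9) := by
              rw [← pow_add]
              congr 2
              ring
      · calc ((2 ^ i : ℕ) : ℝ) ≤ 2 * X := hiX'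
          _ ≤ 2 * (Z * Real.log X ^ W) := by linarith
          _ ≤ 2 * (2 ^ k * Real.log ((2 ^ i : ℕ) : ℝ) ^ W) := by
              apply mul_le_mul_of_nonneg_left _ (by norm_num)
              exact mul_le_mul hk2 (pow_le_pow_left₀ hLX0.le hLi W) (by positivity) (by positivity)
          _ = 2 ^ k * (Real.log ((2 ^ i : ℕ) : ℝ) ^ W * 2) := by ring
          _ ≤ 2 ^ k * (Real.log ((2 ^ i : ℕ) : ℝ) ^ W * Real.log ((2 ^ i : ℕ) : ℝ)) := by
              apply mul_le_mul_of_nonneg_left _ (by positivity)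
              apply mul_le_mul_of_nonneg_left (by linarith)
              exact pow_nonneg (by linarith) _
          _ = _ := by rw [pow_succ]
    have hik : i < 2 * k + 3 := by
      obtain ⟨h3, _⟩ := hZ₂ X (hZ2.trans hX0)
      have h4 : (X : ℝ) ≤ Z * √X := hX2.trans (mul_le_mul_of_nonneg_left h3 hZ0.le)
      have h5 : √(X : ℝ) ≤ Z := by
        have h6 := Real.mul_self_sqrt hXpos.le
        have h7 : 0 < √(X : ℝ) := Real.sqrt_pos.2 hXpos
        by_contra hcon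
        push Not at hcon
        nlinarith
      have h6 : (X : ℝ) ≤ 2 ^ (2 * k) := by
        have h7 := Real.mul_self_sqrt hXpos.le
        have h8 : √(X : ℝ) ≤ 2 ^ k := h5.trans hk2
        rw [two_mul, pow_add, ← h7]
        exact mul_le_mul h8 h8 (Real.sqrt_nonneg _) (by positivity)
      have h7 : X ≤ 2 ^ (2 * k) := by exact_mod_cast h6
      have h8 : 2 ^ i < 2 ^ (2 * k + 2) := by
        calc 2 ^ i < 2 * X := hiX
          _ ≤ 2 * 2 ^ (2 * k) := Nat.mul_le_mul_left 2 h7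
          _ ≤ 2 ^ (2 * k + 2) := by rw [pow_add]; omega
      have h9 := (Nat.pow_lt_pow_iff_right (by norm_num : 1 < 2)).1 h8
      omega
    simp only [Set.mem_iUnion, exists_prop]
    refine ⟨i, ?_, ?_⟩
    · rw [hI, mem_filter, mem_range]
      exact ⟨hik, hPk⟩
    · rw [hbad]
      simp only [Set.mem_ofPred_eq]
      intro hcon
      apply hnot
      refine GoodD_mono hXi hiX' hLX2 (hcon _ ?_ hpos)
      rw [sub_self, abs_zero, pow_zero]
      norm_num
  calc _ ≤ μ.real (⋃ i ∈ I, bad i) := measureReal_mono hsub (measure_ne_top _ _)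
    _ ≤ ∑ i ∈ I, μ.real (bad i) := measureReal_biUnion_finset_le _ _
    _ ≤ ∑ _i ∈ I, 1 / Real.log Z ^ (u + 2) := sum_le_sum hone
    _ = I.card * (1 / Real.log Z ^ (u + 2)) := by rw [sum_const, nsmul_eq_mul]
    _ ≤ Real.log Z ^ 2 * (1 / Real.log Z ^ (u + 2)) := by
        apply mul_le_mul_of_nonneg_right _ (by positivity)
        refine le_trans ?_ hkL
        have h3 : I.card ≤ 2 * k + 3 := by
          rw [hI]
          exact (card_filter_le _ _).trans (by rw [card_range])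
        exact_mod_cast h3
    _ = 1 / Real.log Z ^ u := by
        rw [pow_add]
        field_simp

end Pool.Agent.W2helper67.FD
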