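import Pool.Agent.W2helper67.FD.Dec
import Pool.Agent.N384.MQ.Dec

set_option autoImplicit false

/-!
From the decay of the characteristic function to almost all the integer parts `⌊Z x⌋`.
-/

namespace Pool.Agent.W2helper67.FD

open Finset MeasureTheory Filter Topology
open Pool.Agent.H469R2.NK (e norm_e e_add conj_e e_zero)
open Pool.Agent.N193.PS (e_int')
open Pool.Agent.H807R2.Dav (ee norm_ee ee_add)
open Pool.Agent.TH872.Mir (Far farCount)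
open Pool.Agent.R459.Eq (Decays)
open Pool.Agent.N384.MQ (far_dist)

lemma ee_eq_e (x : ℝ) : ee x = e x := by
  unfold Pool.Agent.H807R2.Dav.ee Pool.Agent.H469R2.NK.e
  congr 1
  push_cast
  ring

lemma ee_red (α : ℝ) (n : ℤ) : ee (α * n) = e ((α - round α) * n) := by
  rw [ee_eq_e]
  have h1 : α * n = (α - round α) * n + ((round α * n : ℤ) : ℝ) := by
    push_cast
    ring
  rw [h1, e_add, e_int', mul_one]

/-- the decay of the characteristic function of the cut integer parts -/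
theorem decays_fd (μ : Measure ℝ) [IsProbabilityMeasure μ] {τ C₀ : ℝ} (hτ : 0 < τ) (h : FDec μ τ C₀) (Z : ℝ)
    (hZ : 0 < Z) (k : ℕ) (hk : (2 * (1088 * C₀ + 10) * 2 ^ k) ^ (4 / τ) * 2 ^ k ≤ Z) (c₀ κ : ℤ) (R : ℕ)
    (hR : μ.real {x | cut Z R x ≠ ⌊Z * x⌋} ≤ 1 / (4 * 2 ^ k)) :
    Decays 2 1 5 k (1 / 2) κ (Icc (-(R : ℤ)) R) (fun v => μ.real {x | cut Z R x = v}) (fun v => c₀ + κ * v) := by
  have hC := h.nonneg
  have hk0 : (0 : ℝ) < 2 ^ k := by positivity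
  have hk1 : (1 : ℝ) ≤ 2 ^ k := one_le_pow₀ (by norm_num)
  refine ⟨fun _ _ => measureReal_nonneg, sum_fin μ (cut Z R) (meas_cut Z R) _ (cut_mem Z R), fun θ N hfar hAN => ?_⟩
  obtain ⟨α, hα⟩ : ∃ α : ℝ, α = κ * θ := ⟨_, rfl⟩
  rw [← hα] at hfar
  have h1 : ∀ v : ℤ, ((μ.real {x | cut Z R x = v} : ℝ) : ℂ) * ee (((c₀ + κ * v : ℤ) : ℝ) * θ) =
      ((μ.real {x | cut Z R x = v} : ℝ) : ℂ) * (ee (c₀ * θ) * e ((α - round α) * v)) := by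
    intro v
    congr 1
    rw [← ee_red, ← ee_add]
    congr 1
    rw [hα]
    push_cast
    ring
  simp only [h1]
  refine (cut_int μ Z R (fun v => ee (c₀ * θ) * e ((α - round α) * v))
    (fun v => by rw [norm_mul, norm_ee, norm_e, one_mul])).trans ?_
  have h2 : ‖∫ x, ee (c₀ * θ) * e ((α - round α) * (⌊Z * x⌋ : ℤ)) ∂μ‖ = ‖∫ x, e ((α - round α) * (⌊Z * x⌋ : ℤ)) ∂μ‖ := by
    rw [integral_const_mul, norm_mul, norm_ee, one_mul]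
  rw [h2]
  obtain ⟨hMk, hdist⟩ := far_dist k (5 * (N + 1)) (by omega) α hfar
  obtain ⟨δ, hδ⟩ : ∃ δ, δ = |α - round α| := ⟨_, rfl⟩
  rw [← hδ] at hdist
  have h32 : (32 : ℝ) ≤ 2 ^ (5 * (N + 1)) := by
    calc (32 : ℝ) = 2 ^ 5 := by norm_num
      _ ≤ _ := pow_le_pow_right₀ (by norm_num) (by omega)
  have hδk : 1 ≤ δ * 2 ^ k := by linarith
  have hδ0 : 0 < δ := by
    by_contra hcon
    have : δ * 2 ^ k ≤ 0 := mul_nonpos_of_nonpos_of_nonneg (not_lt.1 hcon) hk0.le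
    linarith
  obtain ⟨C₁, hC₁⟩ : ∃ C₁ : ℝ, C₁ = 1088 * C₀ + 10 := ⟨_, rfl⟩
  rw [← hC₁] at hk
  have hC₁0 : 0 < C₁ := by rw [hC₁]; positivity
  obtain ⟨B, hB⟩ : ∃ B : ℝ, B = 2 * C₁ * 2 ^ k := ⟨_, rfl⟩
  rw [← hB] at hk
  have hC₁1 : 1 ≤ C₁ := by rw [hC₁]; linarith
  have hB0 : 0 < B := by rw [hB]; positivity
  have hB1 : 1 ≤ B := by
    rw [hB]
    have : 1 ≤ 2 * C₁ := by linarith
    exact one_le_mul_of_one_le_of_one_le this hk1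
  have hZδ : B ^ (4 / τ) ≤ Z * δ := by
    calc B ^ (4 / τ) ≤ B ^ (4 / τ) * (δ * 2 ^ k) := le_mul_of_one_le_right (by positivity) hδk
      _ = (B ^ (4 / τ) * 2 ^ k) * δ := by ring
      _ ≤ Z * δ := mul_le_mul_of_nonneg_right hk hδ0.le
  have hZδ1 : 1 ≤ Z * δ := (Real.one_le_rpow hB1 (by positivity)).trans hZδ
  have h3 := char_fl μ hτ h Z (α - round α) hZ (abs_sub_round α) (by rw [← hδ]; exact hZδ1)
  rw [← hδ, ← hC₁] at h3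
  have h4 : (Z * δ) ^ (-(τ / 4)) ≤ B⁻¹ := by
    calc (Z * δ) ^ (-(τ / 4)) ≤ (B ^ (4 / τ)) ^ (-(τ / 4)) :=
          Real.rpow_le_rpow_of_nonpos (by positivity) hZδ (by
            have : 0 < τ / 4 := by positivity
            linarith)
      _ = B⁻¹ := by
          rw [← Real.rpow_mul hB0.le]
          have : 4 / τ * -(τ / 4) = -1 := by field_simp
          rw [this, Real.rpow_neg_one]
  have h5 : ‖∫ x, e ((α - round α) * (⌊Z * x⌋ : ℤ)) ∂μ‖ ≤ 1 / (2 * 2 ^ k) := by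
    refine h3.trans ?_
    calc C₁ * (Z * δ) ^ (-(τ / 4)) ≤ C₁ * B⁻¹ := mul_le_mul_of_nonneg_left h4 hC₁0.le
      _ = 1 / (2 * 2 ^ k) := by
          rw [hB]
          field_simp
  have h6 : 1 / (2 * 2 ^ k) + 2 * (1 / (4 * 2 ^ k)) = (1 : ℝ) / 2 ^ k := by
    field_simp
    norm_num
  calc _ ≤ 1 / (2 * 2 ^ k) + 2 * (1 / (4 * 2 ^ k) : ℝ) := by linarith
    _ = 1 / 2 ^ k := h6
    _ ≤ (1 / 2) ^ N := by
        rw [one_div_pow]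
        apply one_div_le_one_div_of_le (by positivity)
        exact pow_le_pow_right₀ (by norm_num) (by omega)

/-- from the decay of the characteristic function to almost all the integer parts -/
theorem fd_pass {τ : ℝ} (hτ : 0 < τ) : ∃ W₁ : ℕ, 1 ≤ W₁ ∧ ∀ C₀ : ℝ, ∃ X₁ : ℕ, 2 ≤ X₁ ∧ ∀ W X : ℕ, X₁ ≤ X →
    ∀ (μ : Measure ℝ) [IsProbabilityMeasure μ], FDec μ τ C₀ → ∀ (Z : ℝ) (κ c₀ : ℤ) (Q : ℕ → ℤ → Prop) (σ : ℝ), 0 ≤ σ →
    (∀ (k : ℕ) (ι : Type) (Ω : Finset ι) (w : ι → ℝ) (v : ι → ℤ), Decays 2 1 5 k (1 / 2) κ Ω w v →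
      ∀ E : Finset ι, E ⊆ Ω → (∀ i ∈ E, ¬ ∀ x : ℕ, X ≤ x → x ^ W ≤ 2 ^ k → Q x (v i)) →
        ∑ i ∈ E, w i ≤ σ) →
    μ.real {t | ¬ ∀ x : ℕ, X ≤ x → (x : ℝ) ^ (W₁ * (W + 1)) ≤ Z → Q x (c₀ + κ * ⌊Z * t⌋)} ≤ σ := by
  classical
  obtain ⟨W₁, hW₁⟩ := exists_nat_ge (4 / τ + 2)
  have hW₁0 : 1 ≤ W₁ := by
    have h1 : 0 < 4 / τ := by positivity
    have : (0 : ℝ) < W₁ := by linarith
    exact_mod_cast this
  refine ⟨W₁, hW₁0, fun C₀ => ?_⟩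
  obtain ⟨X₁, hX₁⟩ := exists_nat_ge ((2 * (1088 * |C₀| + 10)) ^ (4 / τ))
  refine ⟨X₁ + 2, by omega, fun W X hX μ _ hμ Z κ c₀ Q σ hσ H => ?_⟩
  have hC := hμ.nonneg
  rw [abs_of_nonneg hC] at hX₁
  by_cases hne : ∃ x : ℕ, X ≤ x ∧ (x : ℝ) ^ (W₁ * (W + 1)) ≤ Z
  swap
  · have : {t : ℝ | ¬ ∀ x : ℕ, X ≤ x → (x : ℝ) ^ (W₁ * (W + 1)) ≤ Z → Q x (c₀ + κ * ⌊Z * t⌋)} = ∅ := by
      ext t
      simp only [Set.mem_ofPred_eq, Set.mem_empty_iff_false, iff_false, not_not]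
      intro x hx hxW
      exact absurd ⟨x, hx, hxW⟩ hne
    rw [this, measureReal_empty]
    exact hσ
  obtain ⟨x₀, hx₀, hx₀W⟩ := hne
  have hx₀1 : (1 : ℝ) ≤ x₀ := by exact_mod_cast (by omega : 1 ≤ x₀)
  have hZ1 : 1 ≤ Z := (one_le_pow₀ hx₀1).trans hx₀W
  have hZ0 : 0 < Z := by linarith
  obtain ⟨T, hT⟩ : ∃ T : ℝ, T = Z ^ ((1 : ℝ) / W₁) := ⟨_, rfl⟩
  have hW₁r : (0 : ℝ) < W₁ := by exact_mod_cast hW₁0
  have hTZ : T ^ W₁ = Z := by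
    rw [hT, ← Real.rpow_natCast, ← Real.rpow_mul hZ0.le]
    have : (1 : ℝ) / W₁ * W₁ = 1 := by field_simp
    rw [this, Real.rpow_one]
  have hT0 : 0 ≤ T := by rw [hT]; positivity
  have hxT : ∀ x : ℕ, (x : ℝ) ^ (W₁ * (W + 1)) ≤ Z → (x : ℝ) ^ (W + 1) ≤ T := by
    intro x hx
    have h1 : ((x : ℝ) ^ (W + 1)) ^ W₁ ≤ T ^ W₁ := by
      rw [hTZ, ← pow_mul, mul_comm (W + 1)]
      exact hx
    exact (pow_le_pow_iff_left₀ (by positivity) hT0 (by omega)).1 h1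
  have hx₀T := hxT x₀ hx₀W
  have hxx : (x₀ : ℝ) ≤ T := (le_self_pow₀ hx₀1 (by omega)).trans hx₀T
  have hT1 : (1 : ℝ) ≤ T := hx₀1.trans hxx
  have hT0' : 0 < T := by linarith
  obtain ⟨k, hk⟩ : ∃ k, k = Nat.log 2 ⌊T⌋₊ := ⟨_, rfl⟩
  have hfl : 1 ≤ ⌊T⌋₊ := by
    rw [Nat.one_le_floor_iff]
    linarith
  have hk1 : (2 : ℝ) ^ k ≤ T := by
    have h1 : 2 ^ k ≤ ⌊T⌋₊ := by
      rw [hk]
      exact Nat.pow_log_le_self 2 (by omega)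
    calc (2 : ℝ) ^ k ≤ (⌊T⌋₊ : ℝ) := by exact_mod_cast h1
      _ ≤ T := Nat.floor_le hT0
  have hk2 : T < 2 ^ (k + 1) := by
    have h1 : ⌊T⌋₊ < 2 ^ (k + 1) := by
      rw [hk]
      exact Nat.lt_pow_succ_log_self (by norm_num) _
    have h2 : T < (⌊T⌋₊ : ℝ) + 1 := Nat.lt_floor_add_one _
    have h3 : (⌊T⌋₊ : ℝ) + 1 ≤ 2 ^ (k + 1) := by exact_mod_cast h1
    linarith
  have hkZ : (2 * (1088 * C₀ + 10) * 2 ^ k) ^ (4 / τ) * 2 ^ k ≤ Z := by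
    have h1 : (2 * (1088 * C₀ + 10)) ^ (4 / τ) ≤ T := by
      refine hX₁.trans (le_trans ?_ hxx)
      exact_mod_cast (by omega : X₁ ≤ x₀)
    rw [Real.mul_rpow (by positivity) (by positivity)]
    have h2 : ((2 : ℝ) ^ k) ^ (4 / τ) ≤ T ^ (4 / τ) := Real.rpow_le_rpow (by positivity) hk1 (by positivity)
    calc (2 * (1088 * C₀ + 10)) ^ (4 / τ) * (2 ^ k) ^ (4 / τ) * 2 ^ k ≤ T * T ^ (4 / τ) * T := by gcongr
      _ = T ^ (4 / τ + 2) := by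
          rw [Real.rpow_add hT0', Real.rpow_ofNat]
          ring
      _ ≤ T ^ (W₁ : ℝ) := Real.rpow_le_rpow_of_exponent_le hT1 hW₁
      _ = Z := by rw [Real.rpow_natCast, hTZ]
  apply le_of_forall_pos_le_add
  intro η hη
  obtain ⟨R, hR⟩ := cut_ne μ Z (min η (1 / (4 * 2 ^ k))) (lt_min hη (by positivity))
  have hd := decays_fd μ hτ hμ Z hZ0 k hkZ c₀ κ R (hR.trans (min_le_right _ _))
  obtain ⟨E, hE⟩ : ∃ E : Finset ℤ, E = (Icc (-(R : ℤ)) R).filter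
      (fun v => ¬ ∀ x : ℕ, X ≤ x → (x : ℝ) ^ (W₁ * (W + 1)) ≤ Z → Q x (c₀ + κ * v)) := ⟨_, rfl⟩
  have h1 := H k ℤ _ _ _ hd E (by rw [hE]; exact filter_subset _ _) (fun v hv hcon => by
      rw [hE, mem_filter] at hv
      apply hv.2
      intro x hx hxW
      exact hcon x hx (by
        have hx2 : (2 : ℝ) ≤ x := by exact_mod_cast (by omega : 2 ≤ x)
        have h3 : (x : ℝ) ^ W * 2 < 2 ^ k * 2 := by
          calc (x : ℝ) ^ W * 2 ≤ (x : ℝ) ^ W * x := mul_le_mul_of_nonneg_left hx2 (by positivity)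
            _ = (x : ℝ) ^ (W + 1) := (pow_succ _ _).symm
            _ ≤ T := hxT x hxW
            _ < 2 ^ (k + 1) := hk2
            _ = 2 ^ k * 2 := pow_succ _ _
        have h4 : (x : ℝ) ^ W ≤ 2 ^ k := by linarith
        exact_mod_cast h4))
  have h2 : {t : ℝ | ¬ ∀ x : ℕ, X ≤ x → (x : ℝ) ^ (W₁ * (W + 1)) ≤ Z → Q x (c₀ + κ * ⌊Z * t⌋)} ⊆
      (⋃ v ∈ E, {x | cut Z R x = v}) ∪ {x | cut Z R x ≠ ⌊Z * x⌋} := by
    intro t ht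
    by_cases hc : cut Z R t = ⌊Z * t⌋
    · left
      simp only [Set.mem_iUnion, Set.mem_ofPred_eq, exists_prop]
      refine ⟨cut Z R t, ?_, rfl⟩
      rw [hE, mem_filter]
      refine ⟨cut_mem Z R t, ?_⟩
      rw [hc]
      exact ht
    · right
      exact hc
  calc μ.real {t : ℝ | ¬ ∀ x : ℕ, X ≤ x → (x : ℝ) ^ (W₁ * (W + 1)) ≤ Z → Q x (c₀ + κ * ⌊Z * t⌋)} ≤
        μ.real ((⋃ v ∈ E, {x | cut Z R x = v}) ∪ {x | cut Z R x ≠ ⌊Z * x⌋}) := measureReal_mono h2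
    _ ≤ μ.real (⋃ v ∈ E, {x | cut Z R x = v}) + μ.real {x | cut Z R x ≠ ⌊Z * x⌋} := measureReal_union_le _ _
    _ ≤ ∑ v ∈ E, μ.real {x | cut Z R x = v} + η :=
        add_le_add (measureReal_biUnion_finset_le _ _) (hR.trans (min_le_left _ _))
    _ ≤ σ + η := by linarith

end Pool.Agent.W2helper67.FD
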