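import Pool.Agent.W2helper67.FD.Cls
import Pool.Agent.N193.PS.Tl

set_option autoImplicit false

/-!
The large spectrum of the multiples of the values `c₀ + κ ⌊Z x⌋` is thin.
-/

namespace Pool.Agent.W2helper67.FD

open Finset MeasureTheory Filter Topology
open Pool.Agent.H469R2.NK (e norm_e e_add conj_e e_zero)
open Pool.Agent.H807R2.Dav (ee norm_ee ee_add)
open Pool.Agent.Y885 (TLaw Thin Spec)
open Pool.Agent.N193.PS (few_near)

/-- the large spectrum of the multiples of the values is thin -/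
theorem FC_tlaw {τ : ℝ} (hτ : 0 < τ) (C₁ : ℝ) (κ : ℤ) (hκ : κ ≠ 0) (H V : ℕ) : ∃ C₀ m₀ : ℕ, ∀ m : ℕ, m₀ ≤ m → ∀ p,
    FC τ C₁ m p →
    ∀ e' g : ℕ, 2 ^ e' ≤ m ^ H → 1 ≤ g → g ≤ m ^ H → ∀ cc : ℤ, ∀ K, K = m + e' →
    TLaw 2 3 C₀ V K (range (2 ^ m)) p (fun v => (g : ℤ) * (cc + κ * (v : ℕ))) := by
  obtain ⟨A, m₀, hm₀2, hA⟩ := char_poly τ C₁ hτ V
  obtain ⟨m₂, hm₂⟩ : ∃ m₂ : ℕ, ∀ m : ℕ, m₂ ≤ m → m ^ H < 2 ^ m := by
    have h1 := (isLittleO_pow_const_const_pow_of_one_lt (R := ℝ) H (by norm_num : (1 : ℝ) < 2)).bound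
      (show (0 : ℝ) < 1 / 2 by norm_num)
    obtain ⟨m₂, h2⟩ := eventually_atTop.mp h1
    refine ⟨m₂, fun m hm => ?_⟩
    have h3 := h2 m hm
    rw [Real.norm_of_nonneg (by positivity), Real.norm_of_nonneg (by positivity)] at h3
    have h4 : (0 : ℝ) < 2 ^ m := by positivity
    have h5 : (m : ℝ) ^ H < 2 ^ m := by linarith
    exact_mod_cast h5
  obtain ⟨E, hE⟩ : ∃ E, E = H + A + 1 := ⟨_, rfl⟩
  refine ⟨2 * E + 1, m₀ + m₂ + κ.natAbs + 15, fun m hm p hp e' g he hg1 hg2 cc K hK => ?_⟩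
  have hsum := FC_sum hp
  have hm15 : 15 ≤ m := by omega
  have hem : e' < m := by
    by_contra hcon
    push Not at hcon
    have h1 : 2 ^ m ≤ 2 ^ e' := Nat.pow_le_pow_right (by norm_num) hcon
    have h2 := hm₂ m (by omega)
    omega
  have hK2 : K ≤ 2 * m := by omega
  obtain ⟨μ, _, Z, hμ, hs, h1, h2, hpv⟩ := id hp
  have hm1 : (2 : ℝ) ≤ m := by exact_mod_cast (by omega : 2 ≤ m)
  have hm0 : (0 : ℝ) < m := by linarith
  obtain ⟨G, hG⟩ : ∃ G : ℤ, G = g * κ := ⟨_, rfl⟩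
  have hG0 : G ≠ 0 := by
    rw [hG]
    exact mul_ne_zero (by exact_mod_cast (by omega : g ≠ 0)) hκ
  obtain ⟨N, hN⟩ : ∃ N : ℕ, N = 2 ^ (K + 1) := ⟨_, rfl⟩
  have hNpos : 0 < N := by rw [hN]; positivity
  have hN0 : (0 : ℝ) < N := by exact_mod_cast hNpos
  -- the elements of the spectrum
  have hspec : ∀ t ∈ Spec 2 V K (range (2 ^ m)) p (fun v => (g : ℤ) * (cc + κ * (v : ℕ))),
      ∃ q : ℤ, |G * t - q * N| ≤ (m ^ E : ℕ) := by
    intro t ht
    unfold Spec at ht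
    rw [mem_filter, ← hN] at ht
    obtain ⟨_, ht⟩ := ht
    by_contra hcon
    push Not at hcon
    obtain ⟨θ0, hθ0⟩ : ∃ θ0, θ0 = (t : ℝ) / (N : ℝ) := ⟨_, rfl⟩
    rw [← hθ0] at ht
    obtain ⟨q0, hq0⟩ : ∃ q0 : ℤ, q0 = round ((G : ℝ) * θ0) := ⟨_, rfl⟩
    obtain ⟨θ, hθ⟩ : ∃ θ : ℝ, θ = (G : ℝ) * θ0 - q0 := ⟨_, rfl⟩
    have hθ2 : |θ| ≤ 1 / 2 := by rw [hθ, hq0]; exact abs_sub_round _
    have hcond : (m : ℝ) ^ A ≤ |θ| * 2 ^ m := by
      have h3 : ((m ^ E : ℕ) : ℤ) < |G * t - q0 * N| := hcon q0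
      have h4 : (m : ℝ) ^ E ≤ |(G : ℝ) * t - q0 * N| := by
        have h5 : ((m ^ E : ℕ) : ℝ) ≤ ((|G * t - q0 * N| : ℤ) : ℝ) := by exact_mod_cast h3.le
        rw [Int.cast_abs] at h5
        push_cast at h5
        exact h5
      have h5 : |(G : ℝ) * t - q0 * N| = |θ| * N := by
        rw [hθ, hθ0]
        have : (G : ℝ) * t - q0 * N = ((G : ℝ) * (t / N) - q0) * N := by field_simp
        rw [this, abs_mul, abs_of_pos hN0]
      rw [h5] at h4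
      have h6 : (N : ℝ) = 2 ^ m * (2 * 2 ^ e') := by
        rw [hN, hK]
        push_cast
        rw [pow_succ, pow_add]
        ring
      have h7 : (2 : ℝ) ^ e' ≤ (m : ℝ) ^ H := by exact_mod_cast he
      have h8 : (m : ℝ) ^ E ≤ (|θ| * 2 ^ m) * (2 * (m : ℝ) ^ H) := by
        refine h4.trans ?_
        rw [h6, ← mul_assoc]
        apply mul_le_mul_of_nonneg_left _ (by positivity)
        linarith
      have h9 : (m : ℝ) ^ A * (2 * (m : ℝ) ^ H) ≤ (m : ℝ) ^ E := by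
        rw [hE, pow_succ, pow_add]
        calc (m : ℝ) ^ A * (2 * (m : ℝ) ^ H) = ((m : ℝ) ^ H * (m : ℝ) ^ A) * 2 := by ring
          _ ≤ (m : ℝ) ^ H * (m : ℝ) ^ A * m := mul_le_mul_of_nonneg_left hm1 (by positivity)
      exact le_of_mul_le_mul_right (h9.trans h8) (by positivity)
    have hmain := hA m (by omega) μ hμ Z θ h1 hθ2 hcond K (by omega) hK2
    rw [FC_char hs h1 h2 hpv G (g * cc) q0 θ0 _ (fun v => by rw [hG]; ring), ← hθ] at ht
    linarith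
  have hlt : ∀ t ∈ Spec 2 V K (range (2 ^ m)) p (fun v => (g : ℤ) * (cc + κ * (v : ℕ))), t < N := by
    intro t ht
    unfold Spec at ht
    rw [mem_filter, mem_range, ← hN] at ht
    exact ht.1
  have hcard := few_near G hG0 N (m ^ E) hNpos _ hlt hspec
  obtain ⟨S, hS⟩ : ∃ S, S = Spec 2 V K (range (2 ^ m)) p (fun v => (g : ℤ) * (cc + κ * (v : ℕ))) := ⟨_, rfl⟩
  rw [← hS] at hcard hlt
  have hcard2 : S.card ≤ K ^ (2 * E + 1) := by
    have h1 : G.natAbs ≤ m ^ E := by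
      rw [hG, Int.natAbs_mul, Int.natAbs_natCast, hE]
      calc g * κ.natAbs ≤ m ^ H * m := Nat.mul_le_mul hg2 (by omega)
        _ = m ^ (H + 1) := by rw [pow_succ]
        _ ≤ m ^ (H + A + 1) := Nat.pow_le_pow_right (by omega) (by omega)
    have h2 : 1 ≤ m ^ E := Nat.one_le_pow _ _ (by omega)
    calc S.card ≤ (2 * (G.natAbs + m ^ E) + 1) * (2 * m ^ E + 1) := hcard
      _ ≤ (5 * m ^ E) * (3 * m ^ E) := Nat.mul_le_mul (by omega) (by omega)
      _ = 15 * (m ^ E * m ^ E) := by ring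
      _ ≤ m * (m ^ E * m ^ E) := Nat.mul_le_mul_right _ hm15
      _ = m ^ (2 * E + 1) := by rw [pow_succ, two_mul, pow_add]; ring
      _ ≤ K ^ (2 * E + 1) := Nat.pow_le_pow_left (by omega) _
  refine ⟨fun v _ => FC_nonneg hp v, hsum.le, ?_⟩
  rw [← hS]
  refine ⟨fun t ht => by rw [← hN]; exact hlt t ht, fun i _ => ?_, fun j x _ => ?_, ?_⟩
  · exact Nat.mul_le_mul (card_image_le.trans hcard2) (Nat.pow_le_pow_right (by norm_num) (Nat.div_le_self _ _))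
  · exact Nat.mul_le_mul ((card_filter_le _ _).trans hcard2) (Nat.pow_le_pow_right (by norm_num) (Nat.div_le_self _ _))
  · exact Nat.mul_le_mul hcard2 (Nat.pow_le_pow_right (by norm_num) (by omega))

end Pool.Agent.W2helper67.FD
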