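import Pool.Agent.W2helper67.FD.Tl
import Pool.Agent.W2helper67.FD.Tr
import Pool.Agent.W2helper30.CF.Near

set_option autoImplicit false

/-!
The formula of Hardy and Littlewood for the systems `n, n + h j`, `h j` in the values `c j + κ j ⌊Z j x j⌋`.
-/

namespace Pool.Agent.W2helper67.FD

open Finset MeasureTheory Filter Topology
open Pool.Agent.Y885 (TLaw)
open Pool.Agent.W2helper30.CF (HLf cf_tuples tlaw_mono)

/-- the masses of a product of distributions -/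
lemma pi_sum {s : ℕ} (μ : Fin s → Measure ℝ) [∀ j, IsProbabilityMeasure (μ j)] (g : Fin s → ℝ → ℕ)
    (hg : ∀ j, Measurable (g j)) (R : Fin s → ℕ) (hR : ∀ j x, g j x < R j) (Ev : (Fin s → ℕ) → Prop) [DecidablePred Ev] :
    (Measure.pi μ).real {x | Ev (fun j => g j (x j))} =
      ∑ ω ∈ Fintype.piFinset (fun j => range (R j)), (if Ev ω then ∏ j, (μ j).real {x | g j x = ω j} else 0) := by
  have hm : ∀ (j : Fin s) (v : ℕ), MeasurableSet {x | g j x = v} := fun j v => hg j (measurableSet_singleton v)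
  have h1 : {x : Fin s → ℝ | Ev (fun j => g j (x j))} =
      ⋃ ω ∈ (Fintype.piFinset (fun j => range (R j))).filter Ev, Set.univ.pi (fun j => {x | g j x = ω j}) := by
    ext x
    simp only [Set.mem_ofPred_eq, Set.mem_iUnion, mem_filter, Fintype.mem_piFinset, mem_range, exists_prop,
      Set.mem_pi, Set.mem_univ, forall_true_left]
    constructor
    · intro h
      exact ⟨fun j => g j (x j), ⟨fun j => hR j _, h⟩, fun j => rfl⟩
    · rintro ⟨ω, ⟨_, h2⟩, h3⟩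
      have : (fun j => g j (x j)) = ω := funext h3
      rw [this]
      exact h2
  rw [h1, measureReal_biUnion_finset, sum_filter]
  · refine sum_congr rfl fun ω _ => ?_
    split_ifs
    · unfold Measure.real
      rw [Measure.pi_pi, ENNReal.toReal_prod]
    · rfl
  · intro ω _ ω' _ hne
    rw [Function.onFun, Set.disjoint_left]
    intro x hx hx'
    apply hne
    funext j
    have a := hx j (Set.mem_univ j)
    have b := hx' j (Set.mem_univ j)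
    simp only [Set.mem_ofPred_eq] at a b
    exact a.symm.trans b
  · intro ω _
    exact MeasurableSet.univ_pi fun j => hm j (ω j)

lemma pi_ae {s : ℕ} (μ : Fin s → Measure ℝ) [∀ j, IsProbabilityMeasure (μ j)]
    (hs : ∀ j, ∀ᵐ x ∂(μ j), 0 ≤ x ∧ x < 1) : ∀ᵐ x ∂(Measure.pi μ), ∀ j, 0 ≤ x j ∧ x j < 1 := by
  refine ae_all_iff.2 fun j => ?_
  exact (Measure.tendsto_eval_ae_ae (μ := μ) (i := j)).eventually (hs j)

open Classical in
/-- the formula for almost all vectors -/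
theorem fd_tup (t : ℕ) (ht : 1 ≤ t) : ∃ c₀ : ℝ, 0 < c₀ ∧ ∀ (s : ℕ) (τ : ℝ), 0 < τ → ∀ (C₁ : ℝ) (κ : Fin s → ℤ),
    (∀ j, κ j ≠ 0) → ∀ (r B W : ℕ) (η : ℝ), 0 < η → ∃ n₀ : ℕ, ∀ N : ℕ, n₀ ≤ N → ∀ Z : Fin s → ℝ, (∀ j, 1 ≤ Z j) →
    (∀ j, Z j ≤ B * N) → (∀ j, (N : ℝ) ≤ Z j * Real.log (Z j) ^ r) →
    ∀ (μ : Fin s → Measure ℝ) [∀ j, IsProbabilityMeasure (μ j)], (∀ j, FDec (μ j) τ C₁) →
    (∀ j, ∀ᵐ x ∂(μ j), 0 ≤ x ∧ x < 1) → ∀ c : Fin s → ℤ, (∀ j, |(c j : ℝ)| ≤ B * N) →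
    ∀ φ : Fin t → Fin s, Function.Injective φ →
    (Measure.pi μ).real {x | (∀ j, 0 ≤ c j + κ j * ⌊Z j * x j⌋) ∧
      ¬ HLf c₀ η N (fun _ => 1) (fun a => c (φ a) + κ (φ a) * ⌊Z (φ a) * x (φ a)⌋)} ≤ 1 / Real.log N ^ W := by
  obtain ⟨c₀, hc₀, hct⟩ := cf_tuples t 1 ht
  refine ⟨c₀, hc₀, fun s τ hτ C₁ κ hκ r B W η hη => ?_⟩
  obtain ⟨V, hV⟩ : ∃ V, V = 2 * ((W + 1) + 3 + s + 2) + 6 := ⟨_, rfl⟩
  choose C₀ m₀ htl using fun j => FC_tlaw hτ C₁ (κ j) (hκ j) (r + 1) V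
  obtain ⟨C, hC⟩ : ∃ C, C = ∑ j, C₀ j := ⟨_, rfl⟩
  have hCj : ∀ j, C₀ j ≤ C := fun j => by
    rw [hC]
    exact single_le_sum (f := C₀) (fun _ _ => Nat.zero_le _) (mem_univ j)
  have hmj : ∀ j, m₀ j ≤ ∑ j, m₀ j := fun j =>
    single_le_sum (f := m₀) (fun _ _ => Nat.zero_le _) (mem_univ j)
  obtain ⟨κm, hκm⟩ : ∃ κm : ℕ, κm = ∑ j, (κ j).natAbs := ⟨_, rfl⟩
  have hκj : ∀ j, (κ j).natAbs ≤ κm := fun j => by
    rw [hκm]
    exact single_le_sum (f := fun j => (κ j).natAbs) (fun _ _ => Nat.zero_le _) (mem_univ j)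
  obtain ⟨D, hD⟩ : ∃ D : ℕ, D = 2 * κm * B + 2 * B + 2 := ⟨_, rfl⟩
  obtain ⟨K₀, hK₀⟩ := hct s 2 3 C (2 * D) (W + 1) le_rfl (by norm_num) η hη
  obtain ⟨k₁, hk₁⟩ : ∃ k₁, k₁ = ∑ j, m₀ j + 2 * D + K₀ + 2 := ⟨_, rfl⟩
  refine ⟨2 ^ k₁ * k₁ ^ r + 1, fun N hN Z hZ1 hZB hNZ μ _ hμ hs c hc φ hφ => ?_⟩
  choose k hk1 hk2 using fun j => dig_exists (Z j) (hZ1 j)
  have hNk' : ∀ j, N ≤ 2 ^ k j * (k j) ^ r := by
    intro j
    have h1 : (N : ℝ) ≤ 2 ^ k j * (k j : ℝ) ^ r := by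
      refine (hNZ j).trans (mul_le_mul (hk2 j) ?_ ?_ (by positivity))
      · exact pow_le_pow_left₀ (Real.log_nonneg (hZ1 j)) (log_dig (hZ1 j) (hk2 j)) r
      · exact pow_nonneg (Real.log_nonneg (hZ1 j)) r
    exact_mod_cast h1
  have hkbig : ∀ j, k₁ ≤ k j := by
    intro j
    by_contra hcon
    push Not at hcon
    have h1 : 2 ^ k j * k j ^ r ≤ 2 ^ k₁ * k₁ ^ r :=
      Nat.mul_le_mul (Nat.pow_le_pow_right (by norm_num) hcon.le) (Nat.pow_le_pow_left hcon.le r)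
    have := hNk' j
    omega
  have hN0 : 0 < N := by omega
  have h2kN : ∀ j, 2 ^ k j ≤ 2 * B * N := by
    intro j
    have h1 : (2 : ℝ) ^ k j ≤ 2 * B * N := by
      have h2 := hk1 j
      have h3 := hZB j
      calc (2 : ℝ) ^ k j ≤ 2 * Z j := h2
        _ ≤ 2 * (B * N) := by linarith
        _ = 2 * B * N := by ring
    exact_mod_cast h1
  -- the common scale
  have hDN1 : 1 ≤ D * N := by
    have : 0 < D * N := Nat.mul_pos (by omega) hN0
    omega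
  obtain ⟨K, hK1, hK2⟩ := dig_exists ((D * N : ℕ) : ℝ) (by exact_mod_cast hDN1)
  have hKpow : 2 ^ K ≤ 2 * D * N := by
    have h1 : (2 : ℝ) ^ K ≤ ((2 * D * N : ℕ) : ℝ) := by
      push_cast at hK1 ⊢
      linarith
    exact_mod_cast h1
  have hKpow2 : D * N ≤ 2 ^ K := by exact_mod_cast hK2
  have hDB : (2 * B) * N ≤ D * N := Nat.mul_le_mul_right _ (by rw [hD]; omega)
  have hkK : ∀ j, k j ≤ K := by
    intro j
    have h1 : 2 ^ k j ≤ 2 ^ K := (h2kN j).trans (hDB.trans hKpow2)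
    exact (Nat.pow_le_pow_iff_right (by norm_num)).1 h1
  obtain ⟨jt, hjt⟩ : ∃ jt : Fin s, jt = φ ⟨0, by omega⟩ := ⟨_, rfl⟩
  have hKbig : k₁ ≤ K := (hkbig jt).trans (hkK jt)
  have hK1' : 1 ≤ K := by omega
  have hej : ∀ j, 2 ^ (K - k j) ≤ k j ^ (r + 1) := by
    intro j
    have h1 : 2 ^ (K - k j) * 2 ^ k j ≤ (2 * D * k j ^ r) * 2 ^ k j := by
      calc 2 ^ (K - k j) * 2 ^ k j = 2 ^ K := by
            rw [← pow_add]
            congr 1
            have := hkK j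
            omega
        _ ≤ 2 * D * N := hKpow
        _ ≤ 2 * D * (2 ^ k j * k j ^ r) := Nat.mul_le_mul_left _ (hNk' j)
        _ = (2 * D * k j ^ r) * 2 ^ k j := by ring
    have h2 := Nat.le_of_mul_le_mul_right h1 (by positivity)
    calc 2 ^ (K - k j) ≤ 2 * D * k j ^ r := h2
      _ ≤ k j * k j ^ r := Nat.mul_le_mul_right _ (by have := hkbig j; omega)
      _ = k j ^ (r + 1) := by rw [pow_succ]; ring
  -- the laws
  obtain ⟨p, hp⟩ : ∃ p : Fin s → ℕ → ℝ, p = fun j v => (μ j).real {x | nz (Z j) x = v} := ⟨_, rfl⟩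
  have hFC : ∀ j, FC τ C₁ (k j) (p j) := fun j =>
    ⟨μ j, inferInstance, Z j, hμ j, hs j, hk1 j, hk2 j, fun v => by rw [hp]⟩
  obtain ⟨Y, hY⟩ : ∃ Y : Fin s → ℕ → ℤ, Y = fun j v => ((1 : ℕ) : ℤ) * (c j + κ j * (v : ℕ)) := ⟨_, rfl⟩
  have hlaw : ∀ j, TLaw 2 3 C V K (range (2 ^ k j)) (p j) (Y j) := by
    intro j
    have h1 := htl j (k j) (by have := hkbig j; have := hmj j; omega) (p j) (hFC j) (K - k j) 1
      (hej j) le_rfl (Nat.one_le_pow _ _ (by have := hkbig j; omega)) (c j) K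
      (by have := hkK j; omega)
    rw [hY]
    exact tlaw_mono hK1' (hCj j) h1
  have hYb : ∀ j, ∀ v ∈ range (2 ^ k j), |Y j v| ≤ ((B : ℤ) + 2 * κm * B) * N := by
    intro j v hv
    rw [mem_range] at hv
    rw [hY]
    simp only
    rw [Nat.cast_one, one_mul]
    have h1 : |c j| ≤ (B : ℤ) * N := by exact_mod_cast hc j
    have h3 : |κ j * ((v : ℕ) : ℤ)| ≤ (κm : ℤ) * (2 * B * N) := by
      rw [abs_mul, Int.abs_eq_natAbs (κ j), Nat.abs_cast]
      have hv2 : ((v : ℕ) : ℤ) ≤ 2 * B * N := by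
        have := (hv.le).trans (h2kN j)
        exact_mod_cast this
      exact mul_le_mul (by exact_mod_cast hκj j) hv2 (Nat.cast_nonneg _) (Nat.cast_nonneg _)
    calc |c j + κ j * ((v : ℕ) : ℤ)| ≤ |c j| + |κ j * ((v : ℕ) : ℤ)| := abs_add_le _ _
      _ ≤ (B : ℤ) * N + (κm : ℤ) * (2 * B * N) := add_le_add h1 h3
      _ = _ := by ring
  have hDz : ((D : ℕ) : ℤ) * N ≤ (2 : ℤ) ^ K := by exact_mod_cast hKpow2
  have hDv : ((D : ℕ) : ℤ) = 2 * κm * B + 2 * B + 2 := by rw [hD]; push_cast; ring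
  have hNz : (0 : ℤ) < N := by exact_mod_cast hN0
  have hBNz : (0 : ℤ) ≤ (B : ℤ) * N := by positivity
  have hκBN : (0 : ℤ) ≤ 2 * (κm : ℤ) * B * N := by positivity
  obtain ⟨Ev, hEv⟩ : ∃ Ev : (Fin s → ℕ) → Prop, Ev = fun ω => (∀ j, 0 ≤ Y j (ω j)) ∧
    ¬ HLf c₀ η N (fun _ => 1) (fun a => Y (φ a) (ω (φ a))) := ⟨_, rfl⟩
  have key := hK₀ K (by omega) ℕ inferInstance (fun j => range (2 ^ k j)) p Y (fun _ => 1) φ hφ
    (fun _ => ⟨le_rfl, le_rfl⟩)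
    (fun j => by rw [← hV]; exact hlaw j) (fun j => FC_sum (hFC j)) N hKpow
    (by
      refine le_trans ?_ hKpow2
      exact Nat.le_mul_of_pos_left N (by omega))
    (fun j => by
      push_cast
      rw [hDv] at hDz
      nlinarith)
    (fun j v hv => by
      have h1 := hYb j v hv
      rw [abs_le] at h1
      rw [hDv] at hDz
      push_cast
      constructor
      · nlinarith [h1.1]
      · nlinarith [h1.2])
    Ev (Classical.decPred _) (fun ω _ h => by rw [hEv] at h; exact h)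
  have hm := pi_sum μ (fun j => nz (Z j)) (fun j => meas_nz (Z j)) (fun j => 2 ^ k j)
    (fun j x => nz_lt (pos_Z (hk1 j)) (hk2 j) x) Ev
  have hE : (Measure.pi μ).real {x | (∀ j, 0 ≤ c j + κ j * ⌊Z j * x j⌋) ∧
      ¬ HLf c₀ η N (fun _ => 1) (fun a => c (φ a) + κ (φ a) * ⌊Z (φ a) * x (φ a)⌋)} =
      (Measure.pi μ).real {x | Ev (fun j => nz (Z j) (x j))} := by
    apply measureReal_congr
    filter_upwards [pi_ae μ hs] with x hx
    have h5 : ∀ j, ((nz (Z j) (x j) : ℕ) : ℤ) = ⌊Z j * x j⌋ := fun j => nz_eq (pos_Z (hk1 j)) (hx j).1 (hx j).2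
    have : (x ∈ {x : Fin s → ℝ | (∀ j, 0 ≤ c j + κ j * ⌊Z j * x j⌋) ∧
      ¬ HLf c₀ η N (fun _ => 1) (fun a => c (φ a) + κ (φ a) * ⌊Z (φ a) * x (φ a)⌋)}) =
      (x ∈ {x : Fin s → ℝ | Ev (fun j => nz (Z j) (x j))}) := by
      simp only [Set.mem_ofPred_eq]
      rw [hEv, hY]
      simp only [h5, Nat.cast_one, one_mul]
    exact this
  rw [hE, hm]
  refine le_trans (le_of_eq ?_) (key.trans ?_)
  · refine sum_congr rfl fun ω _ => ?_
    rw [hp]
  · -- the logarithm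
    have hKr : (1 : ℝ) ≤ K := by exact_mod_cast hK1'
    have hN2 : 1 < N := by
      have h1 : 2 ≤ 2 ^ k₁ := by
        calc 2 = 2 ^ 1 := by norm_num
          _ ≤ 2 ^ k₁ := Nat.pow_le_pow_right (by norm_num) (by omega)
      have h2 : 1 ≤ k₁ ^ r := Nat.one_le_pow _ _ (by omega)
      have h3 : 2 * 1 ≤ 2 ^ k₁ * k₁ ^ r := Nat.mul_le_mul h1 h2
      omega
    have hlog0 : 0 < Real.log N := Real.log_pos (by exact_mod_cast hN2)
    have hlogN : Real.log N ≤ K := by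
      refine log_dig (by exact_mod_cast hN0) ?_
      have h2 : N ≤ 2 ^ K := (Nat.le_mul_of_pos_left N (by omega : 0 < D)).trans hKpow2
      exact_mod_cast h2
    apply one_div_le_one_div_of_le (by positivity)
    calc Real.log N ^ W ≤ (K : ℝ) ^ W := pow_le_pow_left₀ hlog0.le hlogN W
      _ ≤ (K : ℝ) ^ (W + 1) := pow_le_pow_right₀ hKr (by omega)

end Pool.Agent.W2helper67.FD
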